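import Pool.Agent.HK.Defs

set_option autoImplicit false

open MvPolynomial

namespace HK

variable {κ : Type}

/-- [HK-A1] any finite set that contains the support may be used -/
theorem L1_eq {P : MvPolynomial κ ℤ} {s : Finset (κ →₀ ℕ)} (h : P.support ⊆ s) :
    L1 P = ∑ J ∈ s, |((P.coeff J : ℤ) : ℝ)| := by
  unfold L1
  refine Finset.sum_subset h fun J _ hJ => ?_
  rw [MvPolynomial.notMem_support_iff.1 hJ]
  simp

theorem L1_nonneg (P : MvPolynomial κ ℤ) : 0 ≤ L1 P := Finset.sum_nonneg fun _ _ => abs_nonneg _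

theorem abs_coeff_le_L1 (P : MvPolynomial κ ℤ) (J : κ →₀ ℕ) : |((P.coeff J : ℤ) : ℝ)| ≤ L1 P := by
  classical
  rw [L1_eq (Finset.subset_insert J P.support)]
  exact Finset.single_le_sum (f := fun J => |((P.coeff J : ℤ) : ℝ)|) (fun _ _ => abs_nonneg _)
    (Finset.mem_insert_self J _)

/-- a nonzero coefficient is a nonzero integer -/
theorem one_le_L1 {P : MvPolynomial κ ℤ} (h : P ≠ 0) : 1 ≤ L1 P := by
  obtain ⟨J, hJ⟩ := MvPolynomial.ne_zero_iff.1 h
  refine le_trans ?_ (abs_coeff_le_L1 P J)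
  have := Int.one_le_abs hJ
  exact_mod_cast this

theorem L1_add (P Q : MvPolynomial κ ℤ) : L1 (P + Q) ≤ L1 P + L1 Q := by
  classical
  rw [L1_eq (MvPolynomial.support_add (p := P) (q := Q)),
    L1_eq (Finset.subset_union_left : P.support ⊆ P.support ∪ Q.support),
    L1_eq (Finset.subset_union_right : Q.support ⊆ P.support ∪ Q.support),
    ← Finset.sum_add_distrib]
  refine Finset.sum_le_sum fun J _ => ?_
  rw [MvPolynomial.coeff_add]
  push_cast
  exact abs_add_le _ _

private theorem a1_zero : L1 (0 : MvPolynomial κ ℤ) = 0 := by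
  simp [L1]

private theorem a1_neg (P : MvPolynomial κ ℤ) : L1 (-P) = L1 P := by
  unfold L1
  rw [MvPolynomial.support_neg]
  refine Finset.sum_congr rfl fun J _ => ?_
  rw [MvPolynomial.coeff_neg]
  push_cast
  exact abs_neg _

private theorem a1_monomial (J : κ →₀ ℕ) (c : ℤ) : L1 (monomial J c) = |(c : ℝ)| := by
  classical
  rw [L1_eq (s := {J}) MvPolynomial.support_monomial_subset, Finset.sum_singleton,
    MvPolynomial.coeff_monomial, if_pos rfl]

theorem L1_sum {ι : Type} (s : Finset ι) (f : ι → MvPolynomial κ ℤ) :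
    L1 (∑ i ∈ s, f i) ≤ ∑ i ∈ s, L1 (f i) := by
  classical
  induction s using Finset.induction_on with
  | empty => simp [a1_zero]
  | insert a s ha ih =>
    rw [Finset.sum_insert ha, Finset.sum_insert ha]
    exact (L1_add _ _).trans (add_le_add le_rfl ih)

/-- PROOF. `P * Q` is the sum over the pairs of monomials (`MvPolynomial.as_sum`, `L1_add`, `L1 (monomial J c) = |c|`). -/
theorem L1_mul (P Q : MvPolynomial κ ℤ) : L1 (P * Q) ≤ L1 P * L1 Q := by
  have h : P * Q = ∑ i ∈ P.support, ∑ j ∈ Q.support,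
      monomial (i + j) (P.coeff i * Q.coeff j) := by
    conv_lhs => rw [P.as_sum, Q.as_sum, Finset.sum_mul_sum]
    refine Finset.sum_congr rfl fun i _ => Finset.sum_congr rfl fun j _ => ?_
    rw [MvPolynomial.monomial_mul]
  rw [h]
  refine (L1_sum _ _).trans ?_
  rw [L1, L1, Finset.sum_mul_sum]
  refine Finset.sum_le_sum fun i _ => ?_
  refine (L1_sum _ _).trans ?_
  refine Finset.sum_le_sum fun j _ => ?_
  rw [a1_monomial, ← abs_mul]
  push_cast
  exact le_rfl

theorem L1_prod {ι : Type} (s : Finset ι) (f : ι → MvPolynomial κ ℤ) :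
    L1 (∏ i ∈ s, f i) ≤ ∏ i ∈ s, L1 (f i) := by
  classical
  induction s using Finset.induction_on with
  | empty =>
    rw [Finset.prod_empty, Finset.prod_empty]
    have h := a1_monomial (κ := κ) 0 1
    rw [show (monomial (0 : κ →₀ ℕ) (1 : ℤ)) = 1 from rfl] at h
    rw [h]
    simp
  | insert a s ha ih =>
    rw [Finset.prod_insert ha, Finset.prod_insert ha]
    exact (L1_mul _ _).trans (mul_le_mul_of_nonneg_left ih (L1_nonneg _))

/-- Leibniz formula (`Matrix.det_apply`) -/
theorem L1_det {h : ℕ} (M : Matrix (Fin h) (Fin h) (MvPolynomial κ ℤ)) {Λ : ℝ} (hΛ : 0 ≤ Λ)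
    (hM : ∀ i j, L1 (M i j) ≤ Λ) : L1 M.det ≤ (h.factorial : ℝ) * Λ ^ h := by
  rw [Matrix.det_apply]
  refine (L1_sum _ _).trans ?_
  have h1 : ∀ σ ∈ (Finset.univ : Finset (Equiv.Perm (Fin h))),
      L1 (Equiv.Perm.sign σ • ∏ i, M (σ i) i) ≤ Λ ^ h := by
    intro σ _
    have h2 : L1 (Equiv.Perm.sign σ • ∏ i, M (σ i) i) = L1 (∏ i, M (σ i) i) := by
      rcases Int.units_eq_one_or (Equiv.Perm.sign σ) with h3 | h3
      · rw [h3, one_smul]
      · rw [h3, Units.neg_smul, one_smul, a1_neg]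
    rw [h2]
    refine (L1_prod _ _).trans ?_
    calc ∏ i, L1 (M (σ i) i) ≤ ∏ _i : Fin h, Λ :=
          Finset.prod_le_prod (fun i _ => L1_nonneg _) fun i _ => hM _ _
      _ = Λ ^ h := by rw [Finset.prod_const, Finset.card_univ, Fintype.card_fin]
  refine (Finset.sum_le_sum h1).trans ?_
  rw [Finset.sum_const, Finset.card_univ, Fintype.card_perm, Fintype.card_fin, nsmul_eq_mul]

end HK
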