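import Pool.Agent.HK.A4

set_option autoImplicit false

open MvPolynomial

namespace HK

/-- [HK-A5] a polynomial in one variable with integer coefficients.
PROOF. Let `i` be the multiplicity of the root `n` of `G` (`Polynomial.rootMultiplicity`, possibly `0`). `G = (X - n)^i * H` in `ℤ[X]`
(`X - n` is monic), `H` has a nonzero value at `n`, so the coefficient of `X^i` in `taylor n G` is `H(n) ≠ 0`. The trailing coefficient of
`G` is `(-n)^i` times the trailing coefficient of `H` (`Polynomial.trailingCoeff_mul`), so `n^i ≤ |trailingCoeff G| ≤ ∑ |coeff|`. -/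
theorem one_var (G : Polynomial ℤ) (hG : G ≠ 0) (n : ℕ) (hn : 2 ≤ n) :
    ∃ i : ℕ, (Polynomial.taylor (n : ℤ) G).coeff i ≠ 0 ∧
      (n : ℝ) ^ i ≤ ∑ c ∈ G.support, |((G.coeff c : ℤ) : ℝ)| := by
  obtain ⟨H, hH, hnd⟩ := Polynomial.exists_eq_pow_rootMultiplicity_mul_and_not_dvd G hG (n : ℤ)
  generalize G.rootMultiplicity (n : ℤ) = i at hH
  have hev : H.eval (n : ℤ) ≠ 0 := fun h => hnd (Polynomial.dvd_iff_isRoot.2 h)
  have hH0 : H ≠ 0 := by
    rintro rfl
    simp at hev
  have hn0 : (n : ℤ) ≠ 0 := by positivity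
  refine ⟨i, ?_, ?_⟩
  · have h1 : Polynomial.taylor (n : ℤ) G = Polynomial.X ^ i * Polynomial.taylor (n : ℤ) H := by
      rw [hH, Polynomial.taylor_mul, Polynomial.taylor_pow, map_sub, Polynomial.taylor_X,
        Polynomial.taylor_C, add_sub_cancel_right]
    rw [h1, Polynomial.coeff_X_pow_mul']
    simpa [Polynomial.taylor_coeff_zero] using hev
  · have h2 : G.trailingCoeff = (-(n : ℤ)) ^ i * H.trailingCoeff := by
      rw [hH, Polynomial.trailingCoeff_mul]
      congr 1
      have h3 : ∀ j : ℕ, ((Polynomial.X - Polynomial.C (n : ℤ)) ^ j).trailingCoeff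
          = (-(n : ℤ)) ^ j := by
        intro j
        induction j with
        | zero => simp [Polynomial.trailingCoeff]
        | succ j ih =>
          rw [pow_succ, Polynomial.trailingCoeff_mul, ih, pow_succ]
          congr 1
          have hn1 : n ≠ 0 := by omega
          rw [Polynomial.trailingCoeff_eq_coeff_zero] <;> simp [hn1]
      exact h3 i
    have h4 : (1 : ℤ) ≤ |H.trailingCoeff| := by
      apply Int.one_le_abs
      exact Polynomial.trailingCoeff_nonzero_iff_nonzero.2 hH0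
    have h5 : (n : ℤ) ^ i ≤ |G.trailingCoeff| := by
      rw [h2, abs_mul, abs_pow, abs_neg, Nat.abs_cast]
      nlinarith [pow_pos (by positivity : (0 : ℤ) < n) i]
    have h6 : (n : ℝ) ^ i ≤ |((G.trailingCoeff : ℤ) : ℝ)| := by
      have : (((n : ℤ) ^ i : ℤ) : ℝ) ≤ ((|G.trailingCoeff| : ℤ) : ℝ) := by exact_mod_cast h5
      simpa using this
    refine h6.trans ?_
    exact Finset.single_le_sum (f := fun c => |((G.coeff c : ℤ) : ℝ)|)
      (fun c _ => abs_nonneg _) (Polynomial.natTrailingDegree_mem_support_of_nonzero hG)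

/-- [HK-A5] PROOF. `G = ∑_c W.coeff (cons c K) X^c ∈ ℤ[X]`, i.e. `G = u V` over `ℚ`; `one_var`, `sum_coeff_cons_le`. -/
theorem ov {m : ℕ} (W : MvPolynomial (Fin (m + 1)) ℤ) (K : Fin m →₀ ℕ) (u : ℚ) (hu : u ≠ 0)
    (V : Polynomial ℚ) (hV : V ≠ 0)
    (hW : ∀ c, ((W.coeff (Finsupp.cons c K) : ℤ) : ℚ) = u * V.coeff c) (n : ℕ) (hn : 2 ≤ n) :
    ∃ i : ℕ, (Polynomial.taylor (n : ℚ) V).coeff i ≠ 0 ∧ (n : ℝ) ^ i ≤ L1 W := by
  classical
  let G : Polynomial ℤ := ∑ c ∈ V.support, Polynomial.monomial c (W.coeff (Finsupp.cons c K))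
  have hGc : ∀ c, G.coeff c = W.coeff (Finsupp.cons c K) := by
    intro c
    simp only [G, Polynomial.finsetSum_coeff, Polynomial.coeff_monomial]
    rw [Finset.sum_ite_eq' V.support c]
    split_ifs with h
    · rfl
    · have h1 : V.coeff c = 0 := by simpa using h
      have h2 := hW c
      rw [h1, mul_zero] at h2
      exact_mod_cast h2.symm
  have hmap : G.map (Int.castRingHom ℚ) = Polynomial.C u * V := by
    ext c
    rw [Polynomial.coeff_map, Polynomial.coeff_C_mul, hGc, ← hW]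
    simp
  have hG0 : G ≠ 0 := by
    intro h
    rw [h, Polynomial.map_zero] at hmap
    exact mul_ne_zero (Polynomial.C_ne_zero.2 hu) hV hmap.symm
  obtain ⟨i, h1, h2⟩ := one_var G hG0 n hn
  refine ⟨i, ?_, ?_⟩
  · intro h
    apply h1
    have h3 : (Polynomial.taylor (n : ℚ) (G.map (Int.castRingHom ℚ))).coeff i = 0 := by
      rw [hmap, Polynomial.taylor_mul, Polynomial.taylor_C, Polynomial.coeff_C_mul, h, mul_zero]
    have h4 : Polynomial.taylor (n : ℚ) (G.map (Int.castRingHom ℚ))
        = (Polynomial.taylor (n : ℤ) G).map (Int.castRingHom ℚ) := by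
      simp [Polynomial.taylor_apply, Polynomial.map_comp]
    rw [h4, Polynomial.coeff_map, eq_intCast] at h3
    exact_mod_cast h3
  · refine h2.trans ?_
    have : ∑ c ∈ G.support, |((G.coeff c : ℤ) : ℝ)|
        = ∑ c ∈ G.support, |((W.coeff (Finsupp.cons c K) : ℤ) : ℝ)| := by
      refine Finset.sum_congr rfl fun c _ => ?_
      rw [hGc]
    rw [this]
    exact sum_coeff_cons_le G.support W K

end HK
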