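import Mathlib

set_option autoImplicit false

namespace HK

theorem a6a_li {V : Type} [AddCommGroup V] [Module ℚ V] {h : ℕ} (f : Fin (h + 1) → V)
    (hf : LinearIndependent ℚ f) (l₀ : Fin (h + 1)) (r : Fin h → ℚ) :
    LinearIndependent ℚ (fun l => f (l₀.succAbove l) - r l • f l₀) := by
  rw [Fintype.linearIndependent_iff] at hf ⊢
  intro g hg i
  have h1 : ∑ l'', (Fin.insertNth (α := fun _ => ℚ) l₀ (-∑ l, g l * r l) g l'') • f l'' = 0 := by
    rw [Fin.sum_univ_succAbove _ l₀]
    simp only [Fin.insertNth_apply_same, Fin.insertNth_apply_succAbove]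
    rw [← hg]
    simp only [smul_sub, Finset.sum_sub_distrib, smul_smul, neg_smul, Finset.sum_smul]
    abel
  have h2 := hf _ h1 (l₀.succAbove i)
  simpa using h2

/-- [HK-A6a] echelon form.
PROOF. Induction on `h`. `h = 0` trivial. `h + 1`: the set of the `a` with `c a (f l) ≠ 0` for some `l` is finite and nonempty (`f 0 ≠ 0`); let
`a` be its maximum and `l₀` with `c a (f l₀) ≠ 0`. For `l ≠ l₀` let `f' l = f l - (c a (f l) / c a (f l₀)) • f l₀`, a linearly independent family
of `h` vectors (index by `Fin h` through `l₀.succAbove`), with `c b (f' l) = 0` for all `b ≥ a`. By induction there are `A'`, `E'`; `E' l < a` since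
`c (E' l)` does not vanish on a combination of the `f'`. Take `E = Fin.cons a E'` and the corresponding `A` (first row: `f l₀`). -/
theorem echelon {V α : Type} [AddCommGroup V] [Module ℚ V] [LinearOrder α] (c : α → V →ₗ[ℚ] ℚ)
    (hfin : ∀ v, {a | c a v ≠ 0}.Finite) (hinj : ∀ v, (∀ a, c a v = 0) → v = 0) {h : ℕ}
    (f : Fin h → V) (hf : LinearIndependent ℚ f) :
    ∃ (A : Matrix (Fin h) (Fin h) ℚ) (E : Fin h → α), Function.Injective E ∧
      ∀ l, c (E l) (∑ l', A l l' • f l') ≠ 0 ∧ ∀ a, E l < a → c a (∑ l', A l l' • f l') = 0 := by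
  induction h with
  | zero =>
    exact ⟨0, fun l => l.elim0, fun l => l.elim0, fun l => l.elim0⟩
  | succ h ih =>
    set S : Set α := {a | ∃ l, c a (f l) ≠ 0} with hS
    have hSfin : S.Finite := by
      have : S = ⋃ l, {a | c a (f l) ≠ 0} := by
        ext a; simp [hS]
      rw [this]
      exact Set.finite_iUnion fun l => hfin _
    have hSne : S.Nonempty := by
      have h0 : f 0 ≠ 0 := hf.ne_zero 0
      by_contra hne
      apply h0
      apply hinj
      intro a
      by_contra ha
      exact hne ⟨a, 0, ha⟩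
    obtain ⟨a, haS, hmax⟩ := Set.exists_max_image S id hSfin hSne
    obtain ⟨l₀, hl₀⟩ := haS
    have hgt : ∀ b, a < b → ∀ l, c b (f l) = 0 := by
      intro b hb l
      by_contra hne
      exact absurd (hmax b ⟨l, hne⟩) (not_le.mpr hb)
    set r : Fin h → ℚ := fun l => c a (f (l₀.succAbove l)) / c a (f l₀) with hr
    have hli := a6a_li f hf l₀ r
    set f' : Fin h → V := fun l => f (l₀.succAbove l) - r l • f l₀ with hf'
    obtain ⟨A', E', hE', hA'⟩ := ih f' hli
    have hz : ∀ b, a ≤ b → ∀ l, c b (f' l) = 0 := by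
      intro b hb l
      rcases hb.eq_or_lt with rfl | hb
      · simp only [hf', hr, map_sub, map_smul, smul_eq_mul]
        field_simp
        ring
      · simp only [hf', map_sub, map_smul, hgt b hb]
        simp
    have hlt : ∀ l, E' l < a := by
      intro l
      by_contra hge
      rw [not_lt] at hge
      apply (hA' l).1
      rw [map_sum]
      apply Finset.sum_eq_zero
      intro l' _
      rw [map_smul, hz _ hge, smul_zero]
    set A : Matrix (Fin (h + 1)) (Fin (h + 1)) ℚ :=
      Matrix.of (Fin.cons (Pi.single l₀ 1) (fun l => Fin.insertNth (α := fun _ => ℚ) l₀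
        (-∑ l', A' l l' * r l') (A' l))) with hA
    have hA0 : ∑ l', A 0 l' • f l' = f l₀ := by
      rw [Finset.sum_eq_single l₀]
      · simp [hA]
      · intro b _ hb
        simp [hA, hb]
      · intro hb
        exact absurd (Finset.mem_univ _) hb
    have hAs : ∀ l : Fin h, ∑ l', A l.succ l' • f l' = ∑ l', A' l l' • f' l' := by
      intro l
      rw [Fin.sum_univ_succAbove _ l₀]
      simp only [hA, Matrix.of_apply, Fin.cons_succ, Fin.insertNth_apply_same,
        Fin.insertNth_apply_succAbove, hf', smul_sub, Finset.sum_sub_distrib, smul_smul,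
        neg_smul, Finset.sum_smul]
      abel
    refine ⟨A, Fin.cons a E', ?_, ?_⟩
    · rw [Fin.cons_injective_iff]
      refine ⟨?_, hE'⟩
      rintro ⟨l, hl⟩
      exact absurd hl (hlt l).ne
    · intro l
      refine Fin.cases ?_ (fun l => ?_) l
      · rw [hA0, Fin.cons_zero]
        exact ⟨hl₀, fun b hb => hgt b hb l₀⟩
      · rw [hAs, Fin.cons_succ]
        exact hA' l

end HK
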