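import Mathlib

set_option autoImplicit false

namespace HK

/-- the vector of the values of a binomial function -/
noncomputable def a6b_b {m h : ℕ} (E : Fin h → (Fin m →₀ ℕ)) (I : Fin m →₀ ℕ) : Fin h → ℚ :=
  fun l => ((∏ k, (E l k).choose (I k) : ℕ) : ℚ)

/-- the binomial functions of degree at most `j` -/
def a6b_s {m h : ℕ} (E : Fin h → (Fin m →₀ ℕ)) (j : ℕ) : Set (Fin h → ℚ) :=
  {v | ∃ I : Fin m →₀ ℕ, ∑ k, I k ≤ j ∧ v = a6b_b E I}

theorem a6b_choose (x i : ℕ) : (x : ℚ) * (x.choose i : ℚ) =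
    ((i : ℚ) + 1) * (x.choose (i + 1) : ℚ) + (i : ℚ) * (x.choose i : ℚ) := by
  rcases le_or_gt i x with h | h
  · have h1 := Nat.choose_succ_right_eq x i
    have h2 : (x.choose (i + 1) : ℚ) * ((i : ℚ) + 1) = (x.choose i : ℚ) * ((x : ℚ) - i) := by
      rw [← Nat.cast_sub h]
      exact_mod_cast h1
    linear_combination -h2
  · rw [Nat.choose_eq_zero_of_lt h, Nat.choose_eq_zero_of_lt (by omega)]
    simp

theorem a6b_step {m h : ℕ} (E : Fin h → (Fin m →₀ ℕ)) (I : Fin m →₀ ℕ) (k : Fin m) (l : Fin h) :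
    ((E l k : ℕ) : ℚ) * a6b_b E I l =
      ((I k : ℚ) + 1) * a6b_b E (I + Finsupp.single k 1) l + (I k : ℚ) * a6b_b E I l := by
  unfold a6b_b
  have e1 := Finset.mul_prod_erase Finset.univ (fun k' => (E l k').choose (I k')) (Finset.mem_univ k)
  have e2 := Finset.mul_prod_erase Finset.univ
      (fun k' => (E l k').choose ((I + Finsupp.single k 1 : Fin m →₀ ℕ) k')) (Finset.mem_univ k)
  rw [← e1, ← e2]
  have h1 : ∏ k' ∈ Finset.univ.erase k, (E l k').choose ((I + Finsupp.single k 1 : Fin m →₀ ℕ) k') =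
      ∏ k' ∈ Finset.univ.erase k, (E l k').choose (I k') := by
    refine Finset.prod_congr rfl fun k' hk' => ?_
    have hne : k ≠ k' := (Finset.ne_of_mem_erase hk').symm
    rw [Finsupp.add_apply, Finsupp.single_eq_of_ne hne.symm, add_zero]
  rw [h1, Finsupp.add_apply, Finsupp.single_eq_same]
  push_cast
  linear_combination (∏ k' ∈ Finset.univ.erase k, ((E l k').choose (I k') : ℚ)) *
    a6b_choose (E l k) (I k)

theorem a6b_mono {m h : ℕ} (E : Fin h → (Fin m →₀ ℕ)) (j : ℕ) : a6b_s E j ⊆ a6b_s E (j + 1) := by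
  rintro v ⟨I, hI, rfl⟩
  exact ⟨I, hI.trans (Nat.le_succ j), rfl⟩

theorem a6b_mul {m h : ℕ} (E : Fin h → (Fin m →₀ ℕ)) (j : ℕ) (k : Fin m) (c : ℚ)
    (v : Fin h → ℚ) (hv : v ∈ Submodule.span ℚ (a6b_s E j)) :
    (fun l => (((E l k : ℕ) : ℚ) - c) * v l) ∈ Submodule.span ℚ (a6b_s E (j + 1)) := by
  induction hv using Submodule.span_induction with
  | mem v hv =>
    obtain ⟨I, hI, rfl⟩ := hv
    have e : (fun l => (((E l k : ℕ) : ℚ) - c) * a6b_b E I l) =
        ((I k : ℚ) + 1) • a6b_b E (I + Finsupp.single k 1) + ((I k : ℚ) - c) • a6b_b E I := by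
      funext l
      simp only [Pi.add_apply, Pi.smul_apply, smul_eq_mul]
      linear_combination a6b_step E I k l
    rw [e]
    refine Submodule.add_mem _ (Submodule.smul_mem _ _ (Submodule.subset_span ⟨_, ?_, rfl⟩))
      (Submodule.smul_mem _ _ (Submodule.subset_span (a6b_mono E j ⟨I, hI, rfl⟩)))
    have h1 : ∑ k', (Finsupp.single k 1 : Fin m →₀ ℕ) k' = 1 := by simp [Finsupp.single_apply]
    simp only [Finsupp.add_apply, Finset.sum_add_distrib]
    rw [h1]
    omega
  | zero =>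
    simp only [Pi.zero_apply, mul_zero]
    exact Submodule.zero_mem _
  | add v w _ _ h1 h2 =>
    have := Submodule.add_mem _ h1 h2
    convert this using 1
    funext l
    simp only [Pi.add_apply]
    ring
  | smul a v _ h1 =>
    have := Submodule.smul_mem _ a h1
    convert this using 1
    funext l
    simp only [Pi.smul_apply, smul_eq_mul]
    ring

theorem a6b_vanish {m h : ℕ} (E : Fin h → (Fin m →₀ ℕ)) (hE : Function.Injective E) (i : Fin h)
    (t : Finset (Fin h)) (ht : i ∉ t) :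
    ∃ v ∈ Submodule.span ℚ (a6b_s E t.card), v i ≠ 0 ∧ ∀ l ∈ t, v l = 0 := by
  induction t using Finset.induction_on with
  | empty =>
    refine ⟨a6b_b E 0, Submodule.subset_span ⟨0, by simp, rfl⟩, ?_, by simp⟩
    simp [a6b_b]
  | insert l t hl ih =>
    rw [Finset.mem_insert, not_or] at ht
    obtain ⟨v, hv, hvi, hvt⟩ := ih ht.2
    have hne : E i ≠ E l := fun h => ht.1 (hE h)
    obtain ⟨k, hk⟩ : ∃ k, E i k ≠ E l k := by
      by_contra hcon
      push Not at hcon
      exact hne (Finsupp.ext hcon)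
    refine ⟨fun l' => (((E l' k : ℕ) : ℚ) - (E l k : ℕ)) * v l', ?_, ?_, ?_⟩
    · rw [Finset.card_insert_of_notMem hl]
      exact a6b_mul E _ k _ v hv
    · refine mul_ne_zero (sub_ne_zero.2 ?_) hvi
      exact_mod_cast hk
    · intro l' hl'
      rcases Finset.mem_insert.1 hl' with rfl | h'
      · simp
      · simp [hvt l' h']

theorem a6b_span {m h : ℕ} (E : Fin (h + 1) → (Fin m →₀ ℕ)) (hE : Function.Injective E) :
    Submodule.span ℚ (a6b_s E h) = ⊤ := by
  rw [eq_top_iff, ← (Pi.basisFun ℚ (Fin (h + 1))).span_eq, Submodule.span_le]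
  rintro _ ⟨i, rfl⟩
  obtain ⟨v, hv, hvi, hvt⟩ := a6b_vanish E hE i (Finset.univ.erase i) (Finset.notMem_erase _ _)
  rw [Finset.card_erase_of_mem (Finset.mem_univ i), Finset.card_univ, Fintype.card_fin,
    Nat.add_sub_cancel] at hv
  have e : (Pi.basisFun ℚ (Fin (h + 1))) i = (v i)⁻¹ • v := by
    funext l
    rw [Pi.basisFun_apply, Pi.smul_apply, smul_eq_mul]
    by_cases hl : l = i
    · subst hl
      rw [Pi.single_eq_same, inv_mul_cancel₀ hvi]
    · rw [Pi.single_eq_of_ne hl, hvt l (Finset.mem_erase.2 ⟨hl, Finset.mem_univ _⟩), mul_zero]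
  rw [SetLike.mem_coe, e]
  exact Submodule.smul_mem _ _ hv

/-- [HK-A6b] interpolation by binomial functions.
PROOF. Write `b_I(x) = ∏_k binom (x_k) (I_k)` for `x : Fin m →₀ ℕ`. `(x_k - c) b_I(x) = (I_k + 1) b_{I + e_k}(x) + (I_k - c) b_I(x)`. So every product of
`j` functions of the form `x_k - c` is a `ℚ`-linear combination of the `b_I`, `|I| ≤ j`. For each `i` let
`Q_i(x) = ∏_{l ≠ i} (x_{k(l)} - E_l(k(l)))` with `k(l)` such that `E_i(k(l)) ≠ E_l(k(l))`: `Q_i(E_l) = 0` for `l ≠ i`, `Q_i(E_i) ≠ 0`, and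
`Q_i = ∑_{|I| ≤ h} q_{i,I} b_I`. The matrix `(Q_i(E_l))` is diagonal with nonzero determinant; by multilinearity in the rows
(`MultilinearMap.map_sum_finset` for `Matrix.detRowAlternating`, or `Finset.sum` expansions) the determinant is
`∑ (∏_i q_{i,I_i}) det (b_{I_i}(E_l))`, so one of the determinants is not zero. -/
theorem binom_det {m h : ℕ} (E : Fin (h + 1) → (Fin m →₀ ℕ)) (hE : Function.Injective E) :
    ∃ I : Fin (h + 1) → (Fin m →₀ ℕ), (∀ i, ∑ k, I i k ≤ h) ∧
      (Matrix.of fun i l => ((∏ k, (E l k).choose (I i k) : ℕ) : ℚ)).det ≠ 0 := by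
  obtain ⟨f, hfs, -, hfi⟩ := Submodule.exists_fun_fin_finrank_span_eq ℚ (a6b_s E h)
  have hr : Module.finrank ℚ (Submodule.span ℚ (a6b_s E h)) = h + 1 := by
    rw [a6b_span E hE, finrank_top, Module.finrank_fin_fun]
  choose I hI hfI using hfs
  let e : Fin (h + 1) ≃ Fin (Module.finrank ℚ (Submodule.span ℚ (a6b_s E h))) := finCongr hr.symm
  refine ⟨fun i => I (e i), fun i => hI (e i), ?_⟩
  have h1 : LinearIndependent ℚ (Matrix.of fun (i l : Fin (h + 1)) =>
      ((∏ k, (E l k).choose (I (e i) k) : ℕ) : ℚ)).row := by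
    have h2 := hfi.comp e e.injective
    have h3 : (Matrix.of fun (i l : Fin (h + 1)) =>
      ((∏ k, (E l k).choose (I (e i) k) : ℕ) : ℚ)).row = f ∘ e := by
      funext i
      rw [Function.comp_apply, hfI (e i)]
      rfl
    rw [h3]
    exact h2
  rw [Matrix.linearIndependent_rows_iff_isUnit, Matrix.isUnit_iff_isUnit_det] at h1
  exact h1.ne_zero

end HK
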