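import Pool.Agent.HK.A2
import Pool.Agent.HK.A6a
import Pool.Agent.HK.A6b

set_option autoImplicit false

open MvPolynomial

namespace HK

theorem a6c_mul {m : ℕ} (p q : MvPolynomial (Fin m) ℚ) (A B : Fin m →₀ ℕ)
    (hp : ∀ J, p.coeff J ≠ 0 → toLex J ≤ toLex A) (hq : ∀ J, q.coeff J ≠ 0 → toLex J ≤ toLex B) :
    (p * q).coeff (A + B) = p.coeff A * q.coeff B := by
  classical
  rw [coeff_mul, Finset.sum_eq_single (A, B)]
  · rintro ⟨x, y⟩ hxy hne
    rw [Finset.HasAntidiagonal.mem_antidiagonal] at hxy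
    simp only at hxy ⊢
    by_contra h
    have hx := hp x (left_ne_zero_of_mul h)
    have hy := hq y (right_ne_zero_of_mul h)
    have h1 : toLex x + toLex y = toLex A + toLex B := by
      rw [← toLex_add, ← toLex_add, hxy]
    rcases hx.lt_or_eq with hlt | heq
    · exact absurd h1 (add_lt_add_of_lt_of_le hlt hy).ne
    · rcases hy.lt_or_eq with hlt | heq'
      · exact absurd h1 (add_lt_add_of_le_of_lt hx hlt).ne
      · exact hne (Prod.ext (toLex.injective heq) (toLex.injective heq'))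
  · intro h
    exact absurd (by rw [Finset.HasAntidiagonal.mem_antidiagonal]) h

theorem a6c_mul_le {m : ℕ} (p q : MvPolynomial (Fin m) ℚ) (A B : Fin m →₀ ℕ)
    (hp : ∀ J, p.coeff J ≠ 0 → toLex J ≤ toLex A) (hq : ∀ J, q.coeff J ≠ 0 → toLex J ≤ toLex B) :
    ∀ J, (p * q).coeff J ≠ 0 → toLex J ≤ toLex (A + B) := by
  classical
  intro J hJ
  rw [coeff_mul] at hJ
  obtain ⟨⟨x, y⟩, hxy, h⟩ := Finset.exists_ne_zero_of_sum_ne_zero hJ
  rw [Finset.HasAntidiagonal.mem_antidiagonal] at hxy
  simp only at hxy h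
  have hx := hp x (left_ne_zero_of_mul h)
  have hy := hq y (right_ne_zero_of_mul h)
  rw [← hxy, toLex_add, toLex_add]
  exact add_le_add hx hy

theorem a6c_prod {m : ℕ} {ι : Type} (s : Finset ι) (f : ι → MvPolynomial (Fin m) ℚ)
    (E : ι → (Fin m →₀ ℕ)) (hf : ∀ i J, (f i).coeff J ≠ 0 → toLex J ≤ toLex (E i)) :
    (∏ i ∈ s, f i).coeff (∑ i ∈ s, E i) = ∏ i ∈ s, (f i).coeff (E i) ∧
      ∀ J, (∏ i ∈ s, f i).coeff J ≠ 0 → toLex J ≤ toLex (∑ i ∈ s, E i) := by
  classical
  induction s using Finset.induction_on with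
  | empty =>
    refine ⟨by simp, fun J hJ => ?_⟩
    simp only [Finset.prod_empty, Finset.sum_empty] at hJ ⊢
    rw [coeff_one] at hJ
    have : 0 = J := by
      by_contra hne
      rw [if_neg hne] at hJ
      exact hJ rfl
    rw [this]
  | insert a s ha ih =>
    rw [Finset.prod_insert ha, Finset.sum_insert ha, Finset.prod_insert ha]
    refine ⟨?_, a6c_mul_le _ _ _ _ (hf a) ih.2⟩
    rw [a6c_mul _ _ _ _ (hf a) ih.2, ih.1]

/-- [HK-A6c] the highest coefficient of a determinant, for a monomial order. Here `toLex` is the lexicographic order of exponent vectors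
(a linear order, compatible with addition: `Finsupp.Lex`, or `MonomialOrder.lex`).
PROOF. Leibniz formula; for each permutation `π` all monomials of `M (π l) l` are `≤ E l`, so the coefficient of `∏_l M (π l) l` at `∑ E l` is the product
of the coefficients at `E l` (induction; `MonomialOrder.coeff_mul_of_add_of_degree_le` or directly: if `∑ J_l = ∑ E_l` and `J_l ≤ E_l` for all `l` then
`J = E`). -/
theorem coeff_det_top {m h : ℕ} (M : Matrix (Fin h) (Fin h) (MvPolynomial (Fin m) ℚ))
    (E : Fin h → (Fin m →₀ ℕ)) (hM : ∀ i l J, (M i l).coeff J ≠ 0 → toLex J ≤ toLex (E l)) :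
    M.det.coeff (∑ l, E l) = (Matrix.of fun i l => (M i l).coeff (E l)).det := by
  rw [Matrix.det_apply, Matrix.det_apply, coeff_sum]
  refine Finset.sum_congr rfl fun σ _ => ?_
  have h1 := (a6c_prod Finset.univ (fun i => M (σ i) i) E (fun i J => hM (σ i) i J)).1
  have h2 : ∏ i, (Matrix.of fun i l => (M i l).coeff (E l)) (σ i) i =
      (∏ i, M (σ i) i).coeff (∑ i, E i) := h1.symm
  rw [h2, Units.smul_def, Units.smul_def]
  rcases Int.units_eq_one_or (Equiv.Perm.sign σ) with h | h
  · rw [h]; simp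
  · rw [h]; simp

theorem a6c_coeff {m : ℕ} (I J : Fin m →₀ ℕ) (P : MvPolynomial (Fin m) ℚ) :
    (monomial I (1 : ℚ) * hd I P).coeff J =
      P.coeff J * ((∏ k, (J k).choose (I k) : ℕ) : ℚ) := by
  classical
  rw [coeff_monomial_mul']
  split_ifs with h
  · rw [one_mul, coeff_hd, tsub_add_cancel_of_le h]
    have h2 : ∀ k, (J - I : Fin m →₀ ℕ) k + I k = J k := by
      intro k
      rw [Finsupp.tsub_apply]
      exact Nat.sub_add_cancel (h k)
    simp only [h2]
  · have h1 : ∃ k, J k < I k := by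
      by_contra hcon
      push Not at hcon
      exact h hcon
    obtain ⟨k, hk⟩ := h1
    rw [Finset.prod_eq_zero (Finset.mem_univ k) (Nat.choose_eq_zero_of_lt hk)]
    simp

/-- [HK-A6c] generalised Wronskians of linearly independent polynomials.
PROOF. `echelon` for `V = MvPolynomial (Fin m) ℚ`, `α = Lex (Fin m →₀ ℕ)` and the coefficient functionals: `g_l = ∑ A_{l l'} f_{l'}` with pairwise
different leading exponents `E_l`. `binom_det` gives `I`. Multiply row `i` of `(hd (I i) (g l))` by `monomial (I i) 1`: the entry becomes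
`M i l` with `(M i l).coeff J = (g l).coeff J * ∏_k binom (J_k) (I_k)` (`coeff_hd`), so `coeff_det_top` gives the coefficient
`(∏_l (g l).coeff (E l)) * det (∏_k binom (E_l k) (I_i k)) ≠ 0`. Hence `det (hd (I i) (g l)) ≠ 0`, and this is
`det (hd (I i) (f l)) * det Aᵀ` (`hd_sum`, `hd_smul`). -/
theorem gw {m h : ℕ} (f : Fin (h + 1) → MvPolynomial (Fin m) ℚ) (hf : LinearIndependent ℚ f) :
    ∃ I : Fin (h + 1) → (Fin m →₀ ℕ), (∀ i, ∑ k, I i k ≤ h) ∧
      (Matrix.of fun i l => hd (I i) (f l)).det ≠ 0 := by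
  classical
  obtain ⟨A, E, hE, hAE⟩ := echelon (V := MvPolynomial (Fin m) ℚ) (α := Lex (Fin m →₀ ℕ))
    (fun a => lcoeff ℚ (ofLex a))
    (by
      intro v
      refine ((v.support.finite_toSet).image toLex).subset ?_
      intro a ha
      exact ⟨ofLex a, by
        rw [Finset.mem_coe, mem_support_iff]
        exact ha, rfl⟩)
    (by
      intro v hv
      ext J
      exact hv (toLex J))
    f hf
  set g : Fin (h + 1) → MvPolynomial (Fin m) ℚ := fun l => ∑ l', A l l' • f l' with hg
  set E' : Fin (h + 1) → (Fin m →₀ ℕ) := fun l => ofLex (E l) with hE'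
  have hE'i : Function.Injective E' := fun a b hab => hE (ofLex.injective hab)
  have hg0 : ∀ l, (g l).coeff (E' l) ≠ 0 := fun l => (hAE l).1
  have hg1 : ∀ l J, (g l).coeff J ≠ 0 → toLex J ≤ toLex (E' l) := by
    intro l J hJ
    by_contra hlt
    rw [not_le] at hlt
    exact hJ ((hAE l).2 (toLex J) hlt)
  obtain ⟨I, hI, hdet⟩ := binom_det E' hE'i
  refine ⟨I, hI, fun h0 => ?_⟩
  have hG : (Matrix.of fun i l => hd (I i) (g l)).det = 0 := by
    have e : (Matrix.of fun i l => hd (I i) (g l)) =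
        (Matrix.of fun i l => hd (I i) (f l)) *
          (A.map (C : ℚ →+* MvPolynomial (Fin m) ℚ)).transpose := by
      ext1 i l
      rw [Matrix.mul_apply, Matrix.of_apply, hg, hd_sum]
      refine Finset.sum_congr rfl fun l' _ => ?_
      rw [hd_smul, Matrix.of_apply, Matrix.transpose_apply, Matrix.map_apply, smul_eq_C_mul, mul_comm]
    rw [e, Matrix.det_mul, h0, zero_mul]
  set M : Matrix (Fin (h + 1)) (Fin (h + 1)) (MvPolynomial (Fin m) ℚ) :=
    Matrix.of fun i l => monomial (I i) (1 : ℚ) * (Matrix.of fun i l => hd (I i) (g l)) i l with hM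
  have hMdet : M.det = 0 := by
    rw [hM, Matrix.det_mul_column, hG, mul_zero]
  have hMc : ∀ i l J, (M i l).coeff J =
      (g l).coeff J * ((∏ k, (J k).choose (I i k) : ℕ) : ℚ) := by
    intro i l J
    rw [hM, Matrix.of_apply, Matrix.of_apply, a6c_coeff]
  have h2 := coeff_det_top M E' (by
    intro i l J hJ
    rw [hMc] at hJ
    exact hg1 l J (left_ne_zero_of_mul hJ))
  rw [hMdet, coeff_zero] at h2
  have h3 : (Matrix.of fun i l => (M i l).coeff (E' l)) = Matrix.of fun i l =>
      (g l).coeff (E' l) *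
        (Matrix.of fun i l => ((∏ k, (E' l k).choose (I i k) : ℕ) : ℚ)) i l := by
    ext1 i l
    rw [Matrix.of_apply, Matrix.of_apply, Matrix.of_apply, hMc]
  rw [h3, Matrix.det_mul_row] at h2
  exact mul_ne_zero (Finset.prod_ne_zero_iff.2 fun l _ => hg0 l) hdet h2.symm

end HK
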