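import Pool.Agent.HK.A6a

set_option autoImplicit false

namespace HK

open Polynomial in
private theorem a6d_coeff_prod {ι : Type} (s : Finset ι) (p : ι → Polynomial ℚ) (E : ι → ℕ)
    (h : ∀ l ∈ s, (p l).natDegree ≤ E l) :
    (∏ l ∈ s, p l).natDegree ≤ ∑ l ∈ s, E l ∧
      (∏ l ∈ s, p l).coeff (∑ l ∈ s, E l) = ∏ l ∈ s, (p l).coeff (E l) := by
  classical
  induction s using Finset.induction_on with
  | empty => simp
  | insert a s ha ih =>
    have h1 := ih fun l hl => h l (Finset.mem_insert_of_mem hl)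
    have h2 := h a (Finset.mem_insert_self a s)
    rw [Finset.prod_insert ha, Finset.sum_insert ha, Finset.prod_insert ha]
    refine ⟨?_, ?_⟩
    · exact (Polynomial.natDegree_mul_le).trans (add_le_add h2 h1.1)
    · rw [Polynomial.coeff_mul_add_eq_of_natDegree_le h2 h1.1, h1.2]

private theorem a6d_coeff_det {h : ℕ} (M : Matrix (Fin h) (Fin h) (Polynomial ℚ))
    (E : Fin h → ℕ) (hM : ∀ i l, (M i l).natDegree ≤ E l) :
    M.det.coeff (∑ l, E l) = (Matrix.of fun i l => (M i l).coeff (E l)).det := by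
  rw [Matrix.det_apply', Matrix.det_apply', Polynomial.finsetSum_coeff]
  refine Finset.sum_congr rfl fun σ _ => ?_
  have h1 := (a6d_coeff_prod Finset.univ (fun l => M (σ l) l) E fun l _ => hM _ l).2
  have h2 : (((Equiv.Perm.sign σ : ℤ) : Polynomial ℚ)) =
      Polynomial.C ((Equiv.Perm.sign σ : ℤ) : ℚ) := by simp
  rw [h2, Polynomial.coeff_C_mul, h1]
  rfl

private theorem a6d_binom {h : ℕ} (E : Fin h → ℕ) (hE : Function.Injective E) :
    (Matrix.of fun (i l : Fin h) => (((E l).choose (i : ℕ) : ℕ) : ℚ)).det ≠ 0 := by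
  have h1 := Matrix.det_eval_matrixOfPolynomials_eq_det_vandermonde (fun l => (E l : ℚ))
    (fun j : Fin h => descPochhammer ℚ (j : ℕ)) (fun j => descPochhammer_natDegree ℚ _)
    (fun j => monic_descPochhammer ℚ _)
  have h2 : (Matrix.of fun (i j : Fin h) => ((descPochhammer ℚ (j : ℕ)).eval (E i : ℚ))) =
      ((Matrix.diagonal fun j : Fin h => (((j : ℕ).factorial : ℕ) : ℚ)) *
        Matrix.of fun (i l : Fin h) => (((E l).choose (i : ℕ) : ℕ) : ℚ)).transpose := by
    ext i j
    rw [Matrix.transpose_apply, Matrix.diagonal_mul]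
    simp only [Matrix.of_apply]
    rw [descPochhammer_eval_eq_descFactorial, Nat.descFactorial_eq_factorial_mul_choose]
    push_cast
    ring
  rw [h2, Matrix.det_transpose, Matrix.det_mul] at h1
  intro h0
  rw [h0, mul_zero] at h1
  exact (Matrix.det_vandermonde_ne_zero_iff.mpr fun a b hab => hE (by exact_mod_cast hab)) h1

/-- [HK-A6d] Wronskian in one variable. -/
theorem gw1 {h : ℕ} (f : Fin (h + 1) → Polynomial ℚ) (hf : LinearIndependent ℚ f) :
    ∃ J : Fin (h + 1) → ℕ, (∀ i, J i ≤ h) ∧ Function.Injective J ∧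
      (Matrix.of fun i l => Polynomial.hasseDeriv (J i) (f l)).det ≠ 0 := by
  classical
  refine ⟨fun i => i, fun i => Nat.lt_succ_iff.mp i.2, Fin.val_injective, ?_⟩
  obtain ⟨A, E, hE, hA⟩ := echelon (V := Polynomial ℚ) (α := ℕ) (fun a => Polynomial.lcoeff ℚ a)
    (fun v => by
      refine (v.support.finite_toSet).subset fun a ha => ?_
      simpa using ha)
    (fun v hv => by
      ext a
      simpa using hv a) f hf
  set g : Fin (h + 1) → Polynomial ℚ := fun l => ∑ l', A l l' • f l' with hg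
  have hg1 : ∀ l, (g l).coeff (E l) ≠ 0 := fun l => (hA l).1
  have hg2 : ∀ l a, E l < a → (g l).coeff a = 0 := fun l a ha => (hA l).2 a ha
  intro hdet
  -- the determinant for `g`
  have hW : (Matrix.of fun (i l : Fin (h + 1)) => Polynomial.hasseDeriv (i : ℕ) (g l)) =
      (Matrix.of fun (i l : Fin (h + 1)) => Polynomial.hasseDeriv (i : ℕ) (f l)) *
        (A.map Polynomial.C).transpose := by
    ext1 i l
    rw [Matrix.mul_apply]
    simp only [Matrix.of_apply, Matrix.transpose_apply, Matrix.map_apply]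
    rw [hg, map_sum]
    refine Finset.sum_congr rfl fun l' _ => ?_
    rw [map_smul, Polynomial.smul_eq_C_mul, mul_comm]
  have hWg : (Matrix.of fun (i l : Fin (h + 1)) => Polynomial.hasseDeriv (i : ℕ) (g l)).det = 0 := by
    rw [hW, Matrix.det_mul, hdet, zero_mul]
  have hX : ((Matrix.diagonal fun i : Fin (h + 1) => (Polynomial.X : Polynomial ℚ) ^ (i : ℕ)) *
      (Matrix.of fun (i l : Fin (h + 1)) => Polynomial.hasseDeriv (i : ℕ) (g l))).det = 0 := by
    rw [Matrix.det_mul, hWg, mul_zero]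
  have hentry : ∀ (i l : Fin (h + 1)) (n : ℕ),
      (((Matrix.diagonal fun i : Fin (h + 1) => (Polynomial.X : Polynomial ℚ) ^ (i : ℕ)) *
      (Matrix.of fun (i l : Fin (h + 1)) => Polynomial.hasseDeriv (i : ℕ) (g l))) i l).coeff n =
        ((n.choose (i : ℕ) : ℕ) : ℚ) * (g l).coeff n := by
    intro i l n
    rw [Matrix.diagonal_mul, Matrix.of_apply, Polynomial.coeff_X_pow_mul']
    split_ifs with hin
    · rw [Polynomial.hasseDeriv_coeff, Nat.sub_add_cancel hin]
    · rw [Nat.choose_eq_zero_of_lt (not_le.mp hin)]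
      simp
  have hdeg : ∀ i l : Fin (h + 1),
      (((Matrix.diagonal fun i : Fin (h + 1) => (Polynomial.X : Polynomial ℚ) ^ (i : ℕ)) *
      (Matrix.of fun (i l : Fin (h + 1)) => Polynomial.hasseDeriv (i : ℕ) (g l))) i l).natDegree
        ≤ E l := by
    intro i l
    rw [Polynomial.natDegree_le_iff_coeff_eq_zero]
    intro n hn
    rw [hentry, hg2 l n hn, mul_zero]
  have hc := a6d_coeff_det _ E hdeg
  rw [hX, Polynomial.coeff_zero] at hc
  have h3 : (Matrix.of fun (i l : Fin (h + 1)) =>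
      (((Matrix.diagonal fun i : Fin (h + 1) => (Polynomial.X : Polynomial ℚ) ^ (i : ℕ)) *
      (Matrix.of fun (i l : Fin (h + 1)) => Polynomial.hasseDeriv (i : ℕ) (g l))) i l).coeff
        (E l)) = (Matrix.of fun (i l : Fin (h + 1)) => (((E l).choose (i : ℕ) : ℕ) : ℚ)) *
          Matrix.diagonal fun l => (g l).coeff (E l) := by
    ext i l
    rw [Matrix.mul_diagonal, Matrix.of_apply, Matrix.of_apply, hentry]
  rw [h3, Matrix.det_mul, Matrix.det_diagonal] at hc
  exact (mul_ne_zero (a6d_binom E hE) (Finset.prod_ne_zero_iff.mpr fun l _ => hg1 l)) hc.symm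

end HK
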