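import Pool.Agent.HK.A2b

set_option autoImplicit false

open MvPolynomial

namespace HK

theorem a7_basis {V : Type} [AddCommGroup V] [Module ℚ V] {e : ℕ} (v : Fin (e + 1) → V)
    (hv : ∃ i, v i ≠ 0) :
    ∃ (h : ℕ) (c : Fin (h + 1) → Fin (e + 1)) (q : Fin (e + 1) → Fin (h + 1) → ℚ), h ≤ e ∧
      LinearIndependent ℚ (fun l => v (c l)) ∧ (∀ i, v i = ∑ l, q i l • v (c l)) ∧
      ∀ l l', q (c l) l' = if l = l' then 1 else 0 := by
  obtain ⟨κ, a, ha, hspan, hli⟩ := exists_linearIndependent' ℚ v
  have hfin : Finite κ := Finite.of_injective a ha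
  have hft : Fintype κ := Fintype.ofFinite κ
  have hcard : Fintype.card κ ≤ e + 1 := by
    have := Fintype.card_le_of_injective a ha
    simpa using this
  have hne : Fintype.card κ ≠ 0 := by
    intro h0
    have hemp : IsEmpty κ := Fintype.card_eq_zero_iff.mp h0
    obtain ⟨i, hi⟩ := hv
    apply hi
    have h1 : v i ∈ Submodule.span ℚ (Set.range v) := Submodule.subset_span ⟨i, rfl⟩
    rw [← hspan, Set.range_eq_empty, Submodule.span_empty, Submodule.mem_bot] at h1
    exact h1
  obtain ⟨h, hh⟩ := Nat.exists_eq_succ_of_ne_zero hne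
  have e1 : Fin (h + 1) ≃ κ := (Fintype.equivFinOfCardEq hh).symm
  have hspan2 : ∀ i, ∃ q : Fin (h + 1) → ℚ, ∑ l, q l • v (a (e1 l)) = v i := by
    intro i
    have h1 : v i ∈ Submodule.span ℚ (Set.range v) := Submodule.subset_span ⟨i, rfl⟩
    rw [← hspan] at h1
    have h2 : Set.range (v ∘ a) = Set.range (fun l => v (a (e1 l))) := by
      ext x
      constructor
      · rintro ⟨k, rfl⟩
        exact ⟨e1.symm k, by simp⟩
      · rintro ⟨l, rfl⟩
        exact ⟨e1 l, rfl⟩
    rw [h2] at h1
    exact (Submodule.mem_span_range_iff_exists_fun ℚ).mp h1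
  choose q hq using hspan2
  have hli2 : LinearIndependent ℚ (fun l => v (a (e1 l))) := hli.comp e1 e1.injective
  refine ⟨h, fun l => a (e1 l), q, by omega, hli2, fun i => (hq i).symm, ?_⟩
  intro l l'
  have h1 : ∑ k, (q (a (e1 l)) k - if l = k then 1 else 0) • v (a (e1 k)) = 0 := by
    simp only [sub_smul, Finset.sum_sub_distrib, hq, ite_smul, one_smul, zero_smul,
      Finset.sum_ite_eq, Finset.mem_univ, if_true, sub_self]
  have h2 := (Fintype.linearIndependent_iff.mp hli2) _ h1 l'
  linarith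

/-- [HK-A7] decomposition into a minimal number of products.
PROOF. Let `v_c = toQ (slice c P)`, `c = 0, ..., e` (`v_c = 0` for `c > e`), not all zero. Choose a maximal linearly independent subfamily, indexed by
`s ⊆ {0, ..., e}`, `s` has `h + 1` elements `c_0, ..., c_h`, `0 ≤ h ≤ e`; `v_c = ∑_{l} q_{c,l} v_{c_l}` for all `c ≤ e`, with `q_{c_l', l} = δ`. Put
`ψ_l = ∑_{c ≤ e} q_{c,l} X^c`. The coefficient of `ψ_l` at `c_{l'}` is `δ_{l l'}`, so the `ψ_l` are linearly independent. The identity holds by comparing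
coefficients (`ext_cons`, `coeff_up_uy`, `coeff_slice`). -/
theorem decomp {m e : ℕ} (P : MvPolynomial (Fin (m + 1)) ℤ) (hP : P ≠ 0)
    (he : P.degreeOf 0 ≤ e) :
    ∃ (h : ℕ) (c : Fin (h + 1) → ℕ) (ψ : Fin (h + 1) → Polynomial ℚ), h ≤ e ∧
      LinearIndependent ℚ (fun l => toQ (slice (c l) P)) ∧ LinearIndependent ℚ ψ ∧
      toQ P = ∑ l, up (toQ (slice (c l) P)) * uy (ψ l) := by
  have hbig : ∀ c K, e < c → P.coeff (Finsupp.cons c K) = 0 := by
    intro c K hc
    by_contra hne
    have h1 := monomial_le_degreeOf 0 (MvPolynomial.mem_support_iff.mpr hne)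
    rw [Finsupp.cons_zero] at h1
    omega
  have hv : ∃ i : Fin (e + 1), toQ (slice (i : ℕ) P) ≠ 0 := by
    by_contra hno
    push Not at hno
    apply hP
    apply ext_cons
    intro c K
    rw [coeff_zero]
    rcases le_or_gt c e with hc | hc
    · have h1 := hno ⟨c, by omega⟩
      have h2 := congrArg (fun Q => Q.coeff K) h1
      simp only [MvPolynomial.coeff_map, coeff_zero] at h2
      rw [coeff_slice] at h2
      have h3 : ((P.coeff (Finsupp.cons c K) : ℤ) : ℚ) = 0 := h2
      exact_mod_cast h3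
    · exact hbig c K hc
  obtain ⟨h, c, q, hh, hli, hq, hδ⟩ := a7_basis (fun i : Fin (e + 1) => toQ (slice (i : ℕ) P)) hv
  set ψ : Fin (h + 1) → Polynomial ℚ := fun l => ∑ i : Fin (e + 1),
    Polynomial.monomial (i : ℕ) (q i l) with hψ
  have hψc : ∀ l (i : Fin (e + 1)), (ψ l).coeff (i : ℕ) = q i l := by
    intro l i
    rw [hψ]
    simp only [Polynomial.finsetSum_coeff, Polynomial.coeff_monomial]
    rw [Finset.sum_eq_single i]
    · simp
    · intro b _ hb
      rw [if_neg]
      intro h1
      exact hb (Fin.ext h1)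
    · intro h1
      exact absurd (Finset.mem_univ _) h1
  have hψ0 : ∀ l n, e < n → (ψ l).coeff n = 0 := by
    intro l n hn
    rw [hψ]
    simp only [Polynomial.finsetSum_coeff, Polynomial.coeff_monomial]
    apply Finset.sum_eq_zero
    intro b _
    rw [if_neg]
    have := b.2
    omega
  refine ⟨h, fun l => (c l : ℕ), ψ, hh, hli, ?_, ?_⟩
  · rw [Fintype.linearIndependent_iff]
    intro g hg l
    have h1 := congrArg (fun Q => Polynomial.coeff Q (c l : ℕ)) hg
    simp only [Polynomial.finsetSum_coeff, Polynomial.coeff_smul, hψc, smul_eq_mul,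
      Polynomial.coeff_zero, hδ, mul_ite, mul_one, mul_zero, Finset.sum_ite_eq, Finset.mem_univ,
      if_true] at h1
    exact h1
  · apply ext_cons
    intro n K
    rw [MvPolynomial.coeff_sum]
    simp only [coeff_up_uy]
    rw [MvPolynomial.coeff_map]
    rcases le_or_gt n e with hn | hn
    · have h1 := hq ⟨n, by omega⟩
      have h2 := congrArg (fun Q => Q.coeff K) h1
      simp only [MvPolynomial.coeff_map, MvPolynomial.coeff_sum, MvPolynomial.coeff_smul,
        smul_eq_mul] at h2
      rw [coeff_slice] at h2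
      rw [h2]
      refine Finset.sum_congr rfl fun l _ => ?_
      rw [← hψc l ⟨n, by omega⟩, MvPolynomial.coeff_map, mul_comm]
    · rw [hbig n K hn, map_zero]
      symm
      apply Finset.sum_eq_zero
      intro l _
      rw [hψ0 l n hn, mul_zero]

end HK
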