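import Pool.Agent.HK.A2b

set_option autoImplicit false

open MvPolynomial

namespace HK

/-- [HK-A8] factorisation of the Wronskian.
PROOF. `toQ (hd .. P) = hd .. (toQ P) = ∑_l up (hd (I i) (toQ (F l))) * uy (hasseDeriv (J j) (ψ l))` (`map_hd`, `hd_sum`, `hd_up_uy`), so the matrix is a
product of two matrices (the second transposed), `Matrix.det_mul`, `Matrix.det_transpose`, `RingHom.map_det`. -/
theorem wronskian_factor {m h : ℕ} (P : MvPolynomial (Fin (m + 1)) ℤ)
    (F : Fin (h + 1) → MvPolynomial (Fin m) ℤ) (ψ : Fin (h + 1) → Polynomial ℚ)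
    (hP : toQ P = ∑ l, up (toQ (F l)) * uy (ψ l)) (I : Fin (h + 1) → (Fin m →₀ ℕ))
    (J : Fin (h + 1) → ℕ) :
    toQ (Matrix.of fun i j => hd (Finsupp.cons (J j) (I i)) P).det =
      up (toQ (Matrix.of fun i l => hd (I i) (F l)).det) *
        uy (Matrix.of fun j l => Polynomial.hasseDeriv (J j) (ψ l)).det := by
  have e1 : toQ (Matrix.of fun i j => hd (Finsupp.cons (J j) (I i)) P).det =
      ((Matrix.of fun i l => up (toQ (hd (I i) (F l)))) *
        (Matrix.of fun j l => uy (m := m) (Polynomial.hasseDeriv (J j) (ψ l))).transpose).det := by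
    rw [RingHom.map_det]
    congr 1
    ext1 i j
    rw [Matrix.mul_apply]
    simp only [RingHom.mapMatrix_apply, Matrix.map_apply, Matrix.of_apply, Matrix.transpose_apply]
    rw [map_hd, hP, hd_sum]
    refine Finset.sum_congr rfl fun l _ => ?_
    rw [hd_up_uy, map_hd]
  rw [e1, Matrix.det_mul, Matrix.det_transpose]
  congr 1
  · rw [RingHom.map_det, AlgHom.map_det]
    rfl
  · rw [AlgHom.map_det]
    rfl

end HK
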