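import Mathlib

set_option autoImplicit false

namespace HK

/-- [HK-A9] PROOF. `J` is a bijection onto `{0, ..., h}`, so the sum is `∑_{j=0}^h max 0 (x - j/e)`. The `j ≤ h` with `j ≤ e x / 2` contribute at least `x/2`
each, and there are at least `(h+1) x/4` of them: if `h ≤ e x/2` all `h + 1 ≥ (h+1) x / 4`; otherwise `⌊e x/2⌋ + 1 ≥ e x / 2 ≥ (e+1) x/4 ≥ (h+1) x/4`. -/
theorem sum_max {e h : ℕ} (he : 0 < e) (hh : h ≤ e) {x : ℝ} (hx : 0 < x) (hx1 : x ≤ 1)
    (J : Fin (h + 1) → ℕ) (hJ : ∀ i, J i ≤ h) (hJi : Function.Injective J) :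
    ((h : ℝ) + 1) * x ^ 2 / 8 ≤ ∑ i, max 0 (x - (J i : ℝ) / e) := by
  classical
  have he1 : (1 : ℝ) ≤ e := by exact_mod_cast he
  have he0 : (0 : ℝ) < e := by linarith
  have hhe : (h : ℝ) ≤ e := by exact_mod_cast hh
  have himg : Finset.univ.image J = Finset.range (h + 1) := by
    refine Finset.eq_of_subset_of_card_le ?_ ?_
    · intro j hj
      rw [Finset.mem_image] at hj
      obtain ⟨i, -, rfl⟩ := hj
      exact Finset.mem_range.2 (Nat.lt_succ_of_le (hJ i))
    · rw [Finset.card_image_of_injective _ hJi]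
      simp
  have hsum : ∑ i, max 0 (x - (J i : ℝ) / e) =
      ∑ j ∈ Finset.range (h + 1), max 0 (x - (j : ℝ) / e) := by
    rw [← himg, Finset.sum_image (fun a _ b _ hab => hJi hab)]
  rw [hsum]
  set q : ℕ := min h ⌊(e : ℝ) * x / 2⌋₊ with hq
  have hqh : q ≤ h := min_le_left _ _
  have hsub : Finset.range (q + 1) ⊆ Finset.range (h + 1) :=
    Finset.range_subset_range.2 (by omega)
  have h1 : ∑ j ∈ Finset.range (q + 1), x / 2 ≤
      ∑ j ∈ Finset.range (h + 1), max 0 (x - (j : ℝ) / e) := by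
    refine (Finset.sum_le_sum ?_).trans
      (Finset.sum_le_sum_of_subset_of_nonneg hsub (fun j _ _ => le_max_left _ _))
    intro j hj
    rw [Finset.mem_range] at hj
    refine le_trans ?_ (le_max_right _ _)
    have h2 : (j : ℝ) ≤ e * x / 2 := by
      have h3 : j ≤ ⌊(e : ℝ) * x / 2⌋₊ := by
        have := min_le_right h ⌊(e : ℝ) * x / 2⌋₊
        omega
      exact (Nat.le_floor_iff (by positivity)).1 h3
    have h4 : (j : ℝ) / e ≤ x / 2 := by
      rw [div_le_iff₀ he0]; linarith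
    linarith
  refine le_trans ?_ h1
  rw [Finset.sum_const, Finset.card_range, nsmul_eq_mul]
  have h5 : ((h : ℝ) + 1) * x / 4 ≤ ((q + 1 : ℕ) : ℝ) := by
    rcases min_cases h ⌊(e : ℝ) * x / 2⌋₊ with ⟨h6, -⟩ | ⟨h6, -⟩
    · rw [hq, h6]
      push_cast
      have : 0 ≤ (h : ℝ) := Nat.cast_nonneg h
      nlinarith
    · rw [hq, h6]
      push_cast
      have h7 := Nat.lt_floor_add_one ((e : ℝ) * x / 2)
      have : 0 ≤ (h : ℝ) := Nat.cast_nonneg h
      nlinarith
  nlinarith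

end HK
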