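import Pool.Agent.HK.A3
import Pool.Agent.HK.A5
import Pool.Agent.HK.A6c
import Pool.Agent.HK.A6d
import Pool.Agent.HK.A7
import Pool.Agent.HK.A8
import Pool.Agent.HK.A9

set_option autoImplicit false

open MvPolynomial

namespace HK

/-- Roth's lemma in `m` variables for integral points: a polynomial with small coefficients has small index. The variable `x_0` has the smallest
degree and the largest `n`. -/
def RL (m : ℕ) : Prop := ∀ σ : ℝ, 0 < σ → ∃ τ : ℝ, 0 < τ ∧
  ∀ (d n : Fin m → ℕ) (B : ℝ) (P : MvPolynomial (Fin m) ℤ), 0 < B → (∀ k, 0 < d k) →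
    (∀ k l, k < l → (d k : ℝ) ≤ τ * d l) → (∀ k, (d k : ℝ) ≤ τ * B) → (∀ k, 2 ≤ n k) →
    (∀ k, B ≤ d k * Real.log (n k)) → P ≠ 0 → (∀ k, P.degreeOf k ≤ d k) →
    Real.log (L1 P) ≤ τ * B →
    ∃ I : Fin m →₀ ℕ, (sh (fun k => (n k : ℤ)) P).coeff I ≠ 0 ∧ ∑ k, (d k : ℝ)⁻¹ * (I k : ℝ) < σ

theorem RL_zero : RL 0 := by
  intro σ hσ
  refine ⟨1, one_pos, fun d n B P hB _ _ _ _ _ hP _ _ => ⟨0, ?_, ?_⟩⟩
  · have h1 : P = C (P.coeff 0) := eq_C_of_isEmpty P
    have h2 : P.coeff 0 ≠ 0 := by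
      intro h
      rw [h, C_0] at h1
      exact hP h1
    rw [h1]
    have h3 : sh (fun k => (n k : ℤ)) (C (P.coeff 0)) = C (P.coeff 0) := by
      rw [sh]
      exact aeval_C _ _
    rw [h3, coeff_zero_C]
    exact h2
  · simpa using hσ

theorem a10_log_L1 {m h : ℕ} (d : Fin (m + 1) → ℕ) (P : MvPolynomial (Fin (m + 1)) ℤ) (hP : P ≠ 0)
    (hdeg : ∀ k, P.degreeOf k ≤ d k) (M : Fin (h + 1) → Fin (h + 1) → (Fin (m + 1) →₀ ℕ))
    (hW : (Matrix.of fun i j => hd (M i j) P).det ≠ 0) {X : ℝ} (hh : (h : ℝ) ≤ X)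
    (hdX : ∀ k, (d k : ℝ) ≤ X) (hL : Real.log (L1 P) ≤ X) :
    Real.log (L1 (Matrix.of fun i j => hd (M i j) P).det) ≤ ((h : ℝ) + 1) * (((m : ℝ) + 3) * X) := by
  have h1 : ∀ i j, L1 ((Matrix.of fun i j => hd (M i j) P) i j) ≤ 2 ^ (∑ k, d k) * L1 P :=
    fun i j => L1_hd _ P d hdeg
  have hP1 := one_le_L1 hP
  have hΛ : (0 : ℝ) < 2 ^ (∑ k, d k) * L1 P := by positivity
  have h2 := L1_det _ hΛ.le h1
  have h3 := one_le_L1 hW
  have h4 := Real.log_le_log (by linarith) h2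
  have hf : (0 : ℝ) < ((h + 1).factorial : ℝ) := by exact_mod_cast Nat.factorial_pos _
  rw [Real.log_mul hf.ne' (by positivity), Real.log_pow, Real.log_mul (by positivity) (by positivity),
    Real.log_pow] at h4
  have h5 : Real.log ((h + 1).factorial : ℝ) ≤ ((h : ℝ) + 1) * h := by
    have h6 : ((h + 1).factorial : ℝ) ≤ ((h : ℝ) + 1) ^ (h + 1) := by
      exact_mod_cast Nat.factorial_le_pow (h + 1)
    have h7 := Real.log_le_log hf h6
    rw [Real.log_pow] at h7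
    have h8 : Real.log ((h : ℝ) + 1) ≤ h := by
      have := Real.log_le_sub_one_of_pos (show (0 : ℝ) < (h : ℝ) + 1 by positivity)
      linarith
    push_cast at h7
    calc _ ≤ _ := h7
      _ ≤ _ := by
        apply mul_le_mul_of_nonneg_left h8
        positivity
  have h9 : ((∑ k, d k : ℕ) : ℝ) * Real.log 2 ≤ ((m : ℝ) + 1) * X := by
    have h10 : ((∑ k, d k : ℕ) : ℝ) ≤ ((m : ℝ) + 1) * X := by
      push_cast
      calc ∑ k, (d k : ℝ) ≤ ∑ _k : Fin (m + 1), X := Finset.sum_le_sum fun k _ => hdX k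
        _ = _ := by simp
    have h11 : Real.log 2 ≤ 1 := by
      have := Real.log_two_lt_d9
      linarith
    calc ((∑ k, d k : ℕ) : ℝ) * Real.log 2 ≤ ((∑ k, d k : ℕ) : ℝ) * 1 := by
          apply mul_le_mul_of_nonneg_left h11
          positivity
      _ ≤ _ := by linarith
  have hh1 : (0 : ℝ) ≤ (h : ℝ) + 1 := by positivity
  calc Real.log (L1 (Matrix.of fun i j => hd (M i j) P).det) ≤ _ := h4
    _ ≤ ((h : ℝ) + 1) * h + ((h : ℝ) + 1) * (((m : ℝ) + 1) * X + X) := by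
        push_cast at h9 ⊢
        have := mul_le_mul_of_nonneg_left (add_le_add h9 hL) hh1
        linarith
    _ ≤ _ := by
        have := mul_le_mul_of_nonneg_left hh hh1
        linarith

/-- weights of the derivatives -/
theorem a10_weight {m h : ℕ} (d : Fin (m + 1) → ℕ) (hd0 : ∀ k, 0 < d k) {τ : ℝ} (hτ : 0 ≤ τ)
    (hdd : ∀ k l, k < l → (d k : ℝ) ≤ τ * d l) (hh : h ≤ d 0) (J : ℕ) (I : Fin m →₀ ℕ)
    (hI : ∑ k, I k ≤ h) :
    ∑ k, (d k : ℝ)⁻¹ * ((Finsupp.cons J I : Fin (m + 1) →₀ ℕ) k : ℝ) ≤ (J : ℝ) / d 0 + τ := by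
  rw [Fin.sum_univ_succ]
  have hd00 : (0 : ℝ) < d 0 := by exact_mod_cast hd0 0
  have h1 : ∀ k : Fin m, (d k.succ : ℝ)⁻¹ ≤ τ / d 0 := by
    intro k
    have h2 := hdd 0 k.succ (Fin.succ_pos k)
    have h3 : (0 : ℝ) < d k.succ := by exact_mod_cast hd0 _
    rw [le_div_iff₀ hd00, inv_mul_le_iff₀ h3]
    linarith
  have h2 : ∑ k : Fin m, (d k.succ : ℝ)⁻¹ * ((Finsupp.cons J I : Fin (m + 1) →₀ ℕ) k.succ : ℝ) ≤ τ := by
    calc ∑ k : Fin m, (d k.succ : ℝ)⁻¹ * ((Finsupp.cons J I : Fin (m + 1) →₀ ℕ) k.succ : ℝ)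
        ≤ ∑ k : Fin m, τ / d 0 * (I k : ℝ) := by
          apply Finset.sum_le_sum
          intro k _
          rw [Finsupp.cons_succ]
          exact mul_le_mul_of_nonneg_right (h1 k) (by positivity)
      _ = τ / d 0 * ((∑ k, I k : ℕ) : ℝ) := by
          push_cast
          rw [Finset.mul_sum]
      _ ≤ τ / d 0 * (d 0 : ℝ) := by
          apply mul_le_mul_of_nonneg_left _ (by positivity)
          exact_mod_cast hI.trans hh
      _ = τ := by field_simp
  rw [Finsupp.cons_zero]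
  have h3 : (d 0 : ℝ)⁻¹ * (J : ℝ) = (J : ℝ) / d 0 := by ring
  linarith

/-- [HK-A10] the induction step. -/
theorem RL_succ (m : ℕ) (h : RL m) : RL (m + 1) := by
  intro σ hσ
  have hσ₁ : 0 < min σ 1 := lt_min hσ one_pos
  obtain ⟨x, hx⟩ : ∃ x, x = min σ 1 / 2 := ⟨_, rfl⟩
  have hx0 : 0 < x := by rw [hx]; positivity
  have hx1 : x ≤ 1 := by
    have := min_le_right σ 1
    linarith
  have hxσ : 2 * x ≤ σ := by
    have := min_le_left σ 1
    linarith
  obtain ⟨σ', hσ'⟩ : ∃ σ', σ' = x ^ 2 / 16 := ⟨_, rfl⟩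
  have hσ'0 : 0 < σ' := by rw [hσ']; positivity
  obtain ⟨τm, hτm, hRL⟩ := h σ' hσ'0
  have hm3 : (0 : ℝ) < (m : ℝ) + 3 := by positivity
  obtain ⟨τ, hτ⟩ : ∃ τ, τ = min x (min τm σ' / ((m : ℝ) + 3)) := ⟨_, rfl⟩
  have hτ0 : 0 < τ := by
    rw [hτ]
    exact lt_min hx0 (div_pos (lt_min hτm hσ'0) hm3)
  have hτx : τ ≤ x := by rw [hτ]; exact min_le_left _ _
  have hτ3 : ((m : ℝ) + 3) * τ ≤ min τm σ' := by
    have h1 : τ ≤ min τm σ' / ((m : ℝ) + 3) := by rw [hτ]; exact min_le_right _ _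
    rw [le_div_iff₀ hm3] at h1
    linarith
  have hττm : τ ≤ τm := by
    have h1 := hτ3.trans (min_le_left _ _)
    nlinarith
  refine ⟨τ, hτ0, fun d n B P hB hd0 hdd hdB hn hBn hP hdeg hL => ?_⟩
  by_contra hcon
  have hord : OrdGe (fun k => (d k : ℝ)⁻¹) σ (sh (fun k => (n k : ℤ)) P) := by
    intro K hK
    by_contra hlt
    exact hcon ⟨K, hK, not_le.1 hlt⟩
  clear hcon
  have hd00 : (0 : ℝ) < d 0 := by exact_mod_cast hd0 0
  obtain ⟨e, c, ψ, hhe, hF, hψ, hdec⟩ := decomp (e := d 0) P hP (hdeg 0)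
  obtain ⟨I, hI, hU⟩ := gw _ hF
  obtain ⟨J, hJ, hJi, hV⟩ := gw1 ψ hψ
  have hfac := wronskian_factor P (fun l => slice (c l) P) ψ hdec I J
  obtain ⟨U, hUdef⟩ : ∃ U, U = (Matrix.of fun i l => hd (I i) (slice (c l) P)).det := ⟨_, rfl⟩
  obtain ⟨V, hVdef⟩ : ∃ V, V = (Matrix.of fun j l => Polynomial.hasseDeriv (J j) (ψ l)).det :=
    ⟨_, rfl⟩
  obtain ⟨W, hWdef⟩ : ∃ W, W = (Matrix.of fun i j => hd (Finsupp.cons (J j) (I i)) P).det :=
    ⟨_, rfl⟩
  rw [← hUdef, ← hVdef, ← hWdef] at hfac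
  rw [← hVdef] at hV
  have hUQ : toQ U ≠ 0 := by
    have h1 : toQ U = (Matrix.of fun i l => hd (I i) (toQ (slice (c l) P))).det := by
      rw [hUdef, RingHom.map_det]
      congr 1
      ext i l
      simp only [RingHom.mapMatrix_apply, Matrix.map_apply, Matrix.of_apply]
      rw [map_hd]
    rw [h1]
    exact hU
  have hcoef : ∀ (a : ℕ) (K : Fin m →₀ ℕ), ((W.coeff (Finsupp.cons a K) : ℤ) : ℚ) =
      ((U.coeff K : ℤ) : ℚ) * V.coeff a := by
    intro a K
    have h1 := congrArg (fun Q => Q.coeff (Finsupp.cons a K)) hfac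
    simp only [coeff_up_uy, coeff_map] at h1
    exact h1
  obtain ⟨K, hK⟩ : ∃ K, U.coeff K ≠ 0 := by
    by_contra hno
    push Not at hno
    apply hUQ
    ext K
    rw [coeff_map, hno K]
    simp
  obtain ⟨a, ha⟩ : ∃ a, V.coeff a ≠ 0 := by
    by_contra hno
    push Not at hno
    exact hV (Polynomial.ext fun a => by simpa using hno a)
  have hKQ : ((U.coeff K : ℤ) : ℚ) ≠ 0 := by exact_mod_cast hK
  have hW0 : W ≠ 0 := by
    intro h0
    have h1 := hcoef a K
    rw [h0] at h1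
    simp only [coeff_zero, Int.cast_zero] at h1
    exact mul_ne_zero hKQ ha h1.symm
  -- size of W
  have hτB : 0 < τ * B := by positivity
  have heB : (e : ℝ) ≤ τ * B := by
    have h1 : (e : ℝ) ≤ d 0 := by exact_mod_cast hhe
    exact h1.trans (hdB 0)
  have hLW : Real.log (L1 W) ≤ ((e : ℝ) + 1) * (((m : ℝ) + 3) * (τ * B)) := by
    rw [hWdef]
    exact a10_log_L1 d P hP hdeg _ (by rw [← hWdef]; exact hW0) heB hdB hL
  have hLWm : Real.log (L1 W) ≤ τm * (((e : ℝ) + 1) * B) := by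
    calc _ ≤ _ := hLW
      _ = (((m : ℝ) + 3) * τ) * (((e : ℝ) + 1) * B) := by ring
      _ ≤ τm * (((e : ℝ) + 1) * B) := by
        apply mul_le_mul_of_nonneg_right (hτ3.trans (min_le_left _ _))
        positivity
  have hLWσ : Real.log (L1 W) ≤ σ' * (((e : ℝ) + 1) * B) := by
    calc _ ≤ _ := hLW
      _ = (((m : ℝ) + 3) * τ) * (((e : ℝ) + 1) * B) := by ring
      _ ≤ σ' * (((e : ℝ) + 1) * B) := by
        apply mul_le_mul_of_nonneg_right (hτ3.trans (min_le_right _ _))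
        positivity
  -- lower bound for the index of W
  have hshW : sh (fun k => (n k : ℤ)) W = (Matrix.of fun i j =>
      hd (Finsupp.cons (J j) (I i)) (sh (fun k => (n k : ℤ)) P)).det := by
    rw [hWdef, AlgHom.map_det]
    congr 1
    ext i j : 2
    simp only [AlgHom.mapMatrix_apply, Matrix.map_apply, Matrix.of_apply]
    rw [hd_sh]
  have hordW : OrdGe (fun k => (d k : ℝ)⁻¹) (∑ j, max 0 (x - (J j : ℝ) / (d 0 : ℕ)))
      (sh (fun k => (n k : ℤ)) W) := by
    rw [hshW]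
    apply OrdGe.det
    intro i j
    apply OrdGe.max
    · apply OrdGe.of_nonneg
      intro k
      positivity
    · simp only [Matrix.of_apply]
      refine (hord.hd (Finsupp.cons (J j) (I i))).mono ?_
      have h1 := a10_weight d hd0 hτ0.le hdd hhe (J j) (I i) (hI i)
      linarith
  have hS := sum_max (hd0 0) hhe hx0 hx1 J hJ hJi
  have hordW' := hordW.mono hS
  -- the point of small weight
  obtain ⟨i, hi, hni⟩ := ov W K _ hKQ V hV (fun c => hcoef c K) (n 0) (hn 0)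
  have hn0 : (0 : ℝ) < Real.log (n 0) := Real.log_pos (by
    have := hn 0
    exact_mod_cast (by omega : 1 < n 0))
  have hi2 : (i : ℝ) / d 0 ≤ ((e : ℝ) + 1) * σ' := by
    have h1 : (0 : ℝ) < (n 0 : ℝ) ^ i := by
      have := hn 0
      have : (0 : ℝ) < n 0 := by exact_mod_cast (by omega : 0 < n 0)
      positivity
    have h2 := Real.log_le_log h1 hni
    rw [Real.log_pow] at h2
    rw [div_le_iff₀ hd00]
    have h3 : (i : ℝ) * Real.log (n 0) ≤ (((e : ℝ) + 1) * σ' * d 0) * Real.log (n 0) := by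
      calc (i : ℝ) * Real.log (n 0) ≤ _ := h2
        _ ≤ _ := hLWσ
        _ = (((e : ℝ) + 1) * σ') * B := by ring
        _ ≤ (((e : ℝ) + 1) * σ') * (d 0 * Real.log (n 0)) := by
          apply mul_le_mul_of_nonneg_left (hBn 0)
          positivity
        _ = _ := by ring
    exact le_of_mul_le_mul_right h3 hn0
  have hslice : ∀ L, (((slice a W).coeff L : ℤ) : ℚ) = V.coeff a * ((U.coeff L : ℤ) : ℚ) := by
    intro L
    rw [coeff_slice, hcoef, mul_comm]
  have hsl0 : slice a W ≠ 0 := by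
    intro h0
    have h1 := hslice K
    rw [h0] at h1
    simp only [coeff_zero, Int.cast_zero] at h1
    exact mul_ne_zero ha hKQ h1.symm
  have hsliceQ : toQ (slice a W) = V.coeff a • toQ U := by
    ext L
    rw [coeff_map, coeff_smul, coeff_map, smul_eq_mul]
    exact hslice L
  obtain ⟨L, hL1, hL2⟩ := hRL (fun k => (e + 1) * d k.succ) (fun k => n k.succ)
    (((e : ℝ) + 1) * B) (slice a W) (by positivity) (fun k => Nat.mul_pos (Nat.succ_pos _) (hd0 _))
    (by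
      intro k l hkl
      have h1 := hdd k.succ l.succ (Fin.succ_lt_succ_iff.2 hkl)
      have h2 : (0 : ℝ) ≤ d l.succ := by positivity
      have h3 : (0 : ℝ) ≤ (e : ℝ) + 1 := by positivity
      push_cast
      calc ((e : ℝ) + 1) * d k.succ ≤ ((e : ℝ) + 1) * (τ * d l.succ) :=
            mul_le_mul_of_nonneg_left h1 h3
        _ ≤ ((e : ℝ) + 1) * (τm * d l.succ) :=
            mul_le_mul_of_nonneg_left (mul_le_mul_of_nonneg_right hττm h2) h3
        _ = _ := by ring)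
    (by
      intro k
      have h1 := hdB k.succ
      have h3 : (0 : ℝ) ≤ (e : ℝ) + 1 := by positivity
      push_cast
      calc ((e : ℝ) + 1) * d k.succ ≤ ((e : ℝ) + 1) * (τ * B) := mul_le_mul_of_nonneg_left h1 h3
        _ ≤ ((e : ℝ) + 1) * (τm * B) :=
            mul_le_mul_of_nonneg_left (mul_le_mul_of_nonneg_right hττm hB.le) h3
        _ = _ := by ring)
    (fun k => hn _)
    (by
      intro k
      have h1 := hBn k.succ
      have h3 : (0 : ℝ) ≤ (e : ℝ) + 1 := by positivity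
      push_cast
      calc ((e : ℝ) + 1) * B ≤ ((e : ℝ) + 1) * (d k.succ * Real.log (n k.succ)) :=
            mul_le_mul_of_nonneg_left h1 h3
        _ = _ := by ring)
    hsl0
    (by
      intro k
      refine (degreeOf_slice a W k).trans ?_
      rw [hWdef]
      exact degreeOf_det _ _ fun i j => (degreeOf_hd_le _ _ _).trans (hdeg _))
    (by
      have h1 := Real.log_le_log (lt_of_lt_of_le one_pos (one_le_L1 hsl0)) (L1_slice a W)
      exact h1.trans hLWm)
  have hL3 : ∑ k : Fin m, (d k.succ : ℝ)⁻¹ * (L k : ℝ) < ((e : ℝ) + 1) * σ' := by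
    have h3 : (0 : ℝ) < (e : ℝ) + 1 := by positivity
    have h1 : ∑ k : Fin m, (((e + 1) * d k.succ : ℕ) : ℝ)⁻¹ * (L k : ℝ) =
        ((e : ℝ) + 1)⁻¹ * ∑ k : Fin m, (d k.succ : ℝ)⁻¹ * (L k : ℝ) := by
      rw [Finset.mul_sum]
      refine Finset.sum_congr rfl fun k _ => ?_
      push_cast
      rw [mul_inv, mul_assoc]
    rw [h1, inv_mul_lt_iff₀ h3] at hL2
    exact hL2
  -- the coefficient is not zero
  have hne : (sh (fun k => (n k : ℤ)) W).coeff (Finsupp.cons i L) ≠ 0 := by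
    have h1 : toQ (sh (fun k => (n k : ℤ)) W) =
        up (sh (fun k => ((n k.succ : ℕ) : ℚ)) (toQ U)) * uy (Polynomial.taylor ((n 0 : ℕ) : ℚ) V) := by
      rw [map_sh, hfac, sh_up_uy]
      simp
    have h2 : (sh (fun k => ((n k.succ : ℕ) : ℚ)) (toQ U)).coeff L ≠ 0 := by
      intro h0
      apply hL1
      have h3 : toQ (sh (fun k : Fin m => ((n k.succ : ℕ) : ℤ)) (slice a W)) =
          V.coeff a • sh (fun k => ((n k.succ : ℕ) : ℚ)) (toQ U) := by
        rw [map_sh, hsliceQ, map_smul]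
        simp
      have h4 := congrArg (fun Q => Q.coeff L) h3
      simp only [coeff_map, coeff_smul, h0, smul_zero] at h4
      simpa using h4
    intro h0
    have h3 := congrArg (fun Q => Q.coeff (Finsupp.cons i L)) h1
    simp only [coeff_map, coeff_up_uy, h0] at h3
    simp only [map_zero] at h3
    exact mul_ne_zero h2 hi h3.symm
  have hfin := hordW' _ hne
  rw [Fin.sum_univ_succ, Finsupp.cons_zero] at hfin
  simp only [Finsupp.cons_succ] at hfin
  have h1 : (d 0 : ℝ)⁻¹ * (i : ℝ) = (i : ℝ) / d 0 := by ring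
  rw [h1] at hfin
  have h2 : ((e : ℝ) + 1) * x ^ 2 / 8 = 2 * (((e : ℝ) + 1) * σ') := by
    rw [hσ']
    ring
  linarith

theorem roth_lemma (m : ℕ) : RL m := by
  induction m with
  | zero => exact RL_zero
  | succ m ih => exact RL_succ m ih

end HK
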