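import Pool.Agent.HK.Defs

set_option autoImplicit false

open MvPolynomial

namespace HK

variable {κ R S : Type} [Fintype κ] [CommRing R] [CommRing S]

/-- [HK-A2] coefficients of the Hasse derivative (if `I ≰ K` then some binomial coefficient `binom (K_k) (I_k)` is zero) -/
theorem coeff_hd (I J : κ →₀ ℕ) (P : MvPolynomial κ R) :
    (hd I P).coeff J = P.coeff (J + I) * ((∏ k, (J k + I k).choose (I k) : ℕ) : R) := by
  classical
  unfold hd
  rw [MvPolynomial.coeff_sum, Finset.sum_eq_single (J + I)]
  · rw [MvPolynomial.coeff_monomial, if_pos (add_tsub_cancel_right J I)]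
    simp only [Finsupp.add_apply]
  · intro K _ hne
    rw [MvPolynomial.coeff_monomial]
    split_ifs with h
    · have h1 : ¬ I ≤ K := by
        intro hle
        apply hne
        rw [← h, tsub_add_cancel_of_le hle]
      rw [Finsupp.le_def] at h1
      push Not at h1
      obtain ⟨k, hk⟩ := h1
      have h2 : ∏ k, (K k).choose (I k) = 0 :=
        Finset.prod_eq_zero (Finset.mem_univ k) (Nat.choose_eq_zero_of_lt hk)
      rw [h2]
      simp
    · rfl
  · intro h
    rw [MvPolynomial.notMem_support_iff.1 h]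
    simp

theorem hd_add (I : κ →₀ ℕ) (P Q : MvPolynomial κ R) : hd I (P + Q) = hd I P + hd I Q := by
  ext J
  rw [coeff_hd, MvPolynomial.coeff_add, MvPolynomial.coeff_add, coeff_hd, coeff_hd, add_mul]

theorem hd_smul (I : κ →₀ ℕ) (c : R) (P : MvPolynomial κ R) : hd I (c • P) = c • hd I P := by
  ext J
  rw [coeff_hd, MvPolynomial.coeff_smul, MvPolynomial.coeff_smul, coeff_hd, smul_eq_mul,
    smul_eq_mul, mul_assoc]

theorem hd_sum {ι : Type} (I : κ →₀ ℕ) (s : Finset ι) (f : ι → MvPolynomial κ R) :
    hd I (∑ i ∈ s, f i) = ∑ i ∈ s, hd I (f i) := by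
  ext J
  rw [coeff_hd, MvPolynomial.coeff_sum, MvPolynomial.coeff_sum, Finset.sum_mul]
  refine Finset.sum_congr rfl fun i _ => ?_
  rw [coeff_hd]

theorem map_hd (f : R →+* S) (I : κ →₀ ℕ) (P : MvPolynomial κ R) :
    map f (hd I P) = hd I (map f P) := by
  ext J
  rw [MvPolynomial.coeff_map, coeff_hd, coeff_hd, MvPolynomial.coeff_map, map_mul, map_natCast]

/-- composition (`Nat.add_choose`-type identity: `binom(J+K+I, I) binom(J+K, J)... = binom(I+J, I) binom(K+I+J, I+J)`) -/
theorem hd_hd (I J : κ →₀ ℕ) (P : MvPolynomial κ R) :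
    hd J (hd I P) = ((∏ k, (I k + J k).choose (I k) : ℕ) : R) • hd (I + J) P := by
  ext K
  rw [coeff_hd, coeff_hd, MvPolynomial.coeff_smul, coeff_hd, smul_eq_mul,
    show K + J + I = K + (I + J) by rw [add_assoc, add_comm J I]]
  have h : (∏ k, ((K + J) k + I k).choose (I k)) * ∏ k, (K k + J k).choose (J k) =
      (∏ k, (I k + J k).choose (I k)) * ∏ k, (K k + (I + J) k).choose ((I + J) k) := by
    rw [← Finset.prod_mul_distrib, ← Finset.prod_mul_distrib]
    refine Finset.prod_congr rfl fun k _ => ?_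
    rw [Finsupp.add_apply, Finsupp.add_apply]
    have h1 := Nat.choose_mul (n := K k + J k + I k) (k := I k + J k) (s := I k) (by omega)
    have h2 : K k + J k + I k - I k = K k + J k := by omega
    have h3 : I k + J k - I k = J k := by omega
    rw [h2, h3] at h1
    rw [← h1, show K k + (I k + J k) = K k + J k + I k by omega, mul_comm]
  rw [mul_assoc, ← Nat.cast_mul, h, Nat.cast_mul]
  ring

private theorem a2_prod [DecidableEq κ] (k : κ) (I J I' J' : κ →₀ ℕ)
    (h : ∀ l, l ≠ k → I' l = I l ∧ J' l = J l) :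
    ∏ l, (J' l + I' l).choose (I' l) =
      (J' k + I' k).choose (I' k) * ∏ l ∈ Finset.univ.erase k, (J l + I l).choose (I l) := by
  rw [← Finset.mul_prod_erase Finset.univ (fun l => (J' l + I' l).choose (I' l))
    (Finset.mem_univ k)]
  congr 1
  refine Finset.prod_congr rfl fun l hl => ?_
  rw [(h l (Finset.ne_of_mem_erase hl)).1, (h l (Finset.ne_of_mem_erase hl)).2]

private theorem a2_leib [DecidableEq κ] (I : κ →₀ ℕ) (k : κ) (P : MvPolynomial κ R) :
    hd I (P * X k) = hd I P * X k +
      (if I k = 0 then 0 else hd (I - Finsupp.single k 1) P) := by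
  ext J
  have hs : ∀ (A : κ →₀ ℕ) (l : κ), l ≠ k → (A - Finsupp.single k 1 : κ →₀ ℕ) l = A l := by
    intro A l hl
    rw [Finsupp.tsub_apply, Finsupp.single_eq_of_ne hl, Nat.sub_zero]
  have hk : ∀ A : κ →₀ ℕ, (A - Finsupp.single k 1 : κ →₀ ℕ) k = A k - 1 := by
    intro A
    rw [Finsupp.tsub_apply, Finsupp.single_eq_same]
  rw [coeff_hd, MvPolynomial.coeff_add, MvPolynomial.coeff_mul_X', MvPolynomial.coeff_mul_X']
  simp only [Finsupp.mem_support_iff, Finsupp.add_apply]
  rw [a2_prod k I J I J (fun l _ => ⟨rfl, rfl⟩)]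
  by_cases hJ : J k = 0
  · by_cases hI : I k = 0
    · simp [hI, hJ]
    · rw [if_pos (by omega), if_neg (by omega), if_neg hI, zero_add, coeff_hd,
        a2_prod k I J (I - Finsupp.single k 1) J (fun l hl => ⟨hs _ l hl, rfl⟩), hk]
      have h1 : J + I - Finsupp.single k 1 = J + (I - Finsupp.single k 1) := by
        ext l
        by_cases hl : l = k
        · subst hl
          rw [hk, Finsupp.add_apply, Finsupp.add_apply, hk]
          omega
        · rw [hs _ l hl, Finsupp.add_apply, Finsupp.add_apply, hs _ l hl]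
      rw [h1, hJ, zero_add, zero_add, Nat.choose_self, Nat.choose_self]
  · have h2 : J + I - Finsupp.single k 1 = J - Finsupp.single k 1 + I := by
      ext l
      by_cases hl : l = k
      · subst hl
        rw [hk, Finsupp.add_apply, Finsupp.add_apply, hk]
        omega
      · rw [hs _ l hl, Finsupp.add_apply, Finsupp.add_apply, hs _ l hl]
    rw [if_pos (by omega), if_pos hJ, coeff_hd,
      a2_prod k I J I (J - Finsupp.single k 1) (fun l hl => ⟨rfl, hs _ l hl⟩), hk, h2]
    by_cases hI : I k = 0
    · rw [if_pos hI, hI, Nat.choose_zero_right, Nat.choose_zero_right, MvPolynomial.coeff_zero,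
        add_zero]
    · rw [if_neg hI, coeff_hd,
        a2_prod k I J (I - Finsupp.single k 1) J (fun l hl => ⟨hs _ l hl, rfl⟩), hk]
      have h1 : J + I - Finsupp.single k 1 = J + (I - Finsupp.single k 1) := by
        ext l
        by_cases hl : l = k
        · subst hl
          rw [hk, Finsupp.add_apply, Finsupp.add_apply, hk]
          omega
        · rw [hs _ l hl, Finsupp.add_apply, Finsupp.add_apply, hs _ l hl]
      rw [← h2, h1]
      obtain ⟨i, hi⟩ := Nat.exists_eq_succ_of_ne_zero hI
      obtain ⟨j, hj⟩ := Nat.exists_eq_succ_of_ne_zero hJ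
      have h3 : (J k + I k).choose (I k) = (J k - 1 + I k).choose (I k) +
          (J k + (I k - 1)).choose (I k - 1) := by
        rw [hi, hj, Nat.succ_sub_one, Nat.succ_sub_one,
          show j.succ + i.succ = (j + i.succ) + 1 by omega, Nat.choose_succ_succ,
          show j + i.succ = j.succ + i by omega, add_comm]
      rw [h3, add_mul, Nat.cast_add, mul_add]

private theorem a2_hd_C (I : κ →₀ ℕ) (c : R) : hd I (C c : MvPolynomial κ R) =
    C ((C c : MvPolynomial κ R).coeff I) := by
  classical
  ext J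
  rw [coeff_hd, MvPolynomial.coeff_C, MvPolynomial.coeff_C, MvPolynomial.coeff_C]
  by_cases hJ : J = 0
  · subst hJ
    rw [zero_add, if_pos rfl]
    simp
  · rw [if_neg (fun h => hJ ?_), if_neg (fun h => hJ h.symm), zero_mul]
    ext l
    have h1 := DFunLike.congr_fun h l
    simp only [Finsupp.coe_zero, Pi.zero_apply, Finsupp.add_apply] at h1 ⊢
    omega

private theorem a2_sh_C (a : κ → R) (c : R) : sh a (C c) = C c := by
  unfold sh
  rw [MvPolynomial.aeval_C]
  rfl

private theorem a2_sh_X (a : κ → R) (k : κ) : sh a (X k) = X k + C (a k) := by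
  unfold sh
  rw [MvPolynomial.aeval_X]

/-- Taylor coefficients.
PROOF. By linearity for `P = monomial J c`: the coefficient of `x^I` in `c ∏ (x_k + a_k)^(J_k)` is
`c ∏ binom (J_k) (I_k) a_k^(J_k - I_k)`. (Or by `MvPolynomial.induction_on` with `P * X k`.) -/
theorem coeff_sh (a : κ → R) (I : κ →₀ ℕ) (P : MvPolynomial κ R) :
    (sh a P).coeff I = eval a (hd I P) := by
  classical
  induction P using MvPolynomial.induction_on generalizing I with
  | C c => rw [a2_sh_C, a2_hd_C, MvPolynomial.eval_C]
  | add p q hp hq => rw [map_add, MvPolynomial.coeff_add, hp, hq, hd_add, map_add]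
  | mul_X p k hp =>
    rw [map_mul, a2_sh_X, mul_add, MvPolynomial.coeff_add, MvPolynomial.coeff_mul_X',
      mul_comm (sh a p) (C (a k)), MvPolynomial.coeff_C_mul, a2_leib, map_add, map_mul, MvPolynomial.eval_X, ← hp I]
    by_cases hI : I k = 0
    · rw [if_neg (by simpa using hI), if_pos hI, map_zero]
      ring
    · rw [if_pos (by simpa using hI), if_neg hI, ← hp]
      ring

theorem eval_sh (a b : κ → R) (P : MvPolynomial κ R) :
    eval b (sh a P) = eval (fun k => b k + a k) P := by
  induction P using MvPolynomial.induction_on with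
  | C c => rw [a2_sh_C, MvPolynomial.eval_C, MvPolynomial.eval_C]
  | add p q hp hq => rw [map_add, map_add, map_add, hp, hq]
  | mul_X p k hp =>
    rw [map_mul, map_mul, map_mul, hp, a2_sh_X, map_add, MvPolynomial.eval_X, MvPolynomial.eval_C,
      MvPolynomial.eval_X]

theorem map_sh (f : R →+* S) (a : κ → R) (P : MvPolynomial κ R) :
    map f (sh a P) = sh (fun k => f (a k)) (map f P) := by
  induction P using MvPolynomial.induction_on with
  | C c => rw [a2_sh_C, MvPolynomial.map_C, a2_sh_C]
  | add p q hp hq => rw [map_add, map_add, map_add, map_add, hp, hq]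
  | mul_X p k hp =>
    rw [map_mul, map_mul, map_mul, map_mul, hp, a2_sh_X, map_add, MvPolynomial.map_X,
      MvPolynomial.map_C, a2_sh_X]

/-- PROOF. Coefficients: `coeff_hd`, `coeff_sh`, `hd_hd`. -/
theorem hd_sh (a : κ → R) (I : κ →₀ ℕ) (P : MvPolynomial κ R) :
    hd I (sh a P) = sh a (hd I P) := by
  ext J
  rw [coeff_hd, coeff_sh, coeff_sh, hd_hd, MvPolynomial.smul_eval, add_comm I J, mul_comm]
  simp_rw [add_comm (J _) (I _)]

theorem degreeOf_hd_le (I : κ →₀ ℕ) (P : MvPolynomial κ R) (k : κ) :
    (hd I P).degreeOf k ≤ P.degreeOf k := by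
  rw [MvPolynomial.degreeOf_le_iff]
  intro J hJ
  rw [MvPolynomial.mem_support_iff, coeff_hd] at hJ
  have h1 : J + I ∈ P.support := by
    rw [MvPolynomial.mem_support_iff]
    exact left_ne_zero_of_mul hJ
  have h2 := MvPolynomial.monomial_le_degreeOf k h1
  rw [Finsupp.add_apply] at h2
  omega

end HK
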