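import Pool.Agent.HK.A2

set_option autoImplicit false

open MvPolynomial

namespace HK

variable {R : Type} [CommRing R] {m : ℕ}

/-- [HK-A2b] (`MvPolynomial.finSuccEquiv_coeff_coeff`) -/
theorem coeff_slice (c : ℕ) (P : MvPolynomial (Fin (m + 1)) R) (K : Fin m →₀ ℕ) :
    (slice c P).coeff K = P.coeff (Finsupp.cons c K) :=
  finSuccEquiv_coeff_coeff K P c

theorem a2b_fse_C (a : R) : finSuccEquiv R m (C a) = Polynomial.C (C a) := by
  rw [finSuccEquiv_apply]
  simp

theorem a2b_fse_up (F : MvPolynomial (Fin m) R) : finSuccEquiv R m (up F) = Polynomial.C F := by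
  unfold up
  induction F using MvPolynomial.induction_on with
  | C a => rw [rename_C, a2b_fse_C]
  | add p q hp hq => rw [map_add, map_add, hp, hq, map_add]
  | mul_X p i hp => rw [map_mul, map_mul, hp, rename_X, finSuccEquiv_X_succ, map_mul]

theorem a2b_fse_uy (ψ : Polynomial R) : finSuccEquiv R m (uy ψ) = ψ.map C := by
  unfold uy
  induction ψ using Polynomial.induction_on with
  | C a =>
    rw [Polynomial.aeval_C, Polynomial.map_C]
    exact a2b_fse_C a
  | add p q hp hq => rw [map_add, map_add, hp, hq, Polynomial.map_add]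
  | monomial n a ih =>
    rw [map_mul, map_mul, map_pow, map_pow, Polynomial.aeval_C, Polynomial.aeval_X,
      finSuccEquiv_X_zero, Polynomial.map_mul, Polynomial.map_pow, Polynomial.map_C, Polynomial.map_X]
    congr 1
    exact a2b_fse_C a

/-- [HK-A2b] coefficients of a product of polynomials in separate variables -/
theorem coeff_up_uy (c : ℕ) (K : Fin m →₀ ℕ) (F : MvPolynomial (Fin m) R) (ψ : Polynomial R) :
    (up F * uy ψ).coeff (Finsupp.cons c K) = F.coeff K * ψ.coeff c := by
  rw [← finSuccEquiv_coeff_coeff, map_mul, a2b_fse_up, a2b_fse_uy, Polynomial.coeff_C_mul,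
    Polynomial.coeff_map, mul_comm F, coeff_C_mul, mul_comm]

/-- [HK-A2b] every exponent vector is a `Finsupp.cons` -/
theorem ext_cons {P Q : MvPolynomial (Fin (m + 1)) R}
    (h : ∀ c K, P.coeff (Finsupp.cons c K) = Q.coeff (Finsupp.cons c K)) : P = Q := by
  ext t
  rw [← Finsupp.cons_tail t]
  exact h _ _

theorem a2b_cons_add (c c' : ℕ) (K I : Fin m →₀ ℕ) :
    Finsupp.cons c K + Finsupp.cons c' I = Finsupp.cons (c + c') (K + I) := by
  ext k
  refine Fin.cases ?_ (fun i => ?_) k
  · simp
  · simp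

/-- [HK-A2b] -/
theorem hd_up_uy (c : ℕ) (I : Fin m →₀ ℕ) (F : MvPolynomial (Fin m) R) (ψ : Polynomial R) :
    hd (Finsupp.cons c I) (up F * uy ψ) = up (hd I F) * uy (Polynomial.hasseDeriv c ψ) := by
  apply ext_cons
  intro c' K
  rw [coeff_hd, a2b_cons_add, coeff_up_uy, coeff_up_uy, coeff_hd, Polynomial.hasseDeriv_coeff,
    Fin.prod_univ_succ]
  simp only [Finsupp.cons_zero, Finsupp.cons_succ]
  push_cast
  ring

theorem a2b_sh_up (a : Fin (m + 1) → R) (F : MvPolynomial (Fin m) R) :
    sh a (up F) = up (sh (fun k => a k.succ) F) := by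
  have h : (sh a).comp (up (R := R) (m := m)) = (up (R := R) (m := m)).comp (sh (fun k => a k.succ)) := by
    apply MvPolynomial.algHom_ext
    intro i
    simp only [AlgHom.comp_apply, up, sh, rename_X, aeval_X, map_add, rename_C]
  exact AlgHom.congr_fun h F

theorem a2b_sh_uy (a : Fin (m + 1) → R) (ψ : Polynomial R) :
    sh a (uy ψ) = uy (Polynomial.taylor (a 0) ψ) := by
  have h : (sh a).comp (uy (R := R) (m := m)) =
      (uy (R := R) (m := m)).comp (Polynomial.taylorAlgHom (a 0)) := by
    apply Polynomial.algHom_ext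
    simp only [AlgHom.comp_apply, uy, sh, aeval_X, Polynomial.aeval_X, Polynomial.taylorAlgHom_apply,
      Polynomial.taylor_X, map_add, Polynomial.aeval_C]
    rfl
  exact AlgHom.congr_fun h ψ

/-- [HK-A2b] -/
theorem sh_up_uy (a : Fin (m + 1) → R) (F : MvPolynomial (Fin m) R) (ψ : Polynomial R) :
    sh a (up F * uy ψ) = up (sh (fun k => a k.succ) F) * uy (Polynomial.taylor (a 0) ψ) := by
  rw [map_mul, a2b_sh_up, a2b_sh_uy]

end HK
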