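import Pool.Agent.HK.A2

set_option autoImplicit false

open MvPolynomial

namespace HK

variable {κ R : Type} [Fintype κ] [CommRing R] {w : κ → ℝ}

theorem OrdGe.mono {θ θ' : ℝ} {P : MvPolynomial κ R} (h : OrdGe w θ P) (hθ : θ' ≤ θ) :
    OrdGe w θ' P := fun I hI => hθ.trans (h I hI)

/-- [HK-A3] -/
theorem OrdGe.of_nonneg (hw : ∀ k, 0 ≤ w k) (P : MvPolynomial κ R) : OrdGe w 0 P :=
  fun I _ => Finset.sum_nonneg (fun k _ => mul_nonneg (hw k) (Nat.cast_nonneg _))

theorem OrdGe.max {θ θ' : ℝ} {P : MvPolynomial κ R} (h : OrdGe w θ P) (h' : OrdGe w θ' P) :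
    OrdGe w (Max.max θ θ') P :=
  fun I hI => max_le (h I hI) (h' I hI)

theorem OrdGe.add {θ : ℝ} {P Q : MvPolynomial κ R} (hP : OrdGe w θ P) (hQ : OrdGe w θ Q) :
    OrdGe w θ (P + Q) := by
  intro I hI
  rw [coeff_add] at hI
  by_cases h : P.coeff I = 0
  · apply hQ I
    rwa [h, zero_add] at hI
  · exact hP I h

theorem a3_zero {θ : ℝ} : OrdGe w θ (0 : MvPolynomial κ R) := by
  intro I hI
  exact absurd (coeff_zero I) hI

theorem a3_one : OrdGe w 0 (1 : MvPolynomial κ R) := by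
  classical
  intro I hI
  rw [coeff_one] at hI
  have h0 : 0 = I := by
    by_contra h
    rw [if_neg h] at hI
    exact hI rfl
  rw [← h0]
  simp

theorem OrdGe.sum {ι : Type} {θ : ℝ} {s : Finset ι} {f : ι → MvPolynomial κ R}
    (h : ∀ i ∈ s, OrdGe w θ (f i)) : OrdGe w θ (∑ i ∈ s, f i) := by
  classical
  induction s using Finset.induction_on with
  | empty =>
    rw [Finset.sum_empty]
    exact a3_zero
  | insert a s ha ih =>
    rw [Finset.sum_insert ha]
    exact (h a (Finset.mem_insert_self _ _)).add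
      (ih (fun i hi => h i (Finset.mem_insert_of_mem hi)))

theorem OrdGe.mul {θ θ' : ℝ} {P Q : MvPolynomial κ R} (hP : OrdGe w θ P) (hQ : OrdGe w θ' Q) :
    OrdGe w (θ + θ') (P * Q) := by
  classical
  intro I hI
  rw [coeff_mul] at hI
  obtain ⟨⟨a, b⟩, hab, hne⟩ := Finset.exists_ne_zero_of_sum_ne_zero hI
  have h1 : P.coeff a ≠ 0 := left_ne_zero_of_mul hne
  have h2 : Q.coeff b ≠ 0 := right_ne_zero_of_mul hne
  have h3 : a + b = I := Finset.HasAntidiagonal.mem_antidiagonal.1 hab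
  have h4 : ∑ k, w k * (I k : ℝ) = ∑ k, w k * (a k : ℝ) + ∑ k, w k * (b k : ℝ) := by
    rw [← Finset.sum_add_distrib, ← h3]
    apply Finset.sum_congr rfl
    intro k _
    rw [Finsupp.add_apply]
    push_cast
    ring
  rw [h4]
  exact add_le_add (hP a h1) (hQ b h2)

theorem OrdGe.prod {ι : Type} {θ : ι → ℝ} {s : Finset ι} {f : ι → MvPolynomial κ R}
    (h : ∀ i ∈ s, OrdGe w (θ i) (f i)) : OrdGe w (∑ i ∈ s, θ i) (∏ i ∈ s, f i) := by
  classical
  induction s using Finset.induction_on with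
  | empty =>
    rw [Finset.sum_empty, Finset.prod_empty]
    exact a3_one
  | insert a s ha ih =>
    rw [Finset.sum_insert ha, Finset.prod_insert ha]
    exact (h a (Finset.mem_insert_self _ _)).mul
      (ih (fun i hi => h i (Finset.mem_insert_of_mem hi)))

theorem OrdGe.det {h : ℕ} {θ : Fin h → ℝ} {M : Matrix (Fin h) (Fin h) (MvPolynomial κ R)}
    (hM : ∀ i j, OrdGe w (θ j) (M i j)) : OrdGe w (∑ j, θ j) M.det := by
  rw [Matrix.det_apply]
  apply OrdGe.sum
  intro σ _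
  have h1 : OrdGe w (∑ j, θ j) (∏ i, M (σ i) i) := OrdGe.prod (fun i _ => hM (σ i) i)
  intro I hI
  apply h1 I
  intro h2
  apply hI
  rw [Units.smul_def, ← Int.cast_smul_eq_zsmul R, coeff_smul, h2, smul_zero]

/-- [HK-A3] derivatives (`coeff_hd`) -/
theorem OrdGe.hd {θ : ℝ} {P : MvPolynomial κ R} (h : OrdGe w θ P) (I : κ →₀ ℕ) :
    OrdGe w (θ - ∑ k, w k * (I k : ℝ)) (HK.hd I P) := by
  intro J hJ
  rw [coeff_hd] at hJ
  have h1 := h (J + I) (left_ne_zero_of_mul hJ)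
  have h4 : ∑ k, w k * ((J + I) k : ℝ) = ∑ k, w k * (J k : ℝ) + ∑ k, w k * (I k : ℝ) := by
    rw [← Finset.sum_add_distrib]
    apply Finset.sum_congr rfl
    intro k _
    rw [Finsupp.add_apply]
    push_cast
    ring
  rw [h4] at h1
  linarith

end HK
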