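import Pool.Agent.HK.A1
import Pool.Agent.HK.A2b

set_option autoImplicit false

open MvPolynomial

namespace HK

theorem a4_L1_monomial {κ : Type} (s : κ →₀ ℕ) (a : ℤ) : L1 (monomial s a) = |(a : ℝ)| := by
  classical
  rw [L1_eq (s := {s}) support_monomial_subset, Finset.sum_singleton, coeff_monomial, if_pos rfl]

theorem a4_L1_ge {κ : Type} (P : MvPolynomial κ ℤ) (s : Finset (κ →₀ ℕ)) :
    ∑ J ∈ s, |((P.coeff J : ℤ) : ℝ)| ≤ L1 P := by
  classical
  rw [L1_eq (s := s ∪ P.support) Finset.subset_union_right]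
  exact Finset.sum_le_sum_of_subset_of_nonneg Finset.subset_union_left fun _ _ _ => abs_nonneg _

/-- [HK-A4] `∑ binom(J_k, I_k) ≤ 2^(J_k)`; `hd I P = ∑_J monomial (J - I) (..)`, `J_k ≤ d_k` on the support -/
theorem L1_hd {κ : Type} [Fintype κ] (I : κ →₀ ℕ) (P : MvPolynomial κ ℤ) (d : κ → ℕ)
    (hd' : ∀ k, P.degreeOf k ≤ d k) : L1 (hd I P) ≤ 2 ^ (∑ k, d k) * L1 P := by
  unfold hd
  refine (L1_sum _ _).trans ?_
  unfold L1
  rw [Finset.mul_sum]
  refine Finset.sum_le_sum fun J hJ => ?_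
  have h0 := a4_L1_monomial (J - I) (P.coeff J * ((∏ k, (J k).choose (I k) : ℕ) : ℤ))
  unfold L1 at h0
  rw [h0]
  push_cast
  rw [abs_mul, mul_comm]
  apply mul_le_mul_of_nonneg_right _ (abs_nonneg _)
  rw [abs_of_nonneg (by positivity)]
  have h1 : ∏ k, (J k).choose (I k) ≤ 2 ^ ∑ k, d k := by
    calc ∏ k, (J k).choose (I k) ≤ ∏ k, 2 ^ d k := by
          apply Finset.prod_le_prod'
          intro k _
          exact (Nat.choose_le_two_pow _ _).trans
            (Nat.pow_le_pow_right (by norm_num) ((monomial_le_degreeOf k hJ).trans (hd' k)))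
      _ = 2 ^ ∑ k, d k := by rw [Finset.prod_pow_eq_pow_sum]
  exact_mod_cast h1

/-- [HK-A4] trivial bound for values -/
theorem abs_eval_le {κ : Type} [Fintype κ] (P : MvPolynomial κ ℤ) (d : κ → ℕ)
    (hd' : ∀ k, P.degreeOf k ≤ d k) (n : κ → ℕ) (hn : ∀ k, 1 ≤ n k) :
    |((eval (fun k => (n k : ℤ)) P : ℤ) : ℝ)| ≤ L1 P * ∏ k, (n k : ℝ) ^ d k := by
  rw [eval_eq']
  push_cast
  refine (Finset.abs_sum_le_sum_abs _ _).trans ?_
  unfold L1
  rw [Finset.sum_mul]
  refine Finset.sum_le_sum fun J hJ => ?_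
  rw [abs_mul]
  apply mul_le_mul_of_nonneg_left _ (abs_nonneg _)
  rw [abs_of_nonneg (by positivity)]
  apply Finset.prod_le_prod
  · intro k _
    positivity
  · intro k _
    apply pow_le_pow_right₀
    · exact_mod_cast hn k
    · exact (monomial_le_degreeOf k hJ).trans (hd' k)

/-- [HK-A4] `K ↦ Finsupp.cons c K` is injective -/
theorem L1_slice {m : ℕ} (c : ℕ) (P : MvPolynomial (Fin (m + 1)) ℤ) : L1 (slice c P) ≤ L1 P := by
  classical
  have h1 : L1 (slice c P) = ∑ J ∈ (slice c P).support.image (Finsupp.cons c),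
      |((P.coeff J : ℤ) : ℝ)| := by
    rw [Finset.sum_image (fun x _ y _ h => Finsupp.cons_right_injective c h)]
    unfold L1
    exact Finset.sum_congr rfl fun K _ => by rw [coeff_slice]
  rw [h1]
  exact a4_L1_ge P _

/-- [HK-A4] -/
theorem sum_coeff_cons_le {m : ℕ} (s : Finset ℕ) (P : MvPolynomial (Fin (m + 1)) ℤ)
    (K : Fin m →₀ ℕ) : ∑ c ∈ s, |((P.coeff (Finsupp.cons c K) : ℤ) : ℝ)| ≤ L1 P := by
  classical
  have h1 : ∑ c ∈ s, |((P.coeff (Finsupp.cons c K) : ℤ) : ℝ)| =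
      ∑ J ∈ s.image (fun c => Finsupp.cons c K), |((P.coeff J : ℤ) : ℝ)| := by
    rw [Finset.sum_image (fun x _ y _ h => (Finsupp.cons_injective2 h).1)]
  rw [h1]
  exact a4_L1_ge P _

/-- [HK-A4] (`MvPolynomial.degreeOf_coeff_finSuccEquiv`) -/
theorem degreeOf_slice {m : ℕ} (c : ℕ) (P : MvPolynomial (Fin (m + 1)) ℤ) (k : Fin m) :
    (slice c P).degreeOf k ≤ P.degreeOf k.succ := by
  unfold slice
  exact degreeOf_coeff_finSuccEquiv P k c

/-- [HK-A4] Leibniz formula, `degreeOf_prod_le`, `degreeOf_sum_le` or similar -/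
theorem degreeOf_det {κ R : Type} [CommRing R] {h : ℕ}
    (M : Matrix (Fin h) (Fin h) (MvPolynomial κ R)) (k : κ) {d : ℕ}
    (hM : ∀ i j, (M i j).degreeOf k ≤ d) : M.det.degreeOf k ≤ h * d := by
  classical
  rw [Matrix.det_apply]
  refine (degreeOf_sum_le _ _ _).trans ?_
  refine Finset.sup_le fun σ _ => ?_
  have h1 : degreeOf k (∏ i, M (σ i) i) ≤ h * d := by
    refine (degreeOf_prod_le _ _ _).trans ?_
    calc ∑ i : Fin h, (M (σ i) i).degreeOf k ≤ ∑ _i : Fin h, d :=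
          Finset.sum_le_sum fun i _ => hM _ _
      _ = h * d := by simp
  rcases Int.units_eq_one_or (Equiv.Perm.sign σ) with h2 | h2
  · rw [h2, one_smul]
    exact h1
  · rw [h2, Units.neg_smul, one_smul, degreeOf_neg]
    exact h1

end HK
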