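import Mathlib

set_option autoImplicit false

namespace HK

private theorem b1_cross {m : ℕ} (d : Fin m → ℕ) (hd : ∀ k, 0 < d k) (k k' : Fin m)
    (hkk : k ≠ k') :
    ∑ I ∈ Fintype.piFinset (fun k => Finset.range (d k + 1)),
      (((d k : ℝ)⁻¹ * (I k : ℝ) - 1 / 2) * ((d k' : ℝ)⁻¹ * (I k' : ℝ) - 1 / 2)) = 0 := by
  classical
  have hdk : (d k : ℝ) ≠ 0 := by exact_mod_cast (hd k).ne'
  refine Finset.sum_involution (fun I _ => Function.update I k (d k - I k)) ?_ ?_ ?_ ?_
  · intro I hI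
    rw [Fintype.mem_piFinset] at hI
    have h1 : I k ≤ d k := Nat.lt_succ_iff.1 (Finset.mem_range.1 (hI k))
    simp only [Function.update_self, Function.update_of_ne (Ne.symm hkk)]
    have h2 : (d k : ℝ)⁻¹ * ((d k - I k : ℕ) : ℝ) = 1 - (d k : ℝ)⁻¹ * (I k : ℝ) := by
      rw [Nat.cast_sub h1, mul_sub, inv_mul_cancel₀ hdk]
    rw [h2]
    ring
  · intro I hI hne heq
    have hI' := hI
    rw [Fintype.mem_piFinset] at hI
    have h1 : I k ≤ d k := Nat.lt_succ_iff.1 (Finset.mem_range.1 (hI k))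
    have h2 := congrFun heq k
    simp only [Function.update_self] at h2
    apply hne
    have h3 : (d k : ℝ) = 2 * (I k : ℝ) := by
      have : d k = 2 * I k := by omega
      rw [this]; push_cast; ring
    have h4 : (I k : ℝ) ≠ 0 := by
      intro h; rw [h] at h3; exact hdk (by rw [h3]; ring)
    rw [h3]
    have h5 : (2 * (I k : ℝ))⁻¹ * (I k : ℝ) - 1 / 2 = 0 := by
      field_simp
      ring
    rw [h5, zero_mul]
  · intro I hI
    rw [Fintype.mem_piFinset] at hI ⊢
    intro l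
    by_cases hl : l = k
    · subst hl
      rw [Function.update_self, Finset.mem_range]
      omega
    · rw [Function.update_of_ne hl]
      exact hI l
  · intro I hI
    rw [Fintype.mem_piFinset] at hI
    have h1 : I k ≤ d k := Nat.lt_succ_iff.1 (Finset.mem_range.1 (hI k))
    simp only [Function.update_self, Function.update_idem]
    have : d k - (d k - I k) = I k := by omega
    rw [this, Function.update_eq_self]

/-- [HK-B1] Chebyshev count.
PROOF. For `I` in the box let `S(I) = ∑_k (I_k/d_k - 1/2)`. `∑_I S(I)² = ∑_{k,k'} ∑_I (I_k/d_k - 1/2)(I_{k'}/d_{k'} - 1/2)`; the terms `k ≠ k'` vanish, since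
`∑_{i=0}^{d} (i/d - 1/2) = 0`; the terms `k = k'` are at most `N/4`, `N = ∏ (d_k + 1)`, since `|i/d - 1/2| ≤ 1/2`. So `∑_I S(I)² ≤ m N / 4`. If
`∑_k I_k/d_k < m/4` then `S(I) < - m/4`, `S(I)² ≥ m²/16`. So the number of these `I` times `m²/16` is at most `m N/4`. -/
theorem count_lt {m : ℕ} (hm : 0 < m) (d : Fin m → ℕ) (hd : ∀ k, 0 < d k) :
    ((((Fintype.piFinset fun k => Finset.range (d k + 1)).filter
      fun I : Fin m → ℕ => ∑ k, (d k : ℝ)⁻¹ * (I k : ℝ) < (m : ℝ) / 4).card : ℕ) : ℝ) * m ≤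
      4 * ∏ k, ((d k : ℝ) + 1) := by
  classical
  set X : Finset (Fin m → ℕ) := Fintype.piFinset fun k => Finset.range (d k + 1) with hX
  set a : Fin m → (Fin m → ℕ) → ℝ := fun k I => (d k : ℝ)⁻¹ * (I k : ℝ) - 1 / 2 with ha
  have hm0 : (0 : ℝ) < m := by exact_mod_cast hm
  have hcard : (X.card : ℝ) = ∏ k, ((d k : ℝ) + 1) := by
    rw [hX, Fintype.card_piFinset]
    push_cast
    refine Finset.prod_congr rfl fun k _ => ?_
    rw [Finset.card_range]
    push_cast
    ring
  have hsq : ∑ I ∈ X, (∑ k, a k I) ^ 2 ≤ m * (X.card / 4 : ℝ) := by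
    have h1 : ∑ I ∈ X, (∑ k, a k I) ^ 2 = ∑ k, ∑ k', ∑ I ∈ X, a k I * a k' I := by
      have h2 : ∀ I ∈ X, (∑ k, a k I) ^ 2 = ∑ k, ∑ k', a k I * a k' I := by
        intro I _
        rw [sq, Finset.sum_mul_sum]
      rw [Finset.sum_congr rfl h2, Finset.sum_comm]
      refine Finset.sum_congr rfl fun k _ => ?_
      rw [Finset.sum_comm]
    rw [h1]
    have h3 : ∀ k ∈ (Finset.univ : Finset (Fin m)), ∑ k', ∑ I ∈ X, a k I * a k' I ≤ X.card / 4 := by
      intro k _
      rw [Finset.sum_eq_single k]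
      · have h4 : ∀ I ∈ X, a k I * a k I ≤ 1 / 4 := by
          intro I hI
          rw [hX, Fintype.mem_piFinset] at hI
          have h5 : I k ≤ d k := Nat.lt_succ_iff.1 (Finset.mem_range.1 (hI k))
          have h6 : (0 : ℝ) < d k := by exact_mod_cast hd k
          have h7 : (d k : ℝ)⁻¹ * (I k : ℝ) ≤ 1 := by
            rw [inv_mul_le_iff₀ h6, mul_one]
            exact_mod_cast h5
          have h8 : 0 ≤ (d k : ℝ)⁻¹ * (I k : ℝ) := by positivity
          simp only [ha]
          nlinarith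
        refine (Finset.sum_le_card_nsmul X _ (1 / 4) h4).trans ?_
        rw [nsmul_eq_mul]
        linarith
      · intro k' _ hk'
        exact b1_cross d hd k k' hk'.symm
      · intro h; exact absurd (Finset.mem_univ k) h
    refine (Finset.sum_le_card_nsmul _ _ _ h3).trans ?_
    rw [Finset.card_univ, Fintype.card_fin, nsmul_eq_mul]
  set F := X.filter fun I : Fin m → ℕ => ∑ k, (d k : ℝ)⁻¹ * (I k : ℝ) < (m : ℝ) / 4 with hF
  have hlow : (F.card : ℝ) * ((m : ℝ) ^ 2 / 16) ≤ ∑ I ∈ X, (∑ k, a k I) ^ 2 := by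
    have h1 : ∑ I ∈ F, (∑ k, a k I) ^ 2 ≤ ∑ I ∈ X, (∑ k, a k I) ^ 2 :=
      Finset.sum_le_sum_of_subset_of_nonneg (Finset.filter_subset _ _) (fun _ _ _ => sq_nonneg _)
    refine le_trans ?_ h1
    rw [← nsmul_eq_mul]
    refine Finset.card_nsmul_le_sum F _ _ ?_
    intro I hI
    rw [hF, Finset.mem_filter] at hI
    have h2 : ∑ k, a k I = ∑ k, (d k : ℝ)⁻¹ * (I k : ℝ) - m / 2 := by
      simp only [ha]
      rw [Finset.sum_sub_distrib, Finset.sum_const, Finset.card_univ, Fintype.card_fin,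
        nsmul_eq_mul]
      ring
    rw [h2]
    have h3 := hI.2
    nlinarith
  rw [← hcard]
  have h4 := hlow.trans hsq
  have h5 : ((F.card : ℝ) * m) * (m / 16) ≤ (4 * X.card) * (m / 16) := by
    nlinarith
  exact le_of_mul_le_mul_right h5 (by positivity)

end HK
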