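import Mathlib

set_option autoImplicit false

namespace HK

attribute [local instance] Matrix.seminormedAddCommGroup

/-- [HK-B2] Siegel's lemma, special case.
PROOF. `Int.Matrix.exists_ne_zero_int_vec_norm_le` (or `'`) with exponent `#α / (#β - #α) ≤ 1`; if `#α = 0` take a unit vector. Or directly by the pigeonhole
principle. -/
theorem siegel {α β : Type} [Fintype α] [Fintype β] (A : α → β → ℤ) (M : ℝ) (hM : 1 ≤ M)
    (hA : ∀ i j, |((A i j : ℤ) : ℝ)| ≤ M) (hc : 2 * Fintype.card α ≤ Fintype.card β)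
    (hβ : 0 < Fintype.card β) :
    ∃ t : β → ℤ, t ≠ 0 ∧ (∀ i, ∑ j, A i j * t j = 0) ∧
      ∀ j, |((t j : ℤ) : ℝ)| ≤ Fintype.card β * M := by
  classical
  have hβ1 : (1 : ℝ) ≤ Fintype.card β := by exact_mod_cast hβ
  rcases Nat.eq_zero_or_pos (Fintype.card α) with h0 | hpos
  · have : IsEmpty α := Fintype.card_eq_zero_iff.1 h0
    have : Nonempty β := Fintype.card_pos_iff.1 hβ
    refine ⟨fun _ => 1, ?_, fun i => isEmptyElim i, ?_⟩
    · intro h
      have := congrFun h (Classical.arbitrary β)
      simp at this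
    · intro j
      simp only [Int.cast_one, abs_one]
      nlinarith
  · obtain ⟨t, ht0, htA, htn⟩ := Int.Matrix.exists_ne_zero_int_vec_norm_le
      (Matrix.of A) (by omega) hpos
    refine ⟨t, ht0, ?_, ?_⟩
    · intro i
      have := congrFun htA i
      simpa [Matrix.mulVec, dotProduct] using this
    · intro j
      have h1 : ‖t j‖ ≤ ‖t‖ := norm_le_pi_norm t j
      have h2 : ‖t j‖ = |((t j : ℤ) : ℝ)| := by rw [Int.norm_eq_abs]
      rw [← h2]
      refine h1.trans (htn.trans ?_)
      have hA' : ‖Matrix.of A‖ ≤ M := by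
        rw [Matrix.norm_le_iff (by linarith)]
        intro i j
        rw [Matrix.of_apply, Int.norm_eq_abs]
        exact hA i j
      have hmax : max 1 ‖Matrix.of A‖ ≤ M := max_le hM hA'
      have hbase : (1 : ℝ) ≤ Fintype.card β * max 1 ‖Matrix.of A‖ :=
        one_le_mul_of_one_le_of_one_le hβ1 (le_max_left _ _)
      have hexp : ((Fintype.card α : ℝ)) / ((Fintype.card β : ℝ) - Fintype.card α) ≤ 1 := by
        have h3 : (2 : ℝ) * Fintype.card α ≤ Fintype.card β := by exact_mod_cast hc
        have h4 : (0 : ℝ) < Fintype.card α := by exact_mod_cast hpos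
        rw [div_le_one (by linarith)]
        linarith
      calc ((Fintype.card β : ℝ) * max 1 ‖Matrix.of A‖) ^
            (((Fintype.card α : ℝ)) / ((Fintype.card β : ℝ) - Fintype.card α))
          ≤ ((Fintype.card β : ℝ) * max 1 ‖Matrix.of A‖) ^ (1 : ℝ) :=
            Real.rpow_le_rpow_of_exponent_le hbase hexp
        _ = (Fintype.card β : ℝ) * max 1 ‖Matrix.of A‖ := Real.rpow_one _
        _ ≤ Fintype.card β * M := by gcongr

end HK
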