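import Pool.Agent.HK.A3
import Pool.Agent.HK.A4
import Pool.Agent.HK.B1
import Pool.Agent.HK.B2

set_option autoImplicit false

open MvPolynomial

namespace HK

theorem b3_hd_monomial {m : ℕ} (I J : Fin m →₀ ℕ) (c : ℤ) :
    hd I (monomial J c) = monomial (J - I) (c * ((∏ k, (J k).choose (I k) : ℕ) : ℤ)) := by
  classical
  unfold hd
  rw [support_monomial]
  split_ifs with h
  · rw [h]; simp
  · rw [Finset.sum_singleton, coeff_monomial, if_pos rfl]

/-- the box -/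
abbrev b3_box {m : ℕ} (d : Fin m → ℕ) : Finset (Fin m → ℕ) :=
  Fintype.piFinset fun k => Finset.range (d k + 1)

theorem b3_mem {m : ℕ} (d J : Fin m → ℕ) : J ∈ b3_box d ↔ ∀ k, J k ≤ d k := by
  simp only [b3_box, Fintype.mem_piFinset, Finset.mem_range, Nat.lt_succ_iff]

theorem b3_card {m : ℕ} (d : Fin m → ℕ) : Fintype.card (b3_box d) = ∏ k, (d k + 1) := by
  rw [Fintype.card_coe, b3_box, Fintype.card_piFinset]
  simp

/-- the polynomial with given coefficients in the box -/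
noncomputable def b3_P {m : ℕ} (d : Fin m → ℕ) (t : b3_box d → ℤ) : MvPolynomial (Fin m) ℤ :=
  ∑ J : b3_box d, monomial (Finsupp.equivFunOnFinite.symm (J : Fin m → ℕ)) (t J)

theorem b3_coeff_mem {m : ℕ} (d : Fin m → ℕ) (t : b3_box d → ℤ) (J : b3_box d) :
    (b3_P d t).coeff (Finsupp.equivFunOnFinite.symm (J : Fin m → ℕ)) = t J := by
  classical
  unfold b3_P
  rw [coeff_sum, Finset.sum_eq_single J]
  · rw [coeff_monomial, if_pos rfl]
  · intro J' _ hne
    rw [coeff_monomial, if_neg]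
    intro h
    exact hne (Subtype.ext (Finsupp.equivFunOnFinite.symm.injective h))
  · intro h
    exact absurd (Finset.mem_univ _) h

theorem b3_coeff_notMem {m : ℕ} (d : Fin m → ℕ) (t : b3_box d → ℤ) (K : Fin m →₀ ℕ)
    (hK : (K : Fin m → ℕ) ∉ b3_box d) : (b3_P d t).coeff K = 0 := by
  classical
  unfold b3_P
  rw [coeff_sum]
  refine Finset.sum_eq_zero fun J _ => ?_
  rw [coeff_monomial, if_neg]
  intro h
  apply hK
  rw [← h]
  exact J.2

theorem b3_eval {m : ℕ} (d : Fin m → ℕ) (t : b3_box d → ℤ) (a : Fin m → ℤ) (I : Fin m →₀ ℕ) :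
    eval a (hd I (b3_P d t)) = ∑ J : b3_box d,
      (∏ k, (((J : Fin m → ℕ) k).choose (I k) : ℤ) * a k ^ ((J : Fin m → ℕ) k - I k)) * t J := by
  unfold b3_P
  rw [hd_sum, map_sum]
  refine Finset.sum_congr rfl fun J _ => ?_
  rw [b3_hd_monomial, eval_monomial, Finsupp.prod_fintype _ _ (fun i => pow_zero _),
    Finset.prod_mul_distrib]
  simp only [Finsupp.tsub_apply, Finsupp.equivFunOnFinite_symm_apply_apply]
  push_cast
  ring

theorem b3_bound {m : ℕ} (d T : Fin m → ℕ) (hT : ∀ k, 0 < T k) (a : Fin m → ℤ)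
    (ha : ∀ k, |a k| ≤ (T k : ℤ)) (I J : Fin m → ℕ) (hJ : ∀ k, J k ≤ d k) :
    |((∏ k, ((J k).choose (I k) : ℤ) * a k ^ (J k - I k) : ℤ) : ℝ)| ≤
      ∏ k, (2 * (T k : ℝ)) ^ d k := by
  push_cast
  rw [Finset.abs_prod]
  refine Finset.prod_le_prod (fun k _ => abs_nonneg _) fun k _ => ?_
  rw [abs_mul, abs_pow, Nat.abs_cast, mul_pow]
  have h1 : ((J k).choose (I k) : ℝ) ≤ 2 ^ d k := by
    have h2 : (J k).choose (I k) ≤ 2 ^ d k :=
      (Nat.choose_le_two_pow _ _).trans (Nat.pow_le_pow_right (by norm_num) (hJ k))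
    exact_mod_cast h2
  have h3 : |((a k : ℤ) : ℝ)| ≤ T k := by
    have := ha k
    exact_mod_cast this
  have h4 : (1 : ℝ) ≤ T k := by exact_mod_cast hT k
  have h5 : |((a k : ℤ) : ℝ)| ^ (J k - I k) ≤ (T k : ℝ) ^ d k :=
    (pow_le_pow_left₀ (abs_nonneg _) h3 _).trans
      (pow_le_pow_right₀ h4 ((Nat.sub_le _ _).trans (hJ k)))
  exact mul_le_mul h1 h5 (by positivity) (by positivity)

theorem b3_L1 {m : ℕ} (d : Fin m → ℕ) (t : b3_box d → ℤ) (Λ : ℝ)
    (ht : ∀ J, |((t J : ℤ) : ℝ)| ≤ Λ) : L1 (b3_P d t) ≤ (∏ k, ((d k : ℝ) + 1)) * Λ := by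
  classical
  have h1 : (b3_P d t).support ⊆ (Finset.univ : Finset (b3_box d)).image
      (fun J : b3_box d => Finsupp.equivFunOnFinite.symm (J : Fin m → ℕ)) := by
    intro K hK
    rw [mem_support_iff] at hK
    have h2 : (K : Fin m → ℕ) ∈ b3_box d := by
      by_contra h
      exact hK (b3_coeff_notMem d t K h)
    rw [Finset.mem_image]
    exact ⟨⟨_, h2⟩, Finset.mem_univ _, by ext; rfl⟩
  rw [L1_eq h1, Finset.sum_image (by
    intro x _ y _ h
    exact Subtype.ext (Finsupp.equivFunOnFinite.symm.injective h))]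
  calc ∑ J : b3_box d, |(((b3_P d t).coeff (Finsupp.equivFunOnFinite.symm (J : Fin m → ℕ)) : ℤ) : ℝ)|
      ≤ ∑ J : b3_box d, Λ := Finset.sum_le_sum fun J _ => by rw [b3_coeff_mem]; exact ht J
    _ = (∏ k, ((d k : ℝ) + 1)) * Λ := by
        rw [Finset.sum_const, Finset.card_univ, b3_card, nsmul_eq_mul]
        push_cast
        rfl

/-- [HK-B3] the auxiliary polynomial.
PROOF. Unknowns: the coefficients `t_J`, `J` in the box `∏ {0, ..., d_k}` (`N = ∏ (d_k + 1)` of them). Equations, for `p : ι` and `I` in the box with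
`∑ I_k/d_k < m/4`: `(sh (a p) P).coeff I = ∑_J t_J ∏_k binom (J_k) (I_k) (a p k)^(J_k - I_k) = 0` (`coeff_sh`, `hd`), with coefficients at most
`M = ∏ (2 T_k)^(d_k)` in absolute value (for `J ≥ I`; zero otherwise). Their number is at most `#ι · 4N/m ≤ N/2` (`count_lt`). `siegel`: `|t_J| ≤ N M`, so
`L1 P ≤ N² M ≤ ∏ 4^(d_k) (2 T_k)^(d_k)` (`d + 1 ≤ 2^d`). For `I` outside of the box the coefficient of `sh (a p) P` is zero
(`degreeOf`: `coeff_sh`, `hd I P = 0` if `I_k > d_k`). -/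
theorem aux_poly {m : ℕ} {ι : Type} [Fintype ι] [Nonempty ι] (hm : 8 * Fintype.card ι ≤ m)
    (d T : Fin m → ℕ) (hd' : ∀ k, 0 < d k) (hT : ∀ k, 0 < T k) (a : ι → Fin m → ℤ)
    (ha : ∀ p k, |a p k| ≤ (T k : ℤ)) :
    ∃ P : MvPolynomial (Fin m) ℤ, P ≠ 0 ∧ (∀ k, P.degreeOf k ≤ d k) ∧
      L1 P ≤ ∏ k, (8 * (T k : ℝ)) ^ d k ∧
      ∀ p, OrdGe (fun k => (d k : ℝ)⁻¹) ((m : ℝ) / 4) (sh (a p) P) := by
  classical
  have hm0 : 0 < m := lt_of_lt_of_le (by have := Fintype.card_pos (α := ι); omega) hm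
  set M : ℝ := ∏ k, (2 * (T k : ℝ)) ^ d k with hM
  set N : ℝ := ∏ k, ((d k : ℝ) + 1) with hN
  have hM1 : 1 ≤ M := by
    rw [hM]
    calc (1 : ℝ) = ∏ k : Fin m, (1 : ℝ) := by simp
      _ ≤ ∏ k, (2 * (T k : ℝ)) ^ d k := Finset.prod_le_prod (fun _ _ => zero_le_one) fun k _ => by
          have h4 : (1 : ℝ) ≤ T k := by exact_mod_cast hT k
          exact one_le_pow₀ (by linarith)
  have hN0 : 0 ≤ N := Finset.prod_nonneg fun k _ => by positivity
  set F : Finset (Fin m → ℕ) := (b3_box d).filter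
      fun I : Fin m → ℕ => ∑ k, (d k : ℝ)⁻¹ * (I k : ℝ) < (m : ℝ) / 4 with hF
  have hFc : ((F.card : ℕ) : ℝ) * m ≤ 4 * N := count_lt hm0 d hd'
  have hcard : 2 * Fintype.card (ι × F) ≤ Fintype.card (b3_box d) := by
    rw [Fintype.card_prod, Fintype.card_coe]
    have h1 : ((2 * (Fintype.card ι * F.card) : ℕ) : ℝ) ≤ N := by
      push_cast
      have h2 : (8 * (Fintype.card ι : ℝ)) ≤ m := by exact_mod_cast hm
      have h3 : (0 : ℝ) ≤ F.card := by positivity
      nlinarith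
    rw [b3_card]
    have h2 : ((∏ k, (d k + 1) : ℕ) : ℝ) = N := by rw [hN]; push_cast; rfl
    rw [← h2] at h1
    exact_mod_cast h1
  have hpos : 0 < Fintype.card (b3_box d) := by
    rw [b3_card]
    exact Finset.prod_pos fun k _ => Nat.succ_pos _
  obtain ⟨t, ht0, htA, htb⟩ := siegel (α := ι × F) (β := b3_box d)
    (fun x J => ∏ k, (((J : Fin m → ℕ) k).choose ((x.2 : Fin m → ℕ) k) : ℤ) *
      a x.1 k ^ ((J : Fin m → ℕ) k - (x.2 : Fin m → ℕ) k)) M hM1
    (fun x J => b3_bound d T hT (a x.1) (ha x.1) _ _ ((b3_mem d _).1 J.2)) hcard hpos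
  refine ⟨b3_P d t, ?_, ?_, ?_, ?_⟩
  · intro h
    apply ht0
    funext J
    rw [← b3_coeff_mem d t J, h]
    simp
  · intro k
    rw [degreeOf_le_iff]
    intro K hK
    rw [mem_support_iff] at hK
    by_contra hlt
    apply hK
    apply b3_coeff_notMem
    rw [b3_mem]
    intro h
    exact hlt (h k)
  · have hc : ((Fintype.card (b3_box d) : ℕ) : ℝ) = N := by
      rw [b3_card, hN]; push_cast; rfl
    rw [hc] at htb
    refine (b3_L1 d t _ htb).trans ?_
    rw [← hN, hM, hN, ← Finset.prod_mul_distrib, ← Finset.prod_mul_distrib]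
    refine Finset.prod_le_prod (fun k _ => by positivity) fun k _ => ?_
    have h1 : ((d k : ℝ) + 1) ≤ 2 ^ d k := by
      have : d k + 1 ≤ 2 ^ d k := Nat.lt_two_pow_self
      exact_mod_cast this
    have h2 : (8 * (T k : ℝ)) ^ d k = 2 ^ d k * (2 ^ d k * (2 * (T k : ℝ)) ^ d k) := by
      rw [← mul_pow, ← mul_pow]
      congr 1
      ring
    rw [h2]
    gcongr
  · intro p I hI
    by_contra hlt
    rw [not_le] at hlt
    apply hI
    rw [coeff_sh, b3_eval]
    by_cases hIb : (I : Fin m → ℕ) ∈ b3_box d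
    · have hIF : (I : Fin m → ℕ) ∈ F := by
        rw [hF, Finset.mem_filter]
        exact ⟨hIb, hlt⟩
      exact htA (p, ⟨_, hIF⟩)
    · rw [b3_mem] at hIb
      push Not at hIb
      obtain ⟨k, hk⟩ := hIb
      refine Finset.sum_eq_zero fun J _ => ?_
      have hJ := (b3_mem d _).1 J.2 k
      rw [Finset.prod_eq_zero (Finset.mem_univ k), zero_mul]
      rw [Nat.choose_eq_zero_of_lt (lt_of_le_of_lt hJ hk)]
      simp

end HK
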