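import Pool.Agent.HK.A3
import Pool.Agent.HK.A4

set_option autoImplicit false

open MvPolynomial

namespace HK

/-- [HK-C1] divisibility of a value.
PROOF. `eval n Q = eval (n - a) (sh a Q)` (`eval_sh`) is the sum of the `(sh a Q).coeff J * ∏ (n k - a k)^(J k)` (`MvPolynomial.eval_eq`). -/
theorem dvd_eval {κ : Type} [Fintype κ] (p : ℤ) (Q : MvPolynomial κ ℤ) (a n : κ → ℤ) (e : κ → ℕ)
    (he : ∀ k, p ^ e k ∣ n k - a k) (E : ℕ) (h : ∀ J, (sh a Q).coeff J ≠ 0 → E ≤ ∑ k, e k * J k) :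
    p ^ E ∣ eval n Q := by
  have h1 : eval n Q = eval (fun k => n k - a k) (sh a Q) := by
    rw [eval_sh]
    congr 1
    congr 1
    funext k
    ring
  rw [h1, MvPolynomial.eval_eq']
  apply Finset.dvd_sum
  intro J hJ
  have hJ' : (sh a Q).coeff J ≠ 0 := MvPolynomial.mem_support_iff.1 hJ
  apply Dvd.dvd.mul_left
  have h2 : (p : ℤ) ^ (∑ k, e k * J k) ∣ ∏ k, (n k - a k) ^ (J k) := by
    rw [← Finset.prod_pow_eq_pow_sum]
    apply Finset.prod_dvd_prod_of_dvd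
    intro k _
    rw [pow_mul]
    exact pow_dvd_pow_of_dvd (he k) _
  exact (pow_dvd_pow p (h J hJ')).trans h2

/-- [HK-C1] PROOF. The prime powers are pairwise coprime, so their product divides `z`. -/
theorem sum_log_le (S : Finset ℕ) (hS : ∀ p ∈ S, p.Prime) (E : ℕ → ℕ) (z : ℤ) (hz : z ≠ 0)
    (h : ∀ p ∈ S, (p : ℤ) ^ E p ∣ z) : ∑ p ∈ S, (E p : ℝ) * Real.log p ≤ Real.log |(z : ℝ)| := by
  have h1 : (∏ p ∈ S, (p : ℤ) ^ E p) ∣ z := by
    apply Finset.prod_dvd_of_coprime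
    · intro p hp q hq hpq
      show IsCoprime ((p : ℤ) ^ E p) ((q : ℤ) ^ E q)
      apply IsCoprime.pow
      rw [Nat.isCoprime_iff_coprime]
      exact (Nat.coprime_primes (hS p hp) (hS q hq)).2 hpq
    · exact h
  have h2 := Int.le_of_dvd (abs_pos.2 hz) ((dvd_abs _ _).2 h1)
  have h3 : (∏ p ∈ S, (p : ℝ) ^ E p) ≤ |(z : ℝ)| := by
    have : ((∏ p ∈ S, (p : ℤ) ^ E p : ℤ) : ℝ) ≤ ((|z| : ℤ) : ℝ) := by exact_mod_cast h2
    push_cast at this
    exact this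
  have hpos : ∀ p ∈ S, (0 : ℝ) < (p : ℝ) ^ E p := by
    intro p hp
    have : (0 : ℝ) < p := by exact_mod_cast (hS p hp).pos
    positivity
  have h4 : Real.log (∏ p ∈ S, (p : ℝ) ^ E p) = ∑ p ∈ S, (E p : ℝ) * Real.log p := by
    rw [Real.log_prod (fun p hp => (hpos p hp).ne')]
    refine Finset.sum_congr rfl fun p _ => ?_
    rw [Real.log_pow]
  rw [← h4]
  exact Real.log_le_log (Finset.prod_pos hpos) h3

/-- [HK-C1] the final inequality.
PROOF. `Q = hd I P`; `eval n Q = (sh n P).coeff I ≠ 0` (`coeff_sh`). Upper bound: `L1 Q ≤ 2^(∑ d) L1 P` (`L1_hd`), `abs_eval_le`: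
`log |Q(n)| ≤ ∑ d k log 2 + log L1 P + ∑ d k log (n k) ≤ m D/2 + D/2 + m D ≤ 2 m D` (`m ≥ 1`).
Lower bound: for `p ∈ S` and `J` with `(sh (a p) Q).coeff J ≠ 0` (`sh (a p) Q = hd I (sh (a p) P)`, `OrdGe.hd`): `∑ J_k/d_k ≥ m/4 - m/8 = m/8`, so
`(∑_k e p k * J k) log p ≥ x p ∑ J_k log (n k) = x p ∑ (J_k/d_k) (d_k log (n k)) ≥ x p (D/2) (m/8)`. Let `E p` be the smallest natural number
`≥ x p D m / (16 log p)`; `E p ≤ ∑_k e p k * J k`. `dvd_eval`, `sum_log_le`: `∑_p x p D m/16 ≤ ∑ E p log p ≤ log |Q(n)| ≤ 2 m D`. -/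
theorem final_ineq {m : ℕ} (hm : 0 < m) (S : Finset ℕ) (hS : ∀ p ∈ S, p.Prime) (x : ℕ → ℝ)
    (hx : ∀ p ∈ S, 0 ≤ x p) (D : ℝ) (hD : 0 < D) (d n : Fin m → ℕ) (hd' : ∀ k, 0 < d k)
    (hn : ∀ k, 1 ≤ n k) (hdl : ∀ k, D / 2 ≤ d k * Real.log (n k))
    (hdu : ∀ k, d k * Real.log (n k) ≤ D) (hds : ∀ k, (d k : ℝ) ≤ D / 2)
    (P : MvPolynomial (Fin m) ℤ) (hdeg : ∀ k, P.degreeOf k ≤ d k)
    (hL : Real.log (L1 P) ≤ D / 2) (a : ℕ → Fin m → ℤ)
    (hP : ∀ p ∈ S, OrdGe (fun k => (d k : ℝ)⁻¹) ((m : ℝ) / 4) (sh (a p) P))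
    (e : ℕ → Fin m → ℕ)
    (he : ∀ p ∈ S, ∀ k, x p * Real.log (n k) ≤ e p k * Real.log p ∧
      (p : ℤ) ^ e p k ∣ (n k : ℤ) - a p k)
    (I : Fin m →₀ ℕ) (hI : (sh (fun k => (n k : ℤ)) P).coeff I ≠ 0)
    (hwI : ∑ k, (d k : ℝ)⁻¹ * (I k : ℝ) ≤ (m : ℝ) / 8) : ∑ p ∈ S, x p ≤ 32 := by
  have hm1 : (1 : ℝ) ≤ m := by exact_mod_cast hm
  obtain ⟨Q, hQ⟩ : ∃ Q, Q = hd I P := ⟨_, rfl⟩
  obtain ⟨z, hz⟩ : ∃ z, z = eval (fun k => (n k : ℤ)) Q := ⟨_, rfl⟩
  have hz0 : z ≠ 0 := by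
    rw [hz, hQ, ← coeff_sh]
    exact hI
  have hP0 : P ≠ 0 := by
    intro h0
    apply hI
    rw [h0, map_zero, coeff_zero]
  have hL1 : 1 ≤ L1 P := one_le_L1 hP0
  have hnpos : ∀ k, (0 : ℝ) < n k := fun k => by exact_mod_cast hn k
  -- upper bound
  have hupper : Real.log |(z : ℝ)| ≤ 2 * m * D := by
    have h1 := abs_eval_le Q d (fun k => by
      rw [hQ]
      exact (degreeOf_hd_le I P k).trans (hdeg k)) n hn
    rw [← hz] at h1
    have h2 := L1_hd I P d hdeg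
    rw [← hQ] at h2
    have hprod : (0 : ℝ) < ∏ k, (n k : ℝ) ^ d k := Finset.prod_pos fun k _ => by
      have := hnpos k
      positivity
    have h3 : |(z : ℝ)| ≤ (2 ^ (∑ k, d k) * L1 P) * ∏ k, (n k : ℝ) ^ d k :=
      h1.trans (mul_le_mul_of_nonneg_right h2 hprod.le)
    have hzpos : 0 < |(z : ℝ)| := abs_pos.2 (by exact_mod_cast hz0)
    have h4 := Real.log_le_log hzpos h3
    have h2pos : (0 : ℝ) < 2 ^ (∑ k, d k) := by positivity
    rw [Real.log_mul (by positivity) hprod.ne', Real.log_mul h2pos.ne' (by positivity), Real.log_pow,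
      Real.log_prod (fun k _ => by
        have := hnpos k
        positivity)] at h4
    have h5 : ∑ k, Real.log ((n k : ℝ) ^ d k) ≤ m * D := by
      calc ∑ k, Real.log ((n k : ℝ) ^ d k) ≤ ∑ _k : Fin m, D := by
            refine Finset.sum_le_sum fun k _ => ?_
            rw [Real.log_pow]
            exact hdu k
        _ = m * D := by
            rw [Finset.sum_const, Finset.card_univ, Fintype.card_fin, nsmul_eq_mul]
    have h6 : ((∑ k, d k : ℕ) : ℝ) ≤ m * (D / 2) := by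
      push_cast
      calc ∑ k, (d k : ℝ) ≤ ∑ _k : Fin m, D / 2 := Finset.sum_le_sum fun k _ => hds k
        _ = m * (D / 2) := by
            rw [Finset.sum_const, Finset.card_univ, Fintype.card_fin, nsmul_eq_mul]
    have h7 : Real.log 2 ≤ 1 := by
      have := Real.log_two_lt_d9
      linarith
    have h8 : 0 < Real.log 2 := Real.log_pos (by norm_num)
    have h9 : ((∑ k, d k : ℕ) : ℝ) * Real.log 2 ≤ m * (D / 2) := by
      have h10 : (0 : ℝ) ≤ ((∑ k, d k : ℕ) : ℝ) := Nat.cast_nonneg _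
      calc ((∑ k, d k : ℕ) : ℝ) * Real.log 2 ≤ ((∑ k, d k : ℕ) : ℝ) * 1 := by gcongr
        _ ≤ m * (D / 2) := by linarith
    have h11 : D ≤ m * D := by nlinarith
    linarith
  -- lower bound
  have hlogp : ∀ p ∈ S, 0 < Real.log p := fun p hp =>
    Real.log_pos (by exact_mod_cast (hS p hp).one_lt)
  have hE : ∀ p ∈ S, (p : ℤ) ^ ⌈x p * D * m / (16 * Real.log p)⌉₊ ∣ z := by
    intro p hp
    rw [hz]
    apply dvd_eval (p : ℤ) Q (a p) (fun k => (n k : ℤ)) (e p) (fun k => (he p hp k).2)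
    intro J hJ
    have hlp := hlogp p hp
    apply Nat.ceil_le.2
    rw [div_le_iff₀ (by positivity)]
    have h1 : (m : ℝ) / 8 ≤ ∑ k, (d k : ℝ)⁻¹ * (J k : ℝ) := by
      have h2 := (hP p hp).hd I
      rw [hd_sh, ← hQ] at h2
      have h3 := h2 J hJ
      linarith
    have h2 : x p * (D / 2) * (∑ k, (d k : ℝ)⁻¹ * (J k : ℝ)) ≤
        ∑ k, ((e p k : ℝ) * J k) * Real.log p := by
      rw [Finset.mul_sum]
      refine Finset.sum_le_sum fun k _ => ?_
      have hdk : (0 : ℝ) < d k := by exact_mod_cast hd' k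
      have hxp := hx p hp
      have hJ0 : (0 : ℝ) ≤ J k := Nat.cast_nonneg _
      have g1 := (he p hp k).1
      calc x p * (D / 2) * ((d k : ℝ)⁻¹ * (J k : ℝ))
          ≤ x p * (d k * Real.log (n k)) * ((d k : ℝ)⁻¹ * (J k : ℝ)) := by
            have := hdl k
            gcongr
        _ = (x p * Real.log (n k)) * J k := by
            field_simp
        _ ≤ ((e p k : ℝ) * Real.log p) * J k := by gcongr
        _ = ((e p k : ℝ) * J k) * Real.log p := by ring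
    rw [← Finset.sum_mul] at h2
    have hxp := hx p hp
    have h3 : x p * (D / 2) * ((m : ℝ) / 8) ≤
        x p * (D / 2) * (∑ k, (d k : ℝ)⁻¹ * (J k : ℝ)) := by gcongr
    push_cast
    nlinarith
  have hsum := sum_log_le S hS (fun p => ⌈x p * D * m / (16 * Real.log p)⌉₊) z hz0 hE
  have hlow : (∑ p ∈ S, x p) * (D * m / 16) ≤
      ∑ p ∈ S, ((⌈x p * D * m / (16 * Real.log p)⌉₊ : ℕ) : ℝ) * Real.log p := by
    rw [Finset.sum_mul]
    refine Finset.sum_le_sum fun p hp => ?_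
    have hlp := hlogp p hp
    have h1 : x p * D * m / (16 * Real.log p) ≤ (⌈x p * D * m / (16 * Real.log p)⌉₊ : ℝ) :=
      Nat.le_ceil _
    calc x p * (D * m / 16) = (x p * D * m / (16 * Real.log p)) * Real.log p := by
          field_simp
      _ ≤ _ := by gcongr
  have hfin : (∑ p ∈ S, x p) * (D * m / 16) ≤ 2 * m * D := hlow.trans (hsum.trans hupper)
  have hDm : 0 < D * m / 16 := by positivity
  have h32 : 2 * m * D = 32 * (D * m / 16) := by ring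
  rw [h32] at hfin
  exact le_of_mul_le_mul_right hfin hDm

end HK
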