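import Pool.Agent.HK.A10
import Pool.Agent.HK.B3
import Pool.Agent.HK.C1

set_option autoImplicit false

open MvPolynomial

namespace HK

/-- [HK-C2] rapidly growing finite sequences, in decreasing order (`n 0` is the largest) -/
theorem exists_fast (A : ℕ → Prop) (hA : ∀ N, ∃ n, N ≤ n ∧ A n) (m : ℕ) (R : ℝ) (N₀ : ℕ) :
    ∃ n : Fin m → ℕ, (∀ k, N₀ ≤ n k ∧ A (n k)) ∧
      ∀ k l, k < l → R * Real.log (n l) ≤ Real.log (n k) := by
  induction m with
  | zero => exact ⟨fun k => k.elim0, fun k => k.elim0, fun k => k.elim0⟩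
  | succ m ih =>
    obtain ⟨n, hn1, hn2⟩ := ih
    obtain ⟨X, hX⟩ : ∃ X, X = ∑ l, |R * Real.log (n l)| := ⟨_, rfl⟩
    obtain ⟨n0, h0, hA0⟩ := hA (max N₀ ⌈Real.exp X⌉₊)
    have h1 : X ≤ Real.log n0 := by
      rw [Real.le_log_iff_exp_le]
      · exact (Nat.le_ceil _).trans (by exact_mod_cast (le_max_right _ _).trans h0)
      · have h2 : 0 < ⌈Real.exp X⌉₊ := Nat.ceil_pos.2 (Real.exp_pos X)
        have h3 := (le_max_right N₀ _).trans h0
        exact_mod_cast lt_of_lt_of_le h2 h3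
    refine ⟨Fin.cons n0 n, ?_, ?_⟩
    · intro k
      refine Fin.cases ?_ ?_ k
      · exact ⟨(le_max_left _ _).trans h0, hA0⟩
      · intro k
        exact hn1 k
    · intro k l hkl
      obtain ⟨l', rfl⟩ : ∃ l', l = Fin.succ l' :=
        Fin.exists_succ_eq.2 (Fin.pos_iff_ne_zero.1 (lt_of_le_of_lt (Fin.zero_le _) hkl)) |>.imp
          fun _ h => h.symm
      rw [Fin.cons_succ]
      rcases Fin.eq_zero_or_eq_succ k with rfl | ⟨k', rfl⟩
      · rw [Fin.cons_zero]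
        refine (le_abs_self _).trans (le_trans ?_ h1)
        rw [hX]
        exact Finset.single_le_sum (f := fun l => |R * Real.log (n l)|)
          (fun _ _ => abs_nonneg _) (Finset.mem_univ l')
      · rw [Fin.cons_succ]
        exact hn2 k' l' (Fin.succ_lt_succ_iff.1 hkl)

/-- [HK-C2] The theorem of Roth-Ridout type with moving integral targets. -/
theorem roth_ridout (S : Finset ℕ) (hS : ∀ p ∈ S, p.Prime) (x : ℕ → ℝ) (hx : ∀ p ∈ S, 0 ≤ x p)
    (hsum : 32 < ∑ p ∈ S, x p) :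
    ∃ (η : ℝ) (N : ℕ), 0 < η ∧ ∀ n : ℕ, N ≤ n → ¬ ∃ j : ℕ → ℤ,
      (∀ p ∈ S, |(j p : ℝ)| ≤ (n : ℝ) ^ η) ∧
      ∀ p ∈ S, ∃ e : ℕ, x p * Real.log n ≤ e * Real.log p ∧ (p : ℤ) ^ e ∣ (n : ℤ) - j p := by
  have hSne : S.Nonempty := by
    rw [Finset.nonempty_iff_ne_empty]
    rintro rfl
    simp at hsum
    linarith
  have hcard : 0 < S.card := Finset.card_pos.2 hSne
  obtain ⟨m, hm⟩ : ∃ m, m = 8 * S.card := ⟨_, rfl⟩
  have hm0 : 0 < m := by omega
  have hm8 : (8 : ℝ) ≤ m := by exact_mod_cast (by omega : 8 ≤ m)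
  have hmR : (0 : ℝ) < m := by linarith
  obtain ⟨τ₀, hτ₀, hRL⟩ := roth_lemma m 1 one_pos
  obtain ⟨τ, hτ⟩ : ∃ τ, τ = min τ₀ 1 := ⟨_, rfl⟩
  have hτ0 : 0 < τ := by rw [hτ]; exact lt_min hτ₀ one_pos
  have hττ₀ : τ ≤ τ₀ := by rw [hτ]; exact min_le_left _ _
  have hτ1 : τ ≤ 1 := by rw [hτ]; exact min_le_right _ _
  obtain ⟨η, hη⟩ : ∃ η, η = τ / (8 * m) := ⟨_, rfl⟩
  have hη0 : 0 < η := by rw [hη]; positivity
  by_contra hcon
  have hA : ∀ N : ℕ, ∃ n : ℕ, N ≤ n ∧ ∃ j : ℕ → ℤ,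
      (∀ p ∈ S, |(j p : ℝ)| ≤ (n : ℝ) ^ η) ∧
      ∀ p ∈ S, ∃ e : ℕ, x p * Real.log n ≤ e * Real.log p ∧ (p : ℤ) ^ e ∣ (n : ℤ) - j p := by
    intro N
    by_contra hno
    apply hcon
    refine ⟨η, N, hη0, fun n hn hj => hno ⟨n, hn, hj⟩⟩
  clear hcon
  obtain ⟨n, hn1, hn2⟩ := exists_fast _ hA m (2 / τ) (max 2 ⌈Real.exp (4 / τ + Real.log 16 / η)⌉₊)
  have hlog : ∀ k, 4 / τ + Real.log 16 / η ≤ Real.log (n k) := by
    intro k
    have h0 := (le_max_right 2 _).trans (hn1 k).1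
    rw [Real.le_log_iff_exp_le]
    · exact (Nat.le_ceil _).trans (by exact_mod_cast h0)
    · exact_mod_cast lt_of_lt_of_le (Nat.ceil_pos.2 (Real.exp_pos _)) h0
  have hlog16 : 0 < Real.log 16 := Real.log_pos (by norm_num)
  have hlog4 : ∀ k, 4 / τ ≤ Real.log (n k) := by
    intro k
    have h1 := hlog k
    have h2 : 0 < Real.log 16 / η := by positivity
    linarith
  have hlogη : ∀ k, Real.log 16 ≤ η * Real.log (n k) := by
    intro k
    have h1 := hlog k
    have h2 : 0 < 4 / τ := by positivity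
    have h3 : Real.log 16 / η ≤ Real.log (n k) := by linarith
    rw [div_le_iff₀ hη0] at h3
    linarith
  have hlog0 : ∀ k, 0 < Real.log (n k) := fun k =>
    lt_of_lt_of_le (by positivity) (hlog4 k)
  have hn2' : ∀ k, 2 ≤ n k := fun k => (le_max_left _ _).trans (hn1 k).1
  choose j hj using fun k => (hn1 k).2
  -- the parameter D
  obtain ⟨D, hD⟩ : ∃ D, D = 2 * ∑ k, Real.log (n k) := ⟨_, rfl⟩
  have hDk : ∀ k, 2 * Real.log (n k) ≤ D := by
    intro k
    rw [hD]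
    have := Finset.single_le_sum (f := fun k => Real.log (n k)) (fun k _ => (hlog0 k).le)
      (Finset.mem_univ k)
    linarith
  have k₀ : Fin m := ⟨0, hm0⟩
  have hD0 : 0 < D := lt_of_lt_of_le (by have := hlog0 k₀; linarith) (hDk k₀)
  obtain ⟨d, hd⟩ : ∃ d : Fin m → ℕ, d = fun k => ⌊D / Real.log (n k)⌋₊ := ⟨_, rfl⟩
  have hdle : ∀ k, (d k : ℝ) ≤ D / Real.log (n k) := by
    intro k
    rw [hd]
    exact Nat.floor_le (div_nonneg hD0.le (hlog0 k).le)
  have hdu : ∀ k, d k * Real.log (n k) ≤ D := by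
    intro k
    have := hdle k
    rwa [le_div_iff₀ (hlog0 k)] at this
  have hdl : ∀ k, D / 2 ≤ d k * Real.log (n k) := by
    intro k
    have h1 : D / Real.log (n k) < d k + 1 := by
      rw [hd]
      exact Nat.lt_floor_add_one _
    rw [div_lt_iff₀ (hlog0 k)] at h1
    have := hDk k
    nlinarith
  have hdpos : ∀ k, 0 < d k := by
    intro k
    rcases Nat.eq_zero_or_pos (d k) with h0 | h0
    · have := hdl k
      rw [h0] at this
      simp at this
      linarith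
    · exact h0
  have hdτ : ∀ k, (d k : ℝ) ≤ τ * D / 4 := by
    intro k
    refine (hdle k).trans ?_
    rw [div_le_iff₀ (hlog0 k)]
    have h1 := hlog4 k
    rw [div_le_iff₀ hτ0] at h1
    nlinarith
  have hdd : ∀ k l, k < l → (d k : ℝ) ≤ τ * d l := by
    intro k l hkl
    have h1 := hn2 k l hkl
    have h2 := hdl l
    refine (hdle k).trans ?_
    rw [div_le_iff₀ (hlog0 k)]
    have h3 : Real.log (n l) ≤ τ / 2 * Real.log (n k) := by
      have : 2 / τ * Real.log (n l) ≤ Real.log (n k) := h1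
      rw [div_mul_eq_mul_div, div_le_iff₀ hτ0] at this
      linarith
    have h4 : (0 : ℝ) ≤ d l := by positivity
    have h5 := mul_le_mul_of_nonneg_left h3 h4
    nlinarith
  -- the auxiliary polynomial
  have : Nonempty S := hSne.to_subtype
  have hT1 : ∀ k, (1 : ℝ) ≤ (n k : ℝ) ^ η := by
    intro k
    apply Real.one_le_rpow _ hη0.le
    have := hn2' k
    exact_mod_cast (by omega : 1 ≤ n k)
  obtain ⟨P, hP0, hPdeg, hPL, hPord⟩ := aux_poly (m := m) (ι := S) (by simp [hm]) d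
    (fun k => ⌈(n k : ℝ) ^ η⌉₊) hdpos
    (fun k => Nat.ceil_pos.2 (lt_of_lt_of_le one_pos (hT1 k))) (fun p k => j k p)
    (by
      intro p k
      have h1 := (hj k).1 p p.2
      have h2 := h1.trans (Nat.le_ceil _)
      exact_mod_cast h2)
  have hLP : Real.log (L1 P) ≤ τ * D / 4 := by
    have h1 : (0 : ℝ) < L1 P := lt_of_lt_of_le one_pos (one_le_L1 hP0)
    have h2 := Real.log_le_log h1 hPL
    have h3 : ∀ k, 0 < 8 * ((⌈(n k : ℝ) ^ η⌉₊ : ℕ) : ℝ) := by
      intro k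
      have : 0 < ⌈(n k : ℝ) ^ η⌉₊ := Nat.ceil_pos.2 (lt_of_lt_of_le one_pos (hT1 k))
      positivity
    rw [Real.log_prod (fun k _ => (pow_pos (h3 k) _).ne')] at h2
    refine h2.trans ?_
    have h4 : ∀ k, Real.log ((8 * ((⌈(n k : ℝ) ^ η⌉₊ : ℕ) : ℝ)) ^ d k) ≤ 2 * η * D := by
      intro k
      rw [Real.log_pow]
      have h5 : 8 * ((⌈(n k : ℝ) ^ η⌉₊ : ℕ) : ℝ) ≤ 16 * (n k : ℝ) ^ η := by
        have h6 := (Nat.ceil_lt_add_one (le_trans zero_le_one (hT1 k))).le
        have h7 := hT1 k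
        linarith
      have hnk : (0 : ℝ) < n k := by
        have := hn2' k
        exact_mod_cast (by omega : 0 < n k)
      have h6 := Real.log_le_log (h3 k) h5
      rw [Real.log_mul (x := 16) (by norm_num) (by positivity), Real.log_rpow hnk] at h6
      have h7 := hlogη k
      have h8 : Real.log (8 * ((⌈(n k : ℝ) ^ η⌉₊ : ℕ) : ℝ)) ≤ 2 * η * Real.log (n k) := by linarith
      calc (d k : ℝ) * Real.log (8 * ((⌈(n k : ℝ) ^ η⌉₊ : ℕ) : ℝ))
          ≤ (d k : ℝ) * (2 * η * Real.log (n k)) := mul_le_mul_of_nonneg_left h8 (by positivity)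
        _ = 2 * η * (d k * Real.log (n k)) := by ring
        _ ≤ 2 * η * D := mul_le_mul_of_nonneg_left (hdu k) (by positivity)
    calc _ ≤ ∑ _k : Fin m, 2 * η * D := Finset.sum_le_sum fun k _ => h4 k
      _ = m * (2 * η * D) := by simp
      _ = τ * D / 4 := by
        rw [hη]
        field_simp
        ring
  have hτD : 0 < τ * D := by positivity
  -- Roth's lemma
  obtain ⟨I, hI1, hI2⟩ := hRL d n (D / 2) P (by positivity) hdpos
    (fun k l hkl => (hdd k l hkl).trans (mul_le_mul_of_nonneg_right hττ₀ (by positivity)))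
    (fun k => by
      have h1 := hdτ k
      have h2 : τ * D ≤ τ₀ * D := mul_le_mul_of_nonneg_right hττ₀ hD0.le
      linarith)
    hn2' hdl hP0 hPdeg
    (by
      have h2 : τ * D ≤ τ₀ * D := mul_le_mul_of_nonneg_right hττ₀ hD0.le
      linarith)
  -- final inequality
  have hτD1 : τ * D ≤ D := by nlinarith
  choose e he using fun k p (hp : p ∈ S) => (hj k).2 p hp
  have hfin := final_ineq hm0 S hS x hx D hD0 d n hdpos
    (fun k => le_trans (by norm_num) (hn2' k)) hdl hdu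
    (fun k => by have := hdτ k; linarith) P hPdeg (by linarith) (fun p k => j k p)
    (fun p hp => hPord ⟨p, hp⟩) (fun p k => if hp : p ∈ S then e k p hp else 0)
    (by
      intro p hp k
      simp only [dif_pos hp]
      exact he k p hp)
    I hI1 (by linarith)
  linarith

end HK
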