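import Mathlib
import Pool.Prelude.Def_F_f774535e

set_option autoImplicit false

open scoped Nat

namespace HK

/-- [HK-D1] basic facts on non-trivial solutions.
PROOF. `s.2 ≠ []` (otherwise `headI = 0 < n - 1` and `n ! = 1`). `a` is the head. `n ! / a ! = n.descFactorial (n - a)`. By Bertrand's postulate
(`Nat.exists_prime_lt_and_le_two_mul` for `n/2`) there is a prime `p` with `n/2 < p ≤ n`; it divides `n !`, hence some `b !` with `b ∈ s.2`, `p ≤ b ≤ a`. -/
theorem S_basic {s : ℕ × List ℕ} (hs : s ∈ N2e4138ab.S) :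
    ∃ (a : ℕ) (l : List ℕ), s.2 = a :: l ∧ a + 2 ≤ s.1 ∧ s.1 < 2 * a ∧
      (∀ b ∈ l, 2 ≤ b ∧ b ≤ a) ∧ l ≠ [] ∧
      s.1.descFactorial (s.1 - a) = (l.map Nat.factorial).prod := by
  obtain ⟨n, L⟩ := s
  obtain ⟨h1, h2, h3, h4⟩ := hs
  cases L with
  | nil =>
    exfalso
    simp only [List.headI_nil, List.map_nil, List.prod_nil] at h1 h3
    have hn : 2 ≤ n := by
      have : (default : ℕ) = 0 := rfl
      omega
    have := Nat.factorial_le hn
    simp at this
    omega
  | cons a l =>
    simp only [List.headI_cons] at h3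
    have ha2 : 2 ≤ a := h4 a (by simp)
    have han : a + 2 ≤ n := by omega
    have hle : ∀ b ∈ l, b ≤ a := fun b hb => by
      rw [List.pairwise_cons] at h2
      exact h2.1 b hb
    have hdesc : a ! * n.descFactorial (n - a) = n ! := by
      have := Nat.factorial_mul_descFactorial (n := n) (k := n - a) (Nat.sub_le _ _)
      rwa [show n - (n - a) = a by omega] at this
    have hprod : n.descFactorial (n - a) = (l.map Nat.factorial).prod := by
      rw [h1, List.map_cons, List.prod_cons] at hdesc
      exact Nat.eq_of_mul_eq_mul_left (Nat.factorial_pos a) hdesc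
    refine ⟨a, l, rfl, han, ?_, fun b hb => ⟨h4 b (by simp [hb]), hle b hb⟩, ?_, hprod⟩
    · obtain ⟨p, hp, hlt, hle2⟩ := Nat.exists_prime_lt_and_le_two_mul (n / 2) (by omega)
      have hpn : p ≤ n := by omega
      have hdvd : p ∣ ((a :: l).map Nat.factorial).prod := by
        rw [← h1]; exact (Nat.Prime.dvd_factorial hp).2 hpn
      rw [hp.prime.dvd_prod_iff] at hdvd
      obtain ⟨c, hc, hpc⟩ := hdvd
      rw [List.mem_map] at hc
      obtain ⟨b, hb, rfl⟩ := hc
      have hpb : p ≤ b := (Nat.Prime.dvd_factorial hp).1 hpc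
      have hba : b ≤ a := by
        rw [List.mem_cons] at hb
        rcases hb with rfl | hb
        · exact le_rfl
        · exact hle b hb
      show n < 2 * a
      omega
    · rintro rfl
      have : a ! = n ! := by rw [h1]; simp
      have h5 : (a + 1)! ≤ n ! := Nat.factorial_le (by omega)
      rw [Nat.factorial_succ, ← this] at h5
      have := Nat.factorial_pos a
      nlinarith

end HK
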