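import Mathlib

set_option autoImplicit false

open scoped Nat

namespace HK

private theorem d2_even (c : ℕ) : padicValNat 2 (2 * c)! = padicValNat 2 c ! + c :=
  padicValNat_factorial_mul c

private theorem d2_odd (c : ℕ) : padicValNat 2 (2 * c + 1)! = padicValNat 2 c ! + c := by
  rw [padicValNat_factorial_mul_add c (by norm_num : 1 < 2), padicValNat_factorial_mul c]

private theorem d2_binom (m k : ℕ) :
    m ^ (k + 2) + 2 * (k + 2) * m ^ (k + 1) + 2 * (k + 2) * (k + 1) * m ^ k ≤ (m + 2) ^ (k + 2) := by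
  induction k with
  | zero =>
    simp only [zero_add, pow_one, pow_zero]
    nlinarith
  | succ k ih =>
    calc m ^ (k + 1 + 2) + 2 * (k + 1 + 2) * m ^ (k + 1 + 1) + 2 * (k + 1 + 2) * (k + 1 + 1) * m ^ (k + 1)
        ≤ (m ^ (k + 2) + 2 * (k + 2) * m ^ (k + 1) + 2 * (k + 2) * (k + 1) * m ^ k) * (m + 2) := by
          have e1 : m ^ (k + 1 + 2) = m ^ k * m ^ 3 := by ring
          have e2 : m ^ (k + 1 + 1) = m ^ k * m ^ 2 := by ring
          have e3 : m ^ (k + 1) = m ^ k * m := by ring
          rw [e1, e2, e3]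
          have : (m ^ k * m ^ 2 + 2 * (k + 2) * (m ^ k * m) + 2 * (k + 2) * (k + 1) * m ^ k) * (m + 2) =
            m ^ k * m ^ 3 + 2 * (k + 1 + 2) * (m ^ k * m ^ 2) + 2 * (k + 1 + 2) * (k + 1 + 1) * (m ^ k * m) +
              4 * (k + 2) * (k + 1) * m ^ k := by ring
          rw [this]
          exact Nat.le_add_right _ _
      _ ≤ (m + 2) ^ (k + 2) * (m + 2) := Nat.mul_le_mul_right _ ih
      _ = (m + 2) ^ (k + 1 + 2) := by ring

private theorem d2_two (c : ℕ) (hc : 3 ≤ c) : 2 * (2 * c + 1) ^ c ≤ (2 * c + 3) ^ c := by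
  obtain ⟨k, rfl⟩ : ∃ k, c = k + 2 := ⟨c - 2, by omega⟩
  have h := d2_binom (2 * (k + 2) + 1) k
  refine le_trans ?_ h
  set m := 2 * (k + 2) + 1 with hm
  have e1 : m ^ (k + 2) = m ^ k * m ^ 2 := by ring
  have e2 : m ^ (k + 1) = m ^ k * m := by ring
  rw [e1, e2]
  have h2 : m ^ 2 ≤ 2 * (k + 2) * m + 2 * (k + 2) * (k + 1) := by
    rw [hm]
    have hk : 1 ≤ k := by omega
    nlinarith
  calc 2 * (m ^ k * m ^ 2) = m ^ k * m ^ 2 + m ^ k * m ^ 2 := by ring
    _ ≤ m ^ k * m ^ 2 + m ^ k * (2 * (k + 2) * m + 2 * (k + 2) * (k + 1)) :=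
        Nat.add_le_add_left (Nat.mul_le_mul_left _ h2) _
    _ = _ := by ring

private theorem d2_big (c : ℕ) (hc : 10 ≤ c) : (2 * c + 1)! ≤ c ! * (2 * c + 1) ^ c := by
  induction c, hc using Nat.le_induction with
  | base => norm_num [Nat.factorial]
  | succ c hc ih =>
    have e1 : (2 * (c + 1) + 1)! = (2 * c + 3) * ((2 * c + 2) * (2 * c + 1)!) := by
      rw [show 2 * (c + 1) + 1 = (2 * c + 1) + 1 + 1 by ring, Nat.factorial_succ, Nat.factorial_succ]
    have e2 : (c + 1)! = (c + 1) * c ! := Nat.factorial_succ c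
    have h2 := d2_two c (by omega)
    rw [e1, e2]
    calc (2 * c + 3) * ((2 * c + 2) * (2 * c + 1)!)
        ≤ (2 * c + 3) * ((2 * c + 2) * (c ! * (2 * c + 1) ^ c)) := by gcongr
      _ = (2 * c + 3) * ((c + 1) * (c ! * (2 * (2 * c + 1) ^ c))) := by ring
      _ ≤ (2 * c + 3) * ((c + 1) * (c ! * (2 * c + 3) ^ c)) := by gcongr
      _ = (c + 1) * c ! * (2 * (c + 1) + 1) ^ (c + 1) := by ring

private theorem d2_v1 : padicValNat 2 (1)! = 0 := by simp
private theorem d2_v2 : padicValNat 2 (2)! = 1 := by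
  have := d2_even 1; rw [d2_v1] at this; exact this
private theorem d2_v3 : padicValNat 2 (3)! = 1 := by
  have := d2_odd 1; rw [d2_v1] at this; exact this
private theorem d2_v4 : padicValNat 2 (4)! = 3 := by
  have := d2_even 2; rw [d2_v2] at this; exact this
private theorem d2_v5 : padicValNat 2 (5)! = 3 := by
  have := d2_odd 2; rw [d2_v2] at this; exact this
private theorem d2_v6 : padicValNat 2 (6)! = 4 := by
  have := d2_even 3; rw [d2_v3] at this; exact this
private theorem d2_v7 : padicValNat 2 (7)! = 4 := by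
  have := d2_odd 3; rw [d2_v3] at this; exact this
private theorem d2_v8 : padicValNat 2 (8)! = 7 := by
  have := d2_even 4; rw [d2_v4] at this; exact this
private theorem d2_v9 : padicValNat 2 (9)! = 7 := by
  have := d2_odd 4; rw [d2_v4] at this; exact this
private theorem d2_v11 : padicValNat 2 (11)! = 8 := by
  have := d2_odd 5; rw [d2_v5] at this; exact this
private theorem d2_v13 : padicValNat 2 (13)! = 10 := by
  have := d2_odd 6; rw [d2_v6] at this; exact this
private theorem d2_v15 : padicValNat 2 (15)! = 11 := by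
  have := d2_odd 7; rw [d2_v7] at this; exact this
private theorem d2_v17 : padicValNat 2 (17)! = 15 := by
  have := d2_odd 8; rw [d2_v8] at this; exact this
private theorem d2_v19 : padicValNat 2 (19)! = 16 := by
  have := d2_odd 9; rw [d2_v9] at this; exact this

/-- [HK-D2] PROOF. Strong induction on `b`. Even `b = 2c`: `(2c)! = (c+1)...(2c) * c! ≤ A^c * c!`, `v₂((2c)!) = c + v₂(c!)`; for `c = 1` trivial. Odd
`b = 2c + 1`: for `c ≤ 9` check directly (`b ≤ 19`: `3! ≤ 9`, `5! ≤ 9^3`, `7! ≤ 9^4`, `9! ≤ 9^7`, `11! ≤ 11^8`, `13! ≤ 13^10`, `15! ≤ 15^11`,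
`17! ≤ 17^15`, `19! ≤ 19^16`); for `c ≥ 10`, `(c+1)(c+2)...(2c+1) ≤ (2c+1)^c` by induction on `c` (the left side is multiplied by `2(2c+3)`, the right side by
`(2c+3) (1 + 2/(2c+1))^c ≥ 2 (2c+3)`), and `v₂((2c+1)!) = c + v₂(c!)`. -/
theorem factorial_le_pow {b A : ℕ} (hb : 2 ≤ b) (hbA : b ≤ A) (hA : 9 ≤ A) :
    b ! ≤ A ^ (padicValNat 2 b !) := by
  induction b using Nat.strong_induction_on with
  | _ b ih =>
    have hc : ∀ c, 1 ≤ c → c < b → c ! ≤ A ^ (padicValNat 2 c !) := by
      intro c hc1 hcb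
      rcases Nat.lt_or_ge 1 c with h | h
      · exact ih c hcb h (by omega)
      · have : c = 1 := by omega
        subst this
        simp
    rcases Nat.even_or_odd' b with ⟨c, hc1 | hc1⟩
    · subst hc1
      rw [d2_even]
      have h1 : (2 * c)! ≤ c ! * (2 * c) ^ c := by
        have h2 := Nat.factorial_mul_descFactorial (n := 2 * c) (k := c) (by omega)
        rw [show 2 * c - c = c by omega] at h2
        rw [← h2]
        exact Nat.mul_le_mul_left _ (Nat.descFactorial_le_pow _ _)
      calc (2 * c)! ≤ c ! * (2 * c) ^ c := h1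
        _ ≤ A ^ (padicValNat 2 c !) * A ^ c :=
            Nat.mul_le_mul (hc c (by omega) (by omega)) (Nat.pow_le_pow_left hbA c)
        _ = A ^ (padicValNat 2 c ! + c) := by rw [pow_add]
    · subst hc1
      rcases Nat.lt_or_ge c 10 with h10 | h10
      · have hm : ∀ (B n v : ℕ), B ≤ A → n ≤ B ^ v → n ≤ A ^ v := fun B n v h1 h2 =>
          h2.trans (Nat.pow_le_pow_left h1 v)
        have hc0 : 1 ≤ c := by omega
        interval_cases c
        · rw [show 2 * 1 + 1 = 3 by norm_num, d2_v3]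
          exact hm 9 _ _ hA (by norm_num [Nat.factorial])
        · rw [show 2 * 2 + 1 = 5 by norm_num, d2_v5]
          exact hm 9 _ _ hA (by norm_num [Nat.factorial])
        · rw [show 2 * 3 + 1 = 7 by norm_num, d2_v7]
          exact hm 9 _ _ hA (by norm_num [Nat.factorial])
        · rw [show 2 * 4 + 1 = 9 by norm_num, d2_v9]
          exact hm 9 _ _ hA (by norm_num [Nat.factorial])
        · rw [show 2 * 5 + 1 = 11 by norm_num, d2_v11]
          exact hm 11 _ _ hbA (by norm_num [Nat.factorial])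
        · rw [show 2 * 6 + 1 = 13 by norm_num, d2_v13]
          exact hm 13 _ _ hbA (by norm_num [Nat.factorial])
        · rw [show 2 * 7 + 1 = 15 by norm_num, d2_v15]
          exact hm 15 _ _ hbA (by norm_num [Nat.factorial])
        · rw [show 2 * 8 + 1 = 17 by norm_num, d2_v17]
          exact hm 17 _ _ hbA (by norm_num [Nat.factorial])
        · rw [show 2 * 9 + 1 = 19 by norm_num, d2_v19]
          exact hm 19 _ _ hbA (by norm_num [Nat.factorial])
      · rw [d2_odd]
        calc (2 * c + 1)! ≤ c ! * (2 * c + 1) ^ c := d2_big c h10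
          _ ≤ A ^ (padicValNat 2 c !) * A ^ c :=
              Nat.mul_le_mul (hc c (by omega) (by omega)) (Nat.pow_le_pow_left hbA c)
          _ = A ^ (padicValNat 2 c ! + c) := by rw [pow_add]

/-- [HK-D2] (`b - s₂(b) = v₂(b!)`, `s₂(b) ≤ log₂ b + 1`: `sub_one_mul_padicValNat_factorial`) -/
theorem le_val_add_log (b : ℕ) : b ≤ padicValNat 2 b ! + (Nat.log 2 b + 1) := by
  induction b using Nat.strong_induction_on with
  | _ b ih =>
    rcases Nat.lt_or_ge b 2 with h | h
    · have : b ≤ 1 := by omega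
      omega
    · have hl : Nat.log 2 b = Nat.log 2 (b / 2) + 1 := by
        rw [Nat.log_of_one_lt_of_le (by norm_num) h]
      rcases Nat.even_or_odd' b with ⟨c, hc | hc⟩
      · have h1 := ih c (by omega)
        have hbc : b / 2 = c := by omega
        rw [hl, hbc, hc, d2_even]
        omega
      · have h1 := ih c (by omega)
        have hbc : b / 2 = c := by omega
        rw [hl, hbc, hc, d2_odd]
        omega

/-- [HK-D2] -/
theorem le_three_val {b : ℕ} (hb : 2 ≤ b) : b ≤ 3 * padicValNat 2 b ! := by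
  rcases Nat.even_or_odd' b with ⟨c, hc | hc⟩
  · rw [hc, d2_even]; omega
  · rw [hc, d2_odd]; omega

private theorem d2_le (b : ℕ) : padicValNat 2 b ! ≤ b := by
  have h := sub_one_mul_padicValNat_factorial (p := 2) b
  simp only [Nat.add_one_sub_one, one_mul] at h
  rw [h]
  exact Nat.sub_le _ _

/-- [HK-D2] `v₂(n!/a!) = (n - a) + s₂(a) - s₂(n) ≤ (n - a) + log₂ n + 1` -/
theorem val_descFactorial_le {n a : ℕ} (ha : a ≤ n) (hn : 0 < n) :
    padicValNat 2 (n.descFactorial (n - a)) ≤ (n - a) + (Nat.log 2 n + 1) := by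
  have h1 := Nat.factorial_mul_descFactorial (n := n) (k := n - a) (Nat.sub_le _ _)
  rw [Nat.sub_sub_self ha] at h1
  have hd : n.descFactorial (n - a) ≠ 0 := by
    intro h0
    rw [h0, mul_zero] at h1
    exact Nat.factorial_ne_zero n h1.symm
  have h2 : padicValNat 2 n ! = padicValNat 2 a ! + padicValNat 2 (n.descFactorial (n - a)) := by
    rw [← h1, padicValNat.mul (Nat.factorial_ne_zero a) hd]
  have h3 := d2_le n
  have h4 := le_val_add_log a
  have h5 : Nat.log 2 a ≤ Nat.log 2 n := Nat.log_mono_right ha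
  omega

/-- [HK-D2] valuation of a product over a list -/
theorem val_prod (p : ℕ) (hp : p.Prime) (l : List ℕ) :
    padicValNat p (l.map Nat.factorial).prod = (l.map fun b => padicValNat p b !).sum := by
  have : Fact p.Prime := ⟨hp⟩
  induction l with
  | nil => simp
  | cons b l ih =>
    have h : (l.map Nat.factorial).prod ≠ 0 := by
      apply List.prod_ne_zero
      intro h0
      obtain ⟨c, -, hc⟩ := List.mem_map.mp h0
      exact Nat.factorial_ne_zero c hc
    rw [List.map_cons, List.prod_cons, List.map_cons, List.sum_cons,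
      padicValNat.mul (Nat.factorial_ne_zero b) h, ih]

end HK
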