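import Mathlib

set_option autoImplicit false

open scoped Nat

namespace HK

/-- [HK-D3] PROOF. All `t` factors `n - i` are `≥ n/2`, and the at least `t/2` factors with `i ≤ t/2` are `≥ 3n/4 = (n/2)(3/2)`. -/
theorem log_descFactorial_ge {n t : ℕ} (ht : 0 < t) (htn : 2 * t < n) :
    (t : ℝ) * Real.log ((n : ℝ) / 2) + (t : ℝ) / 2 * Real.log (3 / 2) ≤
      Real.log (n.descFactorial t : ℝ) := by
  have hn : (0 : ℝ) < n := by
    have : 0 < n := by omega
    exact_mod_cast this
  have hlog : 0 < Real.log (3 / 2) := Real.log_pos (by norm_num)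
  rw [Nat.descFactorial_eq_prod_range, Nat.cast_prod, Real.log_prod]
  swap
  · intro i hi
    have h1 := Finset.mem_range.1 hi
    have : n - i ≠ 0 := by omega
    exact_mod_cast this
  have hterm : ∀ i ∈ Finset.range t, Real.log ((n : ℝ) / 2) + (if 2 * i ≤ t then Real.log (3 / 2) else 0) ≤
      Real.log ((n - i : ℕ) : ℝ) := by
    intro i hi
    have h1 := Finset.mem_range.1 hi
    have h2 : ((n - i : ℕ) : ℝ) = n - i := by
      rw [Nat.cast_sub (by omega)]
    rw [h2]
    split_ifs with h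
    · rw [← Real.log_mul (by positivity) (by norm_num)]
      refine Real.log_le_log (by positivity) ?_
      have h3 : ((4 * i : ℕ) : ℝ) ≤ (n : ℝ) := by
        have : 4 * i ≤ n := by omega
        exact_mod_cast this
      push_cast at h3
      linarith
    · rw [add_zero]
      refine Real.log_le_log (by positivity) ?_
      have h3 : ((2 * i : ℕ) : ℝ) ≤ (n : ℝ) := by
        have : 2 * i ≤ n := by omega
        exact_mod_cast this
      push_cast at h3
      linarith
  refine le_trans ?_ (Finset.sum_le_sum hterm)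
  rw [Finset.sum_add_distrib, Finset.sum_const, Finset.card_range, nsmul_eq_mul, ← Finset.sum_filter,
    Finset.sum_const, nsmul_eq_mul]
  have hcard : t ≤ 2 * ((Finset.range t).filter fun i => 2 * i ≤ t).card := by
    have hsub : Finset.range (t / 2 + t % 2) ⊆ (Finset.range t).filter fun i => 2 * i ≤ t := by
      intro i hi
      rw [Finset.mem_range] at hi
      rw [Finset.mem_filter, Finset.mem_range]
      omega
    have h1 := Finset.card_le_card hsub
    rw [Finset.card_range] at h1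
    omega
  have hcard' : (t : ℝ) / 2 ≤ (((Finset.range t).filter fun i => 2 * i ≤ t).card : ℝ) := by
    have : (t : ℝ) ≤ 2 * (((Finset.range t).filter fun i => 2 * i ≤ t).card : ℝ) := by
      exact_mod_cast hcard
    linarith
  have := mul_le_mul_of_nonneg_right hcard' hlog.le
  linarith

/-- [HK-D3] from `2 t < n` to `t ≪ log log n`.
PROOF. `ℓ = log₂ n + 1 ≤ 2 log n + 1`. First step: `max A 9 ≤ n/2 + 2ℓ` for large `n`, so `log (max A 9) ≤ log (n/2) + 4ℓ/n`, and
`t (log (n/2) + log(3/2)/2) ≤ (t + ℓ)(log (n/2) + 4ℓ/n)` gives `t log(3/2)/2 ≤ ℓ log (n/2) + (t + ℓ) 4ℓ/n ≤ ℓ log n + 4ℓ`, so `t ≤ C₁ (log n)²`.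
Second step: `max A 9 ≤ C₂ (log n)²`, `log (max A 9) ≤ 3 log log n ≤ log(n/2)/2` for large `n`; `t log (n/2) ≤ (t + ℓ) 3 log log n` gives
`t log(n/2)/2 ≤ 3 ℓ log log n`, so `t ≤ C log log n`. -/
theorem t_bound : ∃ (C : ℝ) (N : ℕ), 0 < C ∧ ∀ n t A : ℕ, N ≤ n → 0 < t → 2 * t < n →
    A ≤ t + 2 * (Nat.log 2 n + 1) →
    (t : ℝ) * Real.log ((n : ℝ) / 2) + (t : ℝ) / 2 * Real.log (3 / 2) ≤
      ((t : ℝ) + (Nat.log 2 n + 1 : ℕ)) * Real.log (max A 9 : ℕ) →
    (t : ℝ) ≤ C * Real.log (Real.log n) := by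
  refine ⟨36, ⌈Real.exp 121⌉₊, by norm_num, ?_⟩
  intro n t A hN ht htn hA hmain
  have hexp : Real.exp 121 ≤ n := (Nat.le_ceil _).trans (by exact_mod_cast hN)
  have hn0 : (0 : ℝ) < n := (Real.exp_pos _).trans_le hexp
  set L : ℝ := Real.log n with hL
  have hL1 : 121 ≤ L := by
    rw [hL, Real.le_log_iff_exp_le hn0]
    exact hexp
  have hnbig : (122 : ℝ) ≤ n := by
    have := Real.add_one_le_exp (121 : ℝ)
    linarith
  have hn2 : 122 ≤ n := by exact_mod_cast hnbig
  set l : ℝ := ((Nat.log 2 n + 1 : ℕ) : ℝ) with hl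
  have hl0 : 0 < l := by rw [hl]; positivity
  have hlog2 : (1 : ℝ) / 2 ≤ Real.log 2 := by
    have := Real.one_sub_inv_le_log_of_pos (x := (2 : ℝ)) (by norm_num)
    norm_num at this ⊢
    linarith
  have hlL : l ≤ 3 * L := by
    have h1 : (2 : ℝ) ^ Nat.log 2 n ≤ n := by
      exact_mod_cast Nat.pow_log_le_self 2 (by omega)
    have h2 : (Nat.log 2 n : ℝ) * Real.log 2 ≤ L := by
      rw [hL, ← Real.log_pow]
      exact Real.log_le_log (by positivity) h1
    have h3 : (Nat.log 2 n : ℝ) ≤ 2 * L := by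
      have h4 : (Nat.log 2 n : ℝ) * (1 / 2) ≤ (Nat.log 2 n : ℝ) * Real.log 2 :=
        mul_le_mul_of_nonneg_left hlog2 (Nat.cast_nonneg _)
      linarith
    rw [hl]
    push_cast
    linarith
  have hlog32 : (1 : ℝ) / 3 ≤ Real.log (3 / 2) := by
    have := Real.one_sub_inv_le_log_of_pos (x := (3 / 2 : ℝ)) (by norm_num)
    norm_num at this ⊢
    linarith
  have ht0 : (0 : ℝ) < t := by exact_mod_cast ht
  have htn' : 2 * (t : ℝ) < n := by exact_mod_cast htn
  have hA' : (A : ℝ) ≤ t + 2 * l := by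
    rw [hl]
    exact_mod_cast hA
  have hlogn2 : Real.log ((n : ℝ) / 2) = L - Real.log 2 := by
    rw [Real.log_div hn0.ne' two_ne_zero]
  have hlog2' : Real.log 2 ≤ 1 := by
    have := Real.log_le_sub_one_of_pos (x := (2 : ℝ)) (by norm_num)
    linarith
  -- the bound for `l` in terms of `n`
  have hLn : L ≤ n / 12 := by
    -- `log n = 2 log √n ≤ 2 √n`, and `√n ≥ 24`
    have h1 : Real.exp (L / 2) = Real.sqrt n := by
      rw [Real.sqrt_eq_rpow, Real.rpow_def_of_pos hn0, ← hL]
      ring_nf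
    have h2 : L / 2 + 1 ≤ Real.exp (L / 2) := Real.add_one_le_exp _
    have h3 : (24 : ℝ) ≤ Real.sqrt n := by
      rw [← h1]
      linarith
    have h4 : Real.sqrt n * Real.sqrt n = n := Real.mul_self_sqrt hn0.le
    nlinarith
  have hmax1 : ((max A 9 : ℕ) : ℝ) ≤ n / 2 + 2 * l := by
    rw [Nat.cast_max]
    refine max_le (by linarith) ?_
    push_cast
    linarith
  have hmax0 : (0 : ℝ) < ((max A 9 : ℕ) : ℝ) := by
    have : 0 < max A 9 := lt_max_of_lt_right (by norm_num)
    exact_mod_cast this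
  have hlm1 : Real.log ((max A 9 : ℕ) : ℝ) ≤ Real.log ((n : ℝ) / 2) + 4 * l / n := by
    have h1 : Real.log ((max A 9 : ℕ) : ℝ) ≤ Real.log (n / 2 + 2 * l) := Real.log_le_log hmax0 hmax1
    have h2 : (n : ℝ) / 2 + 2 * l = (n / 2) * (1 + 4 * l / n) := by
      field_simp
      ring
    rw [h2, Real.log_mul (by positivity) (by positivity)] at h1
    have h3 : Real.log (1 + 4 * l / n) ≤ 4 * l / n := by
      have := Real.log_le_sub_one_of_pos (x := 1 + 4 * l / n) (by positivity)
      linarith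
    linarith
  -- first step
  have hstep1 : (t : ℝ) ≤ 90 * L ^ 2 := by
    have h1 : (t : ℝ) * Real.log ((n : ℝ) / 2) + (t : ℝ) / 2 * Real.log (3 / 2) ≤
        (t + l) * (Real.log ((n : ℝ) / 2) + 4 * l / n) :=
      hmain.trans (mul_le_mul_of_nonneg_left hlm1 (by positivity))
    have h2 : (t + l) * (4 * l / n) ≤ 4 * l := by
      have h3 : (t : ℝ) + l ≤ n := by linarith
      rw [mul_div_assoc', div_le_iff₀ hn0]
      have h4 : 0 ≤ 4 * l := by positivity
      nlinarith
    have h3 : l * Real.log ((n : ℝ) / 2) ≤ l * L := by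
      refine mul_le_mul_of_nonneg_left ?_ hl0.le
      rw [hlogn2]
      linarith
    have h4 : (t : ℝ) / 2 * (1 / 3) ≤ (t : ℝ) / 2 * Real.log (3 / 2) :=
      mul_le_mul_of_nonneg_left hlog32 (by positivity)
    have h5 : (t : ℝ) / 6 ≤ l * L + 4 * l := by
      have h6 : (t + l) * (Real.log ((n : ℝ) / 2) + 4 * l / n) =
        t * Real.log ((n : ℝ) / 2) + l * Real.log ((n : ℝ) / 2) + (t + l) * (4 * l / n) := by ring
      rw [h6] at h1
      linarith
    have h6 : l * L + 4 * l ≤ 15 * L ^ 2 := by nlinarith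
    linarith
  -- second step
  have hmax2 : ((max A 9 : ℕ) : ℝ) ≤ L ^ 3 := by
    rw [Nat.cast_max]
    refine max_le ?_ ?_
    · have : (A : ℝ) ≤ 90 * L ^ 2 + 6 * L := by linarith
      nlinarith [sq_nonneg L]
    · push_cast
      nlinarith [sq_nonneg L]
  have hL0 : 0 < L := by linarith
  have hlm2 : Real.log ((max A 9 : ℕ) : ℝ) ≤ 3 * Real.log L := by
    have h1 := Real.log_le_log hmax0 hmax2
    rw [Real.log_pow] at h1
    have e : ((3 : ℕ) : ℝ) = 3 := by norm_num
    rw [e] at h1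
    exact h1
  have hLL0 : 0 < Real.log L := Real.log_pos (by linarith)
  have h6 : 6 * Real.log L ≤ L - 1 := by
    have h1 : Real.log L = 2 * Real.log (Real.sqrt L) := by
      rw [Real.log_sqrt hL0.le]
      ring
    have h2 : Real.log (Real.sqrt L) ≤ Real.sqrt L - 1 :=
      Real.log_le_sub_one_of_pos (Real.sqrt_pos.2 hL0)
    have h3 : (11 : ℝ) ≤ Real.sqrt L := by
      rw [Real.le_sqrt' (by norm_num)]
      linarith
    have h4 : Real.sqrt L * Real.sqrt L = L := Real.mul_self_sqrt hL0.le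
    have h5 : 0 ≤ (Real.sqrt L - 11) * (Real.sqrt L - 1) :=
      mul_nonneg (by linarith) (by linarith)
    have h6 : (Real.sqrt L - 11) * (Real.sqrt L - 1) = L - 12 * Real.sqrt L + 11 := by
      linear_combination h4
    linarith
  have h7 : (t : ℝ) * Real.log ((n : ℝ) / 2) ≤ (t + l) * (3 * Real.log L) := by
    have h1 := hmain.trans (mul_le_mul_of_nonneg_left hlm2 (by positivity))
    have h2 : 0 ≤ (t : ℝ) / 2 * Real.log (3 / 2) := by
      have : 0 ≤ Real.log (3 / 2) := by linarith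
      positivity
    linarith
  have h8 : L - 1 ≤ Real.log ((n : ℝ) / 2) := by
    rw [hlogn2]
    linarith
  have h9 : (t : ℝ) * (L - 1) / 2 ≤ 3 * l * Real.log L := by
    have h10 : (t : ℝ) * (3 * Real.log L) ≤ t * ((L - 1) / 2) :=
      mul_le_mul_of_nonneg_left (by linarith) ht0.le
    have h11 : (t : ℝ) * (L - 1) ≤ t * Real.log ((n : ℝ) / 2) := mul_le_mul_of_nonneg_left h8 ht0.le
    have h12' : (t + l) * (3 * Real.log L) = t * (3 * Real.log L) + 3 * l * Real.log L := by ring
    have h13' : (t : ℝ) * ((L - 1) / 2) = t * (L - 1) / 2 := by ring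
    linarith
  have h12 : 3 * l * Real.log L ≤ 9 * L * Real.log L :=
    mul_le_mul_of_nonneg_right (by linarith) hLL0.le
  have h13 : (t : ℝ) * (L - 1) ≤ 18 * L * Real.log L := by linarith
  have h14 : L ≤ 2 * (L - 1) := by linarith
  have h15 : 18 * L * Real.log L ≤ 36 * Real.log L * (L - 1) := by
    have := mul_le_mul_of_nonneg_left h14 (by positivity : 0 ≤ 18 * Real.log L)
    linarith
  have h16 : (t : ℝ) * (L - 1) ≤ (36 * Real.log L) * (L - 1) := h13.trans h15
  exact le_of_mul_le_mul_right h16 (by linarith)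

end HK
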