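import Pool.Agent.HK.D1
import Pool.Agent.HK.D2
import Pool.Agent.HK.D3

set_option autoImplicit false

open scoped Nat

namespace HK

theorem d4_prod_le {M : ℕ} (hM : 9 ≤ M) : ∀ (l : List ℕ), (∀ b ∈ l, 2 ≤ b ∧ b ≤ M) →
    (l.map Nat.factorial).prod ≤ M ^ (l.map fun b => padicValNat 2 b !).sum
  | [], _ => by simp
  | b :: l, h => by
    rw [List.map_cons, List.prod_cons, List.map_cons, List.sum_cons, pow_add]
    exact Nat.mul_le_mul (factorial_le_pow (h b (by simp)).1 (h b (by simp)).2 hM)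
      (d4_prod_le hM l fun c hc => h c (by simp [hc]))

theorem d4_sum_le : ∀ (l : List ℕ), (∀ b ∈ l, 2 ≤ b) →
    l.sum ≤ 3 * (l.map fun b => padicValNat 2 b !).sum
  | [], _ => by simp
  | b :: l, h => by
    rw [List.sum_cons, List.map_cons, List.sum_cons, mul_add]
    exact Nat.add_le_add (le_three_val (h b (by simp)))
      (d4_sum_le l fun c hc => h c (by simp [hc]))

theorem d4_log_bounds {n : ℕ} (hn : 3 ≤ n) :
    0 ≤ Real.log (Real.log n) ∧ Real.log (Real.log n) ≤ Real.log n ∧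
      ((Nat.log 2 n + 1 : ℕ) : ℝ) ≤ 3 * Real.log n := by
  have hn' : (3 : ℝ) ≤ n := by exact_mod_cast hn
  have h1 : 1 ≤ Real.log n := by
    rw [Real.le_log_iff_exp_le (by linarith)]
    have := Real.exp_one_lt_d9
    linarith
  refine ⟨Real.log_nonneg h1, ?_, ?_⟩
  · have := Real.log_le_sub_one_of_pos (show 0 < Real.log n by linarith)
    linarith
  · have h2 : ((Nat.log 2 n : ℕ) : ℝ) * Real.log 2 ≤ Real.log n := by
      have h3 : (2 : ℝ) ^ (Nat.log 2 n) ≤ n := by
        exact_mod_cast Nat.pow_log_le_self 2 (by omega)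
      have := Real.log_le_log (by positivity) h3
      rwa [Real.log_pow] at this
    have h4 := Real.log_two_gt_d9
    push_cast
    have h5 : (0 : ℝ) ≤ Nat.log 2 n := Nat.cast_nonneg _
    nlinarith

/-- [HK-D4] bounds for non-trivial solutions (Erdős).
PROOF. `S_basic`: `t = n - a`, `R = n.descFactorial t = ∏_{b ∈ l} b!`, `v = v₂(R) ≤ t + log₂ n + 1 = ∑ v₂(b!)` (`val_descFactorial_le`, `val_prod`). Let `A` be the
maximum of `l` (`A` is the `a₂` of the solution): `A ≤ v₂(A!) + log₂ A + 1 ≤ t + 2 (log₂ n + 1)` (`A ≤ n`). `log R = ∑ log b! ≤ v log (max A 9)`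
(`factorial_le_pow`), `log_descFactorial_ge`, `t_bound`. `∑ b ≤ 3 ∑ v₂(b!) ≤ 3 (t + log₂ n + 1)`. -/
theorem erdos_bounds : ∃ (C : ℝ) (N : ℕ), 0 < C ∧ ∀ s ∈ N2e4138ab.S, N ≤ s.1 →
    ∀ a l, s.2 = a :: l → ((s.1 : ℝ) - a) ≤ C * Real.log (Real.log s.1) ∧
      ((l.sum : ℕ) : ℝ) ≤ C * Real.log s.1 := by
  obtain ⟨C, N, hC, h⟩ := t_bound
  refine ⟨3 * C + 9, max N 3, by linarith, ?_⟩
  intro s hs hN a l hal
  obtain ⟨a', l', h1, h2, h3, h4, h5, h6⟩ := S_basic hs
  obtain ⟨rfl, rfl⟩ : a = a' ∧ l = l' := by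
    rw [hal] at h1
    simpa using h1
  obtain ⟨n, L⟩ := s
  simp only at h1 h2 h3 h4 h6 hN hal ⊢
  have hNn : N ≤ n := le_trans (le_max_left _ _) hN
  have hn3 : 3 ≤ n := le_trans (le_max_right _ _) hN
  obtain ⟨hl0, hl1, hl2⟩ := d4_log_bounds hn3
  set t := n - a with ht
  have hta : t + a = n := by omega
  have ht0 : 0 < t := by omega
  have htn : 2 * t < n := by omega
  have hv1 : padicValNat 2 (n.descFactorial t) ≤ t + (Nat.log 2 n + 1) :=
    val_descFactorial_le (a := a) (by omega) (by omega)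
  have hv2 : padicValNat 2 (n.descFactorial t) = (l.map fun b => padicValNat 2 b !).sum := by
    rw [h6, val_prod 2 Nat.prime_two]
  obtain ⟨A, hA, hAmax⟩ : ∃ A ∈ l, ∀ b ∈ l, b ≤ A := by
    obtain ⟨A, hA, hAm⟩ := l.toFinset.exists_max_image id (by
      obtain ⟨x, hx⟩ := List.exists_mem_of_ne_nil l h5
      exact ⟨x, by simpa using hx⟩)
    exact ⟨A, by simpa using hA, fun b hb => hAm b (by simpa using hb)⟩
  have hAn : A ≤ n := by have := (h4 A hA).2; omega
  have hAt : A ≤ t + 2 * (Nat.log 2 n + 1) := by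
    have e1 := le_val_add_log A
    have e2 : padicValNat 2 A ! ≤ (l.map fun b => padicValNat 2 b !).sum :=
      List.single_le_sum (fun x _ => Nat.zero_le x) _ (List.mem_map.2 ⟨A, hA, rfl⟩)
    have e3 : Nat.log 2 A ≤ Nat.log 2 n := Nat.log_mono_right hAn
    omega
  have hR : n.descFactorial t ≤ (max A 9) ^ (padicValNat 2 (n.descFactorial t)) := by
    rw [hv2]
    nth_rewrite 1 [h6]
    exact d4_prod_le (le_max_right _ _) l fun b hb =>
      ⟨(h4 b hb).1, le_trans (hAmax b hb) (le_max_left _ _)⟩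
  have hRpos : 0 < n.descFactorial t := Nat.descFactorial_pos.2 (by omega)
  have hM1 : (1 : ℝ) ≤ (max A 9 : ℕ) := by
    have : 1 ≤ max A 9 := le_trans (by norm_num) (le_max_right A 9)
    exact_mod_cast this
  have hlogR : Real.log (n.descFactorial t : ℝ) ≤
      ((t : ℝ) + (Nat.log 2 n + 1 : ℕ)) * Real.log (max A 9 : ℕ) := by
    have e1 : ((n.descFactorial t : ℕ) : ℝ) ≤
        ((max A 9 : ℕ) : ℝ) ^ (padicValNat 2 (n.descFactorial t)) := by exact_mod_cast hR
    have e2 := Real.log_le_log (by exact_mod_cast hRpos) e1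
    rw [Real.log_pow] at e2
    refine le_trans e2 (mul_le_mul_of_nonneg_right ?_ (Real.log_nonneg hM1))
    exact_mod_cast hv1
  have hge := log_descFactorial_ge ht0 htn
  have htb := h n t A hNn ht0 htn hAt (le_trans hge hlogR)
  have hcast : (n : ℝ) - a = t := by
    rw [← hta]; push_cast; ring
  refine ⟨?_, ?_⟩
  · rw [hcast]
    nlinarith
  · have e1 : l.sum ≤ 3 * (t + (Nat.log 2 n + 1)) := by
      have := d4_sum_le l fun b hb => (h4 b hb).1
      omega
    have e2 : ((l.sum : ℕ) : ℝ) ≤ 3 * ((t : ℝ) + (Nat.log 2 n + 1 : ℕ)) := by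
      exact_mod_cast e1
    nlinarith

end HK
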