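import Mathlib

set_option autoImplicit false

open scoped Nat

namespace HK

private theorem d5_prod {p : ℕ} (hp : p.Prime) (f : ℕ → ℕ) (k : ℕ) (hf : ∀ i < k, f i ≠ 0) :
    padicValNat p (∏ i ∈ Finset.range k, f i) = ∑ i ∈ Finset.range k, padicValNat p (f i) := by
  have : Fact p.Prime := ⟨hp⟩
  induction k with
  | zero => simp
  | succ k ih =>
    rw [Finset.prod_range_succ, Finset.sum_range_succ, padicValNat.mul, ih]
    · intro i hi; exact hf i (by omega)
    · rw [Finset.prod_ne_zero_iff]
      intro i hi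
      exact hf i (by have := Finset.mem_range.mp hi; omega)
    · exact hf k (by omega)

private theorem d5_le {p : ℕ} (hp : p.Prime) (b : ℕ) : padicValNat p b ! ≤ b := by
  have : Fact p.Prime := ⟨hp⟩
  have h := sub_one_mul_padicValNat_factorial (p := p) b
  have h2 : 1 ≤ p - 1 := by have := hp.two_le; omega
  calc padicValNat p b ! = 1 * padicValNat p b ! := (one_mul _).symm
    _ ≤ (p - 1) * padicValNat p b ! := Nat.mul_le_mul_right _ h2
    _ = b - (p.digits b).sum := h
    _ ≤ b := Nat.sub_le _ _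

/-- [HK-D5] one of `t` consecutive integers is divisible by almost the full power of `p`.
PROOF. Let `j < t` be such that `v_p (n - j)` is maximal. For `i ≠ j`, `p^{v_p (n-i)}` divides `n - i`, `n - j` and so `|i - j|`; hence
`∑_{i ≠ j} v_p (n - i) ≤ ∑_{i ≠ j} v_p |i - j| = v_p (j! (t-1-j)!) ≤ v_p ((t-1)!) ≤ t`. (`t < n`, all factors positive.) -/
theorem exists_divisible {p n t : ℕ} (hp : p.Prime) (ht : 0 < t) (htn : t < n) :
    ∃ j < t, padicValNat p (n.descFactorial t) ≤ padicValNat p (n - j) + t := by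
  have : Fact p.Prime := ⟨hp⟩
  obtain ⟨j, hj, hmax⟩ := Finset.exists_max_image (Finset.range t) (fun i => padicValNat p (n - i))
    ⟨0, Finset.mem_range.mpr ht⟩
  have hjt := Finset.mem_range.mp hj
  refine ⟨j, hjt, ?_⟩
  rw [Nat.descFactorial_eq_prod_range, d5_prod hp _ _ (fun i hi => by omega)]
  obtain ⟨m, rfl⟩ : ∃ m, t = j + (m + 1) := ⟨t - j - 1, by omega⟩
  rw [Finset.sum_range_add, Finset.sum_range_succ', add_zero]
  have h1 : ∑ i ∈ Finset.range j, padicValNat p (n - i) ≤ padicValNat p j ! := by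
    rw [← Nat.descFactorial_self j, Nat.descFactorial_eq_prod_range,
      d5_prod hp _ _ (fun i hi => by omega)]
    apply Finset.sum_le_sum
    intro i hi
    have hij := Finset.mem_range.mp hi
    have h2 : padicValNat p (n - i) ≤ padicValNat p (n - j) := hmax i (Finset.mem_range.mpr (by omega))
    have h3 : p ^ padicValNat p (n - i) ∣ n - i := pow_padicValNat_dvd
    have h4 : p ^ padicValNat p (n - i) ∣ n - j := (pow_dvd_pow p h2).trans pow_padicValNat_dvd
    have h5 : p ^ padicValNat p (n - i) ∣ j - i := by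
      have := Nat.dvd_sub h3 h4
      rwa [show n - i - (n - j) = j - i by omega] at this
    exact (padicValNat_dvd_iff_le (by omega)).mp h5
  have h2 : ∑ i ∈ Finset.range m, padicValNat p (n - (j + (i + 1))) ≤ padicValNat p m ! := by
    rw [← Finset.prod_range_add_one_eq_factorial, d5_prod hp _ _ (fun i hi => by omega)]
    apply Finset.sum_le_sum
    intro i hi
    have hij := Finset.mem_range.mp hi
    have h2 : padicValNat p (n - (j + (i + 1))) ≤ padicValNat p (n - j) :=
      hmax (j + (i + 1)) (Finset.mem_range.mpr (by omega))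
    have h3 : p ^ padicValNat p (n - (j + (i + 1))) ∣ n - (j + (i + 1)) := pow_padicValNat_dvd
    have h4 : p ^ padicValNat p (n - (j + (i + 1))) ∣ n - j :=
      (pow_dvd_pow p h2).trans pow_padicValNat_dvd
    have h5 : p ^ padicValNat p (n - (j + (i + 1))) ∣ i + 1 := by
      have := Nat.dvd_sub h4 h3
      rwa [show n - j - (n - (j + (i + 1))) = i + 1 by omega] at this
    exact (padicValNat_dvd_iff_le (by omega)).mp h5
  have h3 := d5_le hp j
  have h4 := d5_le hp m
  omega

/-- [HK-D5] `v_p (b!) ≥ ⌊b/p⌋ ≥ b/(2p)` for `b ≥ 2p` -/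
theorem val_factorial_ge {p b : ℕ} (hp : p.Prime) (hb : 2 * p ≤ b) :
    (b : ℝ) / (2 * p) ≤ (padicValNat p b ! : ℝ) := by
  have : Fact p.Prime := ⟨hp⟩
  have hp0 : 0 < p := hp.pos
  have h1 : p * (b / p) + b % p = b := Nat.div_add_mod b p
  have h2 : b % p < p := Nat.mod_lt _ hp0
  have h3 : padicValNat p b ! = padicValNat p (b / p)! + b / p := by
    conv_lhs => rw [← h1]
    rw [padicValNat_factorial_mul_add _ h2, padicValNat_factorial_mul]
  have h4 : 1 ≤ b / p := by
    rw [Nat.le_div_iff_mul_le hp0]; omega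
  have h5 : b ≤ 2 * p * (b / p) := by nlinarith
  have h6 : b ≤ 2 * p * padicValNat p b ! := by
    rw [h3, mul_add]
    exact h5.trans (Nat.le_add_left _ _)
  have hp1 : (0 : ℝ) < 2 * p := by positivity
  rw [div_le_iff₀ hp1]
  have h7 : (b : ℝ) ≤ 2 * p * (padicValNat p b ! : ℝ) := by exact_mod_cast h6
  linarith

/-- [HK-D5] divergence of `∑ log p / p` (compare with `∑ 1/p`: `Nat.Primes.not_summable_one_div`) -/
theorem exists_primes_sum (K : ℝ) : ∃ P₀ : ℕ,
    K < ∑ p ∈ (Finset.range P₀).filter Nat.Prime, Real.log p / p := by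
  have hl2 : 0 < Real.log 2 := Real.log_pos (by norm_num)
  have h := not_summable_one_div_on_primes
  rw [not_summable_iff_tendsto_nat_atTop_of_nonneg (by
    intro n
    apply Set.indicator_nonneg
    intro x _
    positivity)] at h
  obtain ⟨P, hP⟩ := (h.eventually_gt_atTop (K / Real.log 2)).exists
  refine ⟨P, ?_⟩
  rw [div_lt_iff₀ hl2] at hP
  refine hP.trans_le ?_
  rw [Finset.sum_mul, Finset.sum_filter]
  apply Finset.sum_le_sum
  intro i _
  by_cases hi : i.Prime
  · rw [Set.indicator_of_mem (show i ∈ {p : ℕ | p.Prime} from hi), if_pos hi]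
    have h2 : Real.log 2 ≤ Real.log i := by
      apply Real.log_le_log (by norm_num)
      exact_mod_cast hi.two_le
    have h3 : (0 : ℝ) < i := by exact_mod_cast hi.pos
    rw [div_mul_eq_mul_div, one_mul]
    exact div_le_div_of_nonneg_right h2 h3.le
  · rw [Set.indicator_of_notMem (show i ∉ {p : ℕ | p.Prime} from hi), if_neg hi, zero_mul]

end HK
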