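import Pool.Agent.HK.C2
import Pool.Agent.HK.D4
import Pool.Agent.HK.D5

set_option autoImplicit false

open scoped Nat

namespace HK

/-- the large elements of the list -/
theorem d6_list (p B : ℕ) (hp : p.Prime) (hB : 2 * p ≤ B) (l : List ℕ) :
    (((l.filter (fun b => B < b)).sum : ℕ) : ℝ) / (2 * p) ≤
      (((l.map fun b => padicValNat p b !).sum : ℕ) : ℝ) := by
  induction l with
  | nil => simp
  | cons b l ih =>
    rw [List.map_cons, List.sum_cons, Nat.cast_add]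
    by_cases h : B < b
    · rw [List.filter_cons_of_pos (by simpa using h), List.sum_cons, Nat.cast_add, add_div]
      have h1 := val_factorial_ge hp (show 2 * p ≤ b by omega)
      linarith
    · rw [List.filter_cons_of_neg (by simpa using h)]
      have h1 : (0 : ℝ) ≤ (padicValNat p b ! : ℝ) := Nat.cast_nonneg _
      linarith

/-- `C log log n ≤ c log n` for large `n` -/
theorem d6_loglog (C c : ℝ) (hc : 0 < c) :
    ∃ N : ℕ, ∀ n : ℕ, N ≤ n → C * Real.log (Real.log n) ≤ c * Real.log n := by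
  have h1 : (fun n : ℕ => Real.log (Real.log n)) =o[Filter.atTop] (fun n : ℕ => Real.log n) :=
    Real.isLittleO_log_id_atTop.comp_tendsto
      (Real.tendsto_log_atTop.comp tendsto_natCast_atTop_atTop)
  have h2 := h1.def (show 0 < c / (|C| + 1) by positivity)
  obtain ⟨N, hN⟩ := Filter.eventually_atTop.mp (h2.and (Filter.eventually_ge_atTop 1))
  refine ⟨N, fun n hn => ?_⟩
  obtain ⟨h3, h4⟩ := hN n hn
  have h5 : 0 ≤ Real.log n := Real.log_nonneg (by exact_mod_cast h4)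
  rw [Real.norm_eq_abs, Real.norm_eq_abs, abs_of_nonneg h5] at h3
  calc C * Real.log (Real.log n) ≤ |C * Real.log (Real.log n)| := le_abs_self _
    _ = |C| * |Real.log (Real.log n)| := abs_mul _ _
    _ ≤ |C| * (c / (|C| + 1) * Real.log n) := mul_le_mul_of_nonneg_left h3 (abs_nonneg _)
    _ = (|C| / (|C| + 1)) * (c * Real.log n) := by ring
    _ ≤ 1 * (c * Real.log n) := by
        apply mul_le_mul_of_nonneg_right _ (by positivity)
        rw [div_le_one (by positivity)]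
        linarith
    _ = c * Real.log n := one_mul _

theorem d6_log_rpow (η : ℝ) (hη : 0 < η) :
    ∃ N : ℕ, ∀ n : ℕ, N ≤ n → Real.log n ≤ (n : ℝ) ^ η := by
  have h1 : (fun n : ℕ => Real.log n) =o[Filter.atTop] (fun n : ℕ => (n : ℝ) ^ η) :=
    (isLittleO_log_rpow_atTop hη).comp_tendsto tendsto_natCast_atTop_atTop
  have h2 := h1.def (show (0 : ℝ) < 1 by norm_num)
  obtain ⟨N, hN⟩ := Filter.eventually_atTop.mp h2
  refine ⟨N, fun n hn => ?_⟩
  have h3 := hN n hn
  rw [Real.norm_eq_abs, Real.norm_eq_abs, one_mul,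
    abs_of_nonneg (Real.rpow_nonneg (Nat.cast_nonneg n) η)] at h3
  exact (le_abs_self _).trans h3

/-- [HK-D6] the large factors of a non-trivial solution.
PROOF. `exists_primes_sum` with `K = 128/δ`: `S` = the primes `< P₀`, `x p = δ log p/(4p)`, `∑ x p > 32`; `η, N` from `roth_ridout`. `B = 2 P₀`. Let `s` be a solution with
`n = s.1` large and `∑_{b ∈ l, b > B} b > δ log n`. For `p ∈ S`: `v_p(R) = ∑_{b ∈ l} v_p(b!) ≥ ∑_{b > B} b/(2p) > δ log n/(2p)` (`val_factorial_ge`, `val_prod`);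
`exists_divisible`: `j_p < t` with `v_p(n - j_p) ≥ δ log n/(2p) - t ≥ δ log n/(4p)` as `t ≤ C log log n ≤ δ log n/(4 P₀)`. `|j_p| < t ≤ n^η`. This contradicts
`roth_ridout` (`e = v_p(n - j_p)`). -/
theorem large_part (δ : ℝ) (hδ : 0 < δ) : ∃ B N : ℕ, ∀ s ∈ N2e4138ab.S, N ≤ s.1 →
    ∀ a l, s.2 = a :: l → (((l.filter (fun b => B < b)).sum : ℕ) : ℝ) ≤ δ * Real.log s.1 := by
  obtain ⟨P₀, hP₀⟩ := exists_primes_sum (128 / δ)
  set S : Finset ℕ := (Finset.range P₀).filter Nat.Prime with hS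
  have hSp : ∀ p ∈ S, p.Prime := fun p hp => (Finset.mem_filter.mp hp).2
  have hSlt : ∀ p ∈ S, p < P₀ := fun p hp => Finset.mem_range.mp (Finset.mem_filter.mp hp).1
  have hx0 : ∀ p ∈ S, 0 ≤ δ * Real.log p / (4 * p) := by
    intro p hp
    have h1 : 0 ≤ Real.log p := Real.log_nonneg (by exact_mod_cast (hSp p hp).one_lt.le)
    positivity
  have hsum : 32 < ∑ p ∈ S, δ * Real.log p / (4 * p) := by
    have e : ∑ p ∈ S, δ * Real.log p / (4 * p) = δ / 4 * ∑ p ∈ S, Real.log p / p := by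
      rw [Finset.mul_sum]
      apply Finset.sum_congr rfl
      intro p _
      ring
    rw [e]
    have h1 : δ / 4 * (128 / δ) < δ / 4 * ∑ p ∈ S, Real.log p / p :=
      mul_lt_mul_of_pos_left hP₀ (by positivity)
    have h2 : δ / 4 * (128 / δ) = 32 := by
      field_simp
      norm_num
    linarith
  obtain ⟨η, N₁, hη, hrr⟩ := roth_ridout S hSp (fun p => δ * Real.log p / (4 * p)) hx0 hsum
  obtain ⟨C, N₂, hC, heb⟩ := erdos_bounds
  obtain ⟨N₃, hN₃⟩ := d6_loglog C (δ / (4 * (P₀ + 1))) (by positivity)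
  obtain ⟨N₄, hN₄⟩ := d6_loglog C 1 one_pos
  obtain ⟨N₅, hN₅⟩ := d6_log_rpow η hη
  refine ⟨2 * P₀, max N₁ (max N₂ (max N₃ (max N₄ (max N₅ 1)))), ?_⟩
  intro s hs hN a l hl
  simp only [max_le_iff] at hN
  obtain ⟨hn1, hn2, hn3, hn4, hn5, hn6⟩ := hN
  by_contra hcon
  rw [not_le] at hcon
  obtain ⟨a', l', hl', ha2, hna, hb, hlne, hprod⟩ := S_basic hs
  rw [hl] at hl'
  obtain ⟨rfl, rfl⟩ := List.cons.inj hl'
  obtain ⟨ht, -⟩ := heb s hs hn2 a l hl
  have htc : ((s.1 - a : ℕ) : ℝ) = (s.1 : ℝ) - a := by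
    rw [Nat.cast_sub (by omega)]
  have ht1 : ((s.1 - a : ℕ) : ℝ) ≤ δ / (4 * (P₀ + 1)) * Real.log s.1 := by
    rw [htc]; exact ht.trans (hN₃ s.1 hn3)
  have ht2 : ((s.1 - a : ℕ) : ℝ) ≤ (s.1 : ℝ) ^ η := by
    rw [htc]
    refine ht.trans ((hN₄ s.1 hn4).trans ?_)
    rw [one_mul]
    exact hN₅ s.1 hn5
  have hlog0 : 0 ≤ Real.log s.1 := Real.log_nonneg (by exact_mod_cast hn6)
  -- choice of `j`
  have hj : ∀ p : ℕ, ∃ j : ℕ, p ∈ S → j < s.1 - a ∧
      padicValNat p (s.1.descFactorial (s.1 - a)) ≤ padicValNat p (s.1 - j) + (s.1 - a) := by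
    intro p
    by_cases hp : p ∈ S
    · obtain ⟨j, hj1, hj2⟩ := exists_divisible (hSp p hp) (show 0 < s.1 - a by omega)
        (show s.1 - a < s.1 by omega)
      exact ⟨j, fun _ => ⟨hj1, hj2⟩⟩
    · exact ⟨0, fun h => absurd h hp⟩
  choose j hj using hj
  refine hrr s.1 hn1 ⟨fun p => (j p : ℤ), ?_, ?_⟩
  · intro p hp
    obtain ⟨hj1, -⟩ := hj p hp
    have h1 : ((j p : ℤ) : ℝ) = (j p : ℝ) := by push_cast; rfl
    have h2 : (j p : ℝ) ≤ ((s.1 - a : ℕ) : ℝ) := by exact_mod_cast hj1.le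
    show |((j p : ℤ) : ℝ)| ≤ _
    rw [h1, abs_of_nonneg (Nat.cast_nonneg _)]
    exact h2.trans ht2
  · intro p hp
    obtain ⟨hj1, hj2⟩ := hj p hp
    have hpp := hSp p hp
    have hp0 : (0 : ℝ) < p := by exact_mod_cast hpp.pos
    have hpP : (p : ℝ) < P₀ := by exact_mod_cast hSlt p hp
    have hlogp : 0 ≤ Real.log p := Real.log_nonneg (by exact_mod_cast hpp.one_lt.le)
    refine ⟨padicValNat p (s.1 - j p), ?_, ?_⟩
    · rw [hprod, val_prod p hpp] at hj2
      have h1 := d6_list p (2 * P₀) hpp (by have := hSlt p hp; omega) l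
      have h2 : (((l.map fun b => padicValNat p b !).sum : ℕ) : ℝ) ≤
          (padicValNat p (s.1 - j p) : ℝ) + ((s.1 - a : ℕ) : ℝ) := by exact_mod_cast hj2
      have h3 : δ * Real.log s.1 / (2 * p) ≤
          (((l.filter (fun b => 2 * P₀ < b)).sum : ℕ) : ℝ) / (2 * p) :=
        div_le_div_of_nonneg_right hcon.le (by positivity)
      have h4 : δ / (4 * (P₀ + 1)) * Real.log s.1 ≤ δ * Real.log s.1 / (4 * p) := by
        rw [div_mul_eq_mul_div]
        apply div_le_div_of_nonneg_left (by positivity) (by positivity)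
        linarith
      have h5 : δ * Real.log s.1 / (2 * p) = δ * Real.log s.1 / (4 * p) + δ * Real.log s.1 / (4 * p) := by
        field_simp
        ring
      have h6 : δ * Real.log s.1 / (4 * p) ≤ (padicValNat p (s.1 - j p) : ℝ) := by
        linarith
      calc δ * Real.log p / (4 * p) * Real.log s.1
          = (δ * Real.log s.1 / (4 * p)) * Real.log p := by ring
        _ ≤ _ := mul_le_mul_of_nonneg_right h6 hlogp
    · have h1 : p ^ padicValNat p (s.1 - j p) ∣ s.1 - j p := pow_padicValNat_dvd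
      have h2 : ((s.1 - j p : ℕ) : ℤ) = (s.1 : ℤ) - (j p : ℤ) := by
        rw [Nat.cast_sub (by omega)]
      show (p : ℤ) ^ _ ∣ (s.1 : ℤ) - (j p : ℤ)
      rw [← h2]
      exact_mod_cast h1

end HK
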