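import Pool.Agent.HK.D6

set_option autoImplicit false

open scoped Nat

namespace HK

theorem d7_log_fact (B : ℕ) (M : ℝ) (b : ℕ) (hb : 2 ≤ b) (hM : (b : ℝ) ≤ M) :
    Real.log (b ! : ℝ) ≤ b * Real.log (B + 1) + (if B < b then (b : ℝ) else 0) * Real.log M := by
  have hb0 : (0 : ℝ) < b := by exact_mod_cast (by omega : 0 < b)
  have h1 : Real.log (b ! : ℝ) ≤ b * Real.log b := by
    rw [← Real.log_pow]
    apply Real.log_le_log (by exact_mod_cast Nat.factorial_pos b)
    exact_mod_cast Nat.factorial_le_pow b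
  have h2 : 0 ≤ Real.log ((B : ℝ) + 1) := by
    apply Real.log_nonneg
    have : (0 : ℝ) ≤ B := Nat.cast_nonneg B
    linarith
  split_ifs with h
  · have h3 : Real.log b ≤ Real.log M := Real.log_le_log hb0 hM
    have h4 : (b : ℝ) * Real.log b ≤ b * Real.log M := mul_le_mul_of_nonneg_left h3 hb0.le
    have h5 := mul_nonneg hb0.le h2
    linarith
  · have h3 : Real.log b ≤ Real.log ((B : ℝ) + 1) := by
      apply Real.log_le_log hb0
      have : (b : ℝ) ≤ B := by exact_mod_cast (by omega : b ≤ B)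
      linarith
    have h4 : (b : ℝ) * Real.log b ≤ b * Real.log ((B : ℝ) + 1) :=
      mul_le_mul_of_nonneg_left h3 hb0.le
    linarith

theorem d7_log_prod (B : ℕ) (M : ℝ) (l : List ℕ) (hl : ∀ b ∈ l, 2 ≤ b ∧ (b : ℝ) ≤ M) :
    Real.log ((l.map Nat.factorial).prod : ℝ) ≤ ((l.sum : ℕ) : ℝ) * Real.log (B + 1) +
      (((l.filter (fun b => B < b)).sum : ℕ) : ℝ) * Real.log M := by
  induction l with
  | nil => simp
  | cons b l ih =>
    have h1 := ih fun x hx => hl x (List.mem_cons_of_mem b hx)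
    obtain ⟨h2, h3⟩ := hl b List.mem_cons_self
    have h4 := d7_log_fact B M b h2 h3
    have hp : (0 : ℝ) < ((l.map Nat.factorial).prod : ℝ) := by
      exact_mod_cast List.prod_pos (by
        intro x hx
        rw [List.mem_map] at hx
        obtain ⟨y, _, rfl⟩ := hx
        exact Nat.factorial_pos y)
    have hb : (0 : ℝ) < (b ! : ℝ) := by exact_mod_cast Nat.factorial_pos b
    rw [List.map_cons, List.prod_cons, Nat.cast_mul, Real.log_mul hb.ne' hp.ne', List.sum_cons]
    have h5 : (((b :: l).filter (fun b => B < b)).sum : ℕ) =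
        (if B < b then b else 0) + (l.filter (fun b => B < b)).sum := by
      rw [List.filter_cons]
      by_cases h : B < b <;> simp [h]
    have h6 : ((if B < b then b else 0 : ℕ) : ℝ) = if B < b then (b : ℝ) else 0 := by
      split_ifs <;> simp
    rw [h5, Nat.cast_add, Nat.cast_add, h6, add_mul, add_mul]
    linarith

theorem d7_dvd (n t : ℕ) (ht : 2 ≤ t) : n * (n - 1) ∣ n.descFactorial t := by
  induction t, ht using Nat.le_induction with
  | base =>
    rw [Nat.descFactorial_succ, Nat.descFactorial_one]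
    exact dvd_of_eq (mul_comm _ _)
  | succ k _ ih =>
    rw [Nat.descFactorial_succ]
    exact Dvd.dvd.mul_left ih _

/-- [HK-D7] final theorem.
PROOF. Let `C` be from `erdos_bounds`, `δ = min (ε/8) (ε/2)`, `B` from `large_part`. Let `b ∈ l`. If `b > B` then `b ≤ δ log n`; otherwise `b ≤ B ≤ ε log n` for large `n`.
`t log (n/2) ≤ log R = ∑_{b ∈ l} log b! ≤ ∑ b log b ≤ C log n · log B + δ log n · log (C log n)` (`b ≤ l.sum ≤ C log n`), so for large `n`
`t ≤ 2 (C log B + 2 δ log log n) ≤ ε log log n`. A prime `p ∣ n (n-1)` divides `R = ∏ b!` (`t ≥ 2`), so `p ≤ b` for some `b ∈ l`. -/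
theorem final (ε : ℝ) (hε : 0 < ε) : ∃ N : ℕ, ∀ s ∈ N2e4138ab.S, N ≤ s.1 →
    ((s.1 : ℝ) - s.2.headI ≤ ε * Real.log (Real.log s.1)) ∧
    (∀ b ∈ s.2.tail, (b : ℝ) ≤ ε * Real.log s.1) ∧
    ∀ p : ℕ, p.Prime → p ∣ s.1 * (s.1 - 1) → (p : ℝ) ≤ ε * Real.log s.1 := by
  obtain ⟨C, N1, hC, h1⟩ := erdos_bounds
  obtain ⟨B, N2, h2⟩ := large_part (ε / 8) (by positivity)
  have hlog : Filter.Tendsto (fun n : ℕ => Real.log (n : ℝ)) Filter.atTop Filter.atTop :=
    Real.tendsto_log_atTop.comp tendsto_natCast_atTop_atTop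
  have hloglog : Filter.Tendsto (fun n : ℕ => Real.log (Real.log (n : ℝ))) Filter.atTop
      Filter.atTop := Real.tendsto_log_atTop.comp hlog
  obtain ⟨N3, h3⟩ := Filter.eventually_atTop.1 ((((hlog.eventually_ge_atTop ((B : ℝ) / ε)).and
    (hlog.eventually_ge_atTop (2 * Real.log 2 + 1))).and
    (hloglog.eventually_ge_atTop ((2 * C * Real.log (B + 1) + 2 * (ε / 8) * Real.log C) / (ε / 2)))).and
    (hloglog.eventually_ge_atTop 0))
  refine ⟨max (max N1 N2) (max N3 2), ?_⟩
  intro s hs hN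
  have hN1 : N1 ≤ s.1 := le_trans (le_trans (le_max_left _ _) (le_max_left _ _)) hN
  have hN2 : N2 ≤ s.1 := le_trans (le_trans (le_max_right _ _) (le_max_left _ _)) hN
  have hN3 : N3 ≤ s.1 := le_trans (le_trans (le_max_left _ _) (le_max_right _ _)) hN
  have hN4 : 2 ≤ s.1 := le_trans (le_trans (le_max_right _ _) (le_max_right _ _)) hN
  obtain ⟨⟨⟨e1, e2⟩, e3⟩, e4⟩ := h3 s.1 hN3
  obtain ⟨a, l, hal, ha2, hna, hl, hlne, hR⟩ := S_basic hs
  obtain ⟨hta, hsum⟩ := h1 s hs hN1 a l hal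
  have hbig := h2 s hs hN2 a l hal
  set n : ℕ := s.1 with hn
  set LN : ℝ := Real.log (n : ℝ) with hLN
  have hlog2 : 0 < Real.log 2 := Real.log_pos (by norm_num)
  have hLN1 : 1 ≤ LN := by linarith
  -- (2)
  have hB : (B : ℝ) ≤ ε * LN := by
    rw [div_le_iff₀ hε] at e1
    linarith
  have hpart2 : ∀ b ∈ l, (b : ℝ) ≤ ε * LN := by
    intro b hb
    by_cases hbB : B < b
    · have h5 : b ≤ (l.filter (fun b => B < b)).sum := by
        apply List.le_sum_of_mem
        rw [List.mem_filter]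
        exact ⟨hb, by simpa using hbB⟩
      have h6 : (b : ℝ) ≤ (((l.filter (fun b => B < b)).sum : ℕ) : ℝ) := by exact_mod_cast h5
      have h8 : 0 < ε * LN := mul_pos hε (by linarith)
      have h7 : ε / 8 * LN ≤ ε * LN := by linarith
      linarith
    · have : (b : ℝ) ≤ B := by exact_mod_cast (by omega : b ≤ B)
      linarith
  refine ⟨?_, ?_, ?_⟩
  · -- (1)
    rw [hal]
    show (n : ℝ) - (a : ℝ) ≤ ε * Real.log LN
    set t : ℕ := n - a with ht
    have htr : (n : ℝ) - a = t := by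
      rw [ht, Nat.cast_sub (by omega)]
    rw [htr]
    have ht0 : 0 < t := by omega
    have hdes := log_descFactorial_ge (n := n) (t := t) ht0 (by omega)
    rw [hR] at hdes
    have hM : ∀ b ∈ l, 2 ≤ b ∧ (b : ℝ) ≤ C * LN := by
      intro b hb
      refine ⟨(hl b hb).1, ?_⟩
      have h5 : b ≤ l.sum := List.le_sum_of_mem hb
      have h6 : (b : ℝ) ≤ ((l.sum : ℕ) : ℝ) := by exact_mod_cast h5
      linarith
    have hprod := d7_log_prod B (C * LN) l hM
    obtain ⟨b0, hb0⟩ := List.exists_mem_of_ne_nil l hlne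
    have hCL : 1 ≤ C * LN := by
      obtain ⟨h5, h6⟩ := hM b0 hb0
      have : (2 : ℝ) ≤ b0 := by exact_mod_cast h5
      linarith
    have hlogCL : 0 ≤ Real.log (C * LN) := Real.log_nonneg hCL
    have hlogB : 0 ≤ Real.log ((B : ℝ) + 1) := by
      apply Real.log_nonneg
      have : (0 : ℝ) ≤ B := Nat.cast_nonneg B
      linarith
    have hlogn2 : Real.log ((n : ℝ) / 2) = LN - Real.log 2 := by
      rw [Real.log_div (by exact_mod_cast (by omega : n ≠ 0)) (by norm_num)]
    have ht0' : (0 : ℝ) < t := by exact_mod_cast ht0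
    have h32 : 0 ≤ Real.log ((3 : ℝ) / 2) := Real.log_nonneg (by norm_num)
    have k1 : (t : ℝ) * (LN / 2) ≤ C * LN * Real.log (B + 1) + ε / 8 * LN * Real.log (C * LN) := by
      have k2 : (t : ℝ) * (LN / 2) ≤ (t : ℝ) * Real.log ((n : ℝ) / 2) := by
        apply mul_le_mul_of_nonneg_left _ ht0'.le
        rw [hlogn2]
        linarith
      have k3 : 0 ≤ (t : ℝ) / 2 * Real.log (3 / 2) := by positivity
      have k4 : ((l.sum : ℕ) : ℝ) * Real.log (B + 1) ≤ C * LN * Real.log (B + 1) :=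
        mul_le_mul_of_nonneg_right hsum hlogB
      have k5 := mul_le_mul_of_nonneg_right hbig hlogCL
      linarith
    have hLN0 : 0 < LN := by linarith
    have k6 : (t : ℝ) ≤ 2 * C * Real.log (B + 1) + 2 * (ε / 8) * Real.log (C * LN) := by
      have k8 : (t : ℝ) * LN ≤ (2 * C * Real.log (B + 1) + 2 * (ε / 8) * Real.log (C * LN)) * LN := by
        linarith
      exact le_of_mul_le_mul_right k8 hLN0
    rw [Real.log_mul hC.ne' hLN0.ne'] at k6
    rw [div_le_iff₀ (by positivity)] at e3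
    have e5 : 0 ≤ ε * Real.log LN := mul_nonneg hε.le e4
    linarith
  · rw [hal]
    exact hpart2
  · intro p hp hdvd
    have h5 : p ∣ (l.map Nat.factorial).prod := by
      rw [← hR]
      exact hdvd.trans (d7_dvd n (n - a) (by omega))
    obtain ⟨x, hx, hpx⟩ := (Nat.Prime.prime hp).dvd_prod_iff.1 h5
    rw [List.mem_map] at hx
    obtain ⟨b, hb, rfl⟩ := hx
    have h6 : p ≤ b := (hp.dvd_factorial).1 hpx
    have h7 : (p : ℝ) ≤ b := by exact_mod_cast h6
    exact h7.trans (hpart2 b hb)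

end HK
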