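import Mathlib

set_option autoImplicit false

open MvPolynomial

/-!
# A theorem of Roth-Ridout type with moving targets: common definitions
-/

namespace HK

section
variable {κ R : Type} [Fintype κ] [CommRing R]

/-- Hasse derivative: `∏ (x_k ^ J_k) ↦ ∏ binom (J_k) (I_k) x_k ^ (J_k - I_k)` -/
noncomputable def hd (I : κ →₀ ℕ) (P : MvPolynomial κ R) : MvPolynomial κ R :=
  ∑ J ∈ P.support, monomial (J - I) (P.coeff J * ((∏ k, (J k).choose (I k) : ℕ) : R))

/-- the shift `P(x) ↦ P(x + a)` -/
noncomputable def sh (a : κ → R) : MvPolynomial κ R →ₐ[R] MvPolynomial κ R :=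
  aeval fun k => X k + C (a k)

/-- all monomials have weight at least `θ` -/
def OrdGe (w : κ → ℝ) (θ : ℝ) (P : MvPolynomial κ R) : Prop :=
  ∀ I, P.coeff I ≠ 0 → θ ≤ ∑ k, w k * (I k : ℝ)

end

/-- sum of the absolute values of the coefficients -/
noncomputable def L1 {κ : Type} (P : MvPolynomial κ ℤ) : ℝ :=
  ∑ J ∈ P.support, |((P.coeff J : ℤ) : ℝ)|

/-- the coefficient of `x_0 ^ c`, a polynomial in the other variables -/
noncomputable def slice {R : Type} [CommRing R] {m : ℕ} (c : ℕ) (P : MvPolynomial (Fin (m + 1)) R) :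
    MvPolynomial (Fin m) R := (finSuccEquiv R m P).coeff c

/-- the embedding of polynomials in the variables `x_1, ..., x_m` -/
noncomputable def up {R : Type} [CommRing R] {m : ℕ} :
    MvPolynomial (Fin m) R →ₐ[R] MvPolynomial (Fin (m + 1)) R := rename Fin.succ

/-- the embedding of polynomials in the variable `x_0` -/
noncomputable def uy {R : Type} [CommRing R] {m : ℕ} :
    Polynomial R →ₐ[R] MvPolynomial (Fin (m + 1)) R := Polynomial.aeval (X 0)

/-- rational coefficients -/
noncomputable abbrev toQ {κ : Type} : MvPolynomial κ ℤ →+* MvPolynomial κ ℚ :=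
  MvPolynomial.map (Int.castRingHom ℚ)

end HK
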