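import Mathlib

set_option autoImplicit false

namespace HK

/-- non-increasing lists of positive integers with sum at most `K` -/
def PL (K : ℕ) : Set (List ℕ) := {l | l.Pairwise (· ≥ ·) ∧ (∀ b ∈ l, 1 ≤ b) ∧ l.sum ≤ K}

/-- the same with all entries at most `b` -/
def e1_P (b K : ℕ) : Set (List ℕ) :=
  {l | l.Pairwise (· ≥ ·) ∧ (∀ x ∈ l, 1 ≤ x ∧ x ≤ b) ∧ l.sum ≤ K}

theorem e1_P_zero (K : ℕ) : e1_P 0 K ⊆ {[]} := by
  intro l hl
  rcases l with _ | ⟨a, t⟩
  · rfl
  · obtain ⟨-, h, -⟩ := hl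
    have := h a (List.mem_cons_self)
    omega

theorem e1_P_succ (b K : ℕ) : e1_P (b + 1) K ⊆
    e1_P b K ∪ {l | b + 1 ≤ K ∧ ∃ t ∈ e1_P (b + 1) (K - (b + 1)), l = (b + 1) :: t} := by
  intro l hl
  rcases l with _ | ⟨a, t⟩
  · left
    exact ⟨List.Pairwise.nil, by simp, by simp⟩
  · obtain ⟨h1, h2, h3⟩ := hl
    rw [List.pairwise_cons] at h1
    rw [List.sum_cons] at h3
    have ha := h2 a (List.mem_cons_self)
    by_cases hab : a = b + 1
    · right
      refine ⟨by omega, t, ⟨h1.2, fun x hx => h2 x (List.mem_cons_of_mem _ hx), by omega⟩, by rw [hab]⟩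
    · left
      refine ⟨List.pairwise_cons.mpr h1, ?_, by rw [List.sum_cons]; exact h3⟩
      intro x hx
      refine ⟨(h2 x hx).1, ?_⟩
      rcases List.mem_cons.mp hx with hx | hx
      · omega
      · have := h1.1 x hx
        omega

theorem e1_P_finite (b : ℕ) : ∀ K, (e1_P b K).Finite := by
  induction b with
  | zero => intro K; exact (Set.finite_singleton _).subset (e1_P_zero K)
  | succ b ih =>
    intro K
    induction K using Nat.strong_induction_on with
    | _ K ihK =>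
      refine (Set.Finite.union (ih K) ?_).subset (e1_P_succ b K)
      by_cases hK : b + 1 ≤ K
      · have h1 := ihK (K - (b + 1)) (by omega)
        refine (h1.image (fun t => (b + 1) :: t)).subset ?_
        rintro l ⟨-, t, ht, rfl⟩
        exact ⟨t, ht, rfl⟩
      · refine Set.Finite.subset Set.finite_empty ?_
        rintro l ⟨h, -⟩
        exact absurd h hK

theorem e1_PL_subset (K : ℕ) : PL K ⊆ e1_P K K := by
  rintro l ⟨h1, h2, h3⟩
  exact ⟨h1, fun x hx => ⟨h2 x hx, (List.le_sum_of_mem hx).trans h3⟩, h3⟩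

/-- [HK-E1] PROOF. A list in `PL K` is determined by the multiplicities `m_b`, `1 ≤ b ≤ K`, `m_b ≤ K` (`List.eq_of_perm_of_sorted` or
`List.Perm.eq_of_pairwise`). -/
theorem PL_finite (K : ℕ) : (PL K).Finite := (e1_P_finite K K).subset (e1_PL_subset K)

/-- Rankin's trick -/
theorem e1_rankin (q : ℝ) (hq0 : 0 < q) (hq1 : q < 1) (b : ℕ) : ∀ K : ℕ,
    ((e1_P b K).ncard : ℝ) ≤ (q ^ K)⁻¹ * ∏ j ∈ Finset.range b, (1 - q ^ (j + 1))⁻¹ := by
  have hpos : ∀ j : ℕ, 0 < 1 - q ^ (j + 1) := fun j => by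
    have h : q ^ (j + 1) < 1 := pow_lt_one₀ hq0.le hq1 (Nat.succ_ne_zero j)
    linarith
  induction b with
  | zero =>
    intro K
    have h1 : (e1_P 0 K).ncard ≤ 1 := by
      refine (Set.ncard_le_ncard (e1_P_zero K) (Set.finite_singleton _)).trans ?_
      simp
    have h2 : ((e1_P 0 K).ncard : ℝ) ≤ 1 := by exact_mod_cast h1
    refine h2.trans ?_
    rw [Finset.prod_range_zero, mul_one]
    exact (one_le_inv₀ (by positivity)).mpr (pow_le_one₀ hq0.le hq1.le)
  | succ b ih =>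
    intro K
    induction K using Nat.strong_induction_on with
    | _ K ihK =>
      set A : ℝ := ∏ j ∈ Finset.range b, (1 - q ^ (j + 1))⁻¹ with hA
      have hA0 : 0 < A := Finset.prod_pos fun j _ => inv_pos.mpr (hpos j)
      rw [Finset.prod_range_succ, ← hA]
      have hb := hpos b
      by_cases hK : b + 1 ≤ K
      · have hsub : ((e1_P (b + 1) K).ncard : ℝ) ≤
            (e1_P b K).ncard + (e1_P (b + 1) (K - (b + 1))).ncard := by
          have hfin : (e1_P b K ∪ (fun t => (b + 1) :: t) '' e1_P (b + 1) (K - (b + 1))).Finite :=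
            (e1_P_finite b K).union ((e1_P_finite (b + 1) _).image _)
          have h1 : e1_P (b + 1) K ⊆ e1_P b K ∪ (fun t => (b + 1) :: t) '' e1_P (b + 1) (K - (b + 1)) := by
            intro l hl
            rcases e1_P_succ b K hl with h | ⟨-, t, ht, rfl⟩
            · exact Or.inl h
            · exact Or.inr ⟨t, ht, rfl⟩
          have h2 := Set.ncard_le_ncard h1 hfin
          have h3 := Set.ncard_union_le (e1_P b K)
            ((fun t => (b + 1) :: t) '' e1_P (b + 1) (K - (b + 1)))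
          have h4 := Set.ncard_image_le (e1_P_finite (b + 1) (K - (b + 1))) (f := fun t => (b + 1) :: t)
          exact_mod_cast (h2.trans h3).trans (Nat.add_le_add_left h4 _)
        have h5 := ih K
        have h6 := ihK (K - (b + 1)) (by omega)
        rw [Finset.prod_range_succ, ← hA] at h6
        have h7 : (q ^ (K - (b + 1)))⁻¹ = (q ^ K)⁻¹ * q ^ (b + 1) := by
          have : q ^ K = q ^ (K - (b + 1)) * q ^ (b + 1) := by
            rw [← pow_add]; congr 1; omega
          rw [this, mul_inv]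
          field_simp
        rw [h7] at h6
        refine (hsub.trans (add_le_add h5 h6)).trans (le_of_eq ?_)
        field_simp
        ring
      · have h1 : e1_P (b + 1) K ⊆ e1_P b K := by
          intro l hl
          rcases e1_P_succ b K hl with h | ⟨h, -⟩
          · exact h
          · exact absurd h hK
        have h2 : ((e1_P (b + 1) K).ncard : ℝ) ≤ (e1_P b K).ncard := by
          exact_mod_cast Set.ncard_le_ncard h1 (e1_P_finite b K)
        refine (h2.trans (ih K)).trans ?_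
        rw [← mul_assoc]
        refine le_mul_of_one_le_right (by positivity) ?_
        rw [one_le_inv₀ hb]
        have : 0 < q ^ (b + 1) := by positivity
        linarith

/-- the finite geometric sum -/
theorem e1_geom (x : ℝ) (hx0 : 0 < x) (hx1 : x < 1) (K : ℕ) :
    ∑ j ∈ Finset.range K, x ^ (j + 1) ≤ x / (1 - x) := by
  have h1 : 0 < 1 - x := by linarith
  have h2 : ∑ j ∈ Finset.range K, x ^ (j + 1) = x * ((1 - x ^ K) / (1 - x)) := by
    have h3 := geom_sum_eq hx1.ne K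
    calc ∑ j ∈ Finset.range K, x ^ (j + 1) = x * ∑ j ∈ Finset.range K, x ^ j := by
          rw [Finset.mul_sum]
          exact Finset.sum_congr rfl fun j _ => by ring
      _ = x * ((1 - x ^ K) / (1 - x)) := by
          rw [h3, ← neg_sub (1 : ℝ) (x ^ K), ← neg_sub (1 : ℝ) x, neg_div_neg_eq]
  rw [h2, mul_div_assoc']
  have h4 : 0 < x ^ K := by positivity
  exact div_le_div_of_nonneg_right (by nlinarith) h1.le

/-- the logarithm of the product -/
theorem e1_log (s : ℝ) (hs : 0 < s) (K : ℕ) :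
    ∑ j ∈ Finset.range K, -Real.log (1 - Real.exp (-s) ^ (j + 1)) ≤
      (∑' n : ℕ, 1 / ((n : ℝ) + 1) ^ 2) / s := by
  have hq0 : 0 < Real.exp (-s) := Real.exp_pos _
  have hq1 : Real.exp (-s) < 1 := Real.exp_lt_one_iff.mpr (by linarith)
  have hsum : HasSum (fun n : ℕ => ∑ j ∈ Finset.range K, (Real.exp (-s) ^ (j + 1)) ^ (n + 1) / ((n : ℝ) + 1))
      (∑ j ∈ Finset.range K, -Real.log (1 - Real.exp (-s) ^ (j + 1))) := by
    refine hasSum_sum fun j _ => ?_
    refine Real.hasSum_pow_div_log_of_abs_lt_one ?_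
    rw [abs_of_pos (by positivity)]
    exact pow_lt_one₀ hq0.le hq1 (Nat.succ_ne_zero j)
  have hS : Summable (fun n : ℕ => 1 / ((n : ℝ) + 1) ^ 2) := by
    have h := (summable_nat_add_iff 1).mpr (Real.summable_one_div_nat_pow.mpr (by norm_num : 1 < 2))
    simpa using h
  have hle : ∀ n : ℕ, ∑ j ∈ Finset.range K, (Real.exp (-s) ^ (j + 1)) ^ (n + 1) / ((n : ℝ) + 1) ≤
      1 / ((n : ℝ) + 1) ^ 2 / s := by
    intro n
    have hn : (0 : ℝ) < (n : ℝ) + 1 := by positivity
    set x : ℝ := Real.exp (-(s * ((n : ℝ) + 1))) with hx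
    have hx0 : 0 < x := Real.exp_pos _
    have hx1 : x < 1 := Real.exp_lt_one_iff.mpr (by nlinarith)
    have e1 : ∀ j : ℕ, (Real.exp (-s) ^ (j + 1)) ^ (n + 1) = x ^ (j + 1) := by
      intro j
      have e2 : Real.exp (-s) ^ (n + 1) = x := by
        rw [hx, ← Real.exp_nat_mul]
        congr 1
        push_cast
        ring
      rw [← e2, ← pow_mul, ← pow_mul, mul_comm]
    rw [← Finset.sum_div, Finset.sum_congr rfl fun j _ => e1 j]
    have e3 := e1_geom x hx0 hx1 K
    have e4 : x / (1 - x) ≤ 1 / (s * ((n : ℝ) + 1)) := by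
      rw [div_le_div_iff₀ (by linarith) (by positivity)]
      have e5 : s * ((n : ℝ) + 1) + 1 ≤ Real.exp (s * ((n : ℝ) + 1)) := Real.add_one_le_exp _
      have e6 : x * Real.exp (s * ((n : ℝ) + 1)) = 1 := by
        rw [hx, ← Real.exp_add]; simp
      nlinarith
    calc (∑ j ∈ Finset.range K, x ^ (j + 1)) / ((n : ℝ) + 1) ≤ 1 / (s * ((n : ℝ) + 1)) / ((n : ℝ) + 1) :=
          div_le_div_of_nonneg_right (e3.trans e4) hn.le
      _ = 1 / ((n : ℝ) + 1) ^ 2 / s := by
          field_simp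
  rw [← hsum.tsum_eq, ← tsum_div_const]
  exact hsum.summable.tsum_le_tsum hle (hS.div_const s)

/-- [HK-E1] number of partitions (Rankin's trick).
PROOF. `K = 0`: only the empty list. `K ≥ 1`: let `q = exp (-s)`, `s = 1/√K`. The lists correspond to functions `m : {1, ..., K} → {0, ..., K}` with `∑ b m_b ≤ K`;
`#(PL K) q^K ≤ ∑_m ∏_b q^(b m_b) ≤ ∏_{b=1}^K ∑_j q^(b j) ≤ ∏_b (1 - q^b)⁻¹`, so `log #(PL K) ≤ s K + ∑_{b=1}^K f(s b)` with `f(u) = -log (1 - e^{-u})`.
`u ≤ 1`: `1 - e^{-u} ≥ u/(1+u)`, `f(u) ≤ log (1 + 1/u) ≤ √(1 + 1/u) ≤ 2/√u`. `u ≥ 1`: `e^u ≥ 1 + u + u²/2` (`Real.quadratic_le_exp_of_nonneg`), so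
`f(u) ≤ log (1 + 1/(u + u²/2)) ≤ 2/u²`. So `∑_b f(s b) ≤ ∑_{b ≤ 1/s} 2/√(s b) + ∑_{b > 1/s} 2/(s b)² ≤ 4/s + 4/s` (telescoping: `1/√b ≤ 2(√b - √(b-1))`,
`1/b² ≤ 1/(b-1/2) - 1/(b+1/2)`), or any similar constant. -/
theorem part_bound : ∃ C : ℝ, 0 < C ∧ ∀ K : ℕ, ((PL K).ncard : ℝ) ≤ Real.exp (C * √(K : ℝ)) := by
  set Z : ℝ := ∑' n : ℕ, 1 / ((n : ℝ) + 1) ^ 2 with hZ
  have hZ0 : 0 ≤ Z := tsum_nonneg fun n => by positivity
  refine ⟨1 + Z, by linarith, fun K => ?_⟩
  have h1 : ((PL K).ncard : ℝ) ≤ (e1_P K K).ncard := by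
    exact_mod_cast Set.ncard_le_ncard (e1_PL_subset K) (e1_P_finite K K)
  refine h1.trans ?_
  rcases Nat.eq_zero_or_pos K with hK | hK
  · subst hK
    have h2 := e1_rankin (1 / 2) (by norm_num) (by norm_num) 0 0
    simpa using h2
  · have hKr : (0 : ℝ) < K := by exact_mod_cast hK
    set s : ℝ := 1 / √(K : ℝ) with hs
    have hsK : 0 < √(K : ℝ) := Real.sqrt_pos.mpr hKr
    have hs0 : 0 < s := by positivity
    have hq0 : 0 < Real.exp (-s) := Real.exp_pos _
    have hq1 : Real.exp (-s) < 1 := Real.exp_lt_one_iff.mpr (by linarith)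
    have h2 := e1_rankin (Real.exp (-s)) hq0 hq1 K K
    refine h2.trans ?_
    have hpos : ∀ j : ℕ, 0 < 1 - Real.exp (-s) ^ (j + 1) := fun j => by
      have h : Real.exp (-s) ^ (j + 1) < 1 := pow_lt_one₀ hq0.le hq1 (Nat.succ_ne_zero j)
      linarith
    have h3 : (Real.exp (-s) ^ K)⁻¹ = Real.exp (√(K : ℝ)) := by
      rw [← Real.exp_nat_mul, ← Real.exp_neg]
      congr 1
      rw [hs]
      have : (K : ℝ) = √(K : ℝ) * √(K : ℝ) := (Real.mul_self_sqrt hKr.le).symm
      nth_rewrite 1 [this]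
      field_simp
    have h4 : ∏ j ∈ Finset.range K, (1 - Real.exp (-s) ^ (j + 1))⁻¹ =
        Real.exp (∑ j ∈ Finset.range K, -Real.log (1 - Real.exp (-s) ^ (j + 1))) := by
      rw [Real.exp_sum]
      refine Finset.prod_congr rfl fun j _ => ?_
      have h7 := Real.exp_neg (Real.log (1 - Real.exp (-s) ^ (j + 1)))
      rw [h7, Real.exp_log (hpos j)]
    rw [h3, h4, ← Real.exp_add]
    refine Real.exp_le_exp.mpr ?_
    have h5 := e1_log s hs0 K
    have h6 : (∑' n : ℕ, 1 / ((n : ℝ) + 1) ^ 2) / s = Z * √(K : ℝ) := by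
      rw [← hZ, hs]
      field_simp
    rw [h6] at h5
    linarith

end HK
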