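import Pool.Agent.HK.D4
import Pool.Agent.HK.E1

set_option autoImplicit false

open scoped Nat

namespace HK

theorem e2_desc_lt {n n' t : ℕ} (h : n < n') (ht : 1 ≤ t) (htn : t ≤ n) :
    n.descFactorial t < n'.descFactorial t := by
  rw [Nat.descFactorial_eq_prod_range, Nat.descFactorial_eq_prod_range]
  refine Finset.prod_lt_prod_of_nonempty (fun i hi => ?_) (fun i hi => ?_) ?_
  · rw [Finset.mem_range] at hi; omega
  · rw [Finset.mem_range] at hi; omega
  · exact ⟨0, Finset.mem_range.2 (by omega)⟩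

theorem e2_pair {s : ℕ × List ℕ} (hs : s ∈ N2e4138ab.S) : s.2.Pairwise (· ≥ ·) := by
  obtain ⟨n, l⟩ := s
  exact hs.2.1

theorem e2_ge_two {s : ℕ × List ℕ} (hs : s ∈ N2e4138ab.S) : ∀ b ∈ s.2, 2 ≤ b := by
  obtain ⟨n, l⟩ := s
  exact fun b hb => hs.2.2.2 b hb

/-- [HK-E2] a solution is determined by `n - a₁` and the list of the other factors.
PROOF. `R = n.descFactorial t = ∏ l !` is strictly increasing in `n` for `t ≥ 1`, `n ≥ t`. (`S_basic`) -/
theorem sol_inj {s s' : ℕ × List ℕ} (hs : s ∈ N2e4138ab.S) (hs' : s' ∈ N2e4138ab.S)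
    (h1 : s.1 - s.2.headI = s'.1 - s'.2.headI) (h2 : s.2.tail = s'.2.tail) : s = s' := by
  obtain ⟨a, l, e, ha, -, -, -, hR⟩ := S_basic hs
  obtain ⟨a', l', e', ha', -, -, -, hR'⟩ := S_basic hs'
  rw [e, e'] at h1 h2
  simp only [List.headI_cons, List.tail_cons] at h1 h2
  subst h2
  rw [← hR', h1] at hR
  have hn : s.1 = s'.1 := by
    rcases lt_trichotomy s.1 s'.1 with h | h | h
    · exact absurd hR (e2_desc_lt h (by omega) (by omega)).ne
    · exact h
    · exact absurd hR (e2_desc_lt h (by omega) (by omega)).ne'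
  refine Prod.ext hn ?_
  rw [e, e']
  have : a = a' := by omega
  rw [this]

theorem e2_sum_le (l : List ℕ) (h : ∀ b ∈ l, 2 ≤ b) :
    l.sum ≤ 3 * (l.map fun b => padicValNat 2 b !).sum := by
  induction l with
  | nil => simp
  | cons b l ih =>
    simp only [List.sum_cons, List.map_cons]
    have h1 := le_three_val (h b List.mem_cons_self)
    have h2 := ih fun c hc => h c (List.mem_cons_of_mem _ hc)
    omega

/-- [HK-E2] PROOF. `l.sum ≤ 3 ∑ v₂(b!) ≤ 3 (t + log₂ n + 1) ≤ 6 n + 3`; `sol_inj`, `PL_finite`. -/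
theorem sol_finite (x : ℕ) : {s ∈ N2e4138ab.S | s.1 ≤ x}.Finite := by
  refine Set.Finite.of_injOn (f := fun s : ℕ × List ℕ => (s.1 - s.2.headI, s.2.tail))
    (t := Set.Iic x ×ˢ PL (6 * x + 3)) ?_ ?_ ((Set.finite_Iic x).prod (PL_finite _))
  · rintro s ⟨hs, hx⟩
    obtain ⟨a, l, e, ha, -, hl, -, hR⟩ := S_basic hs
    refine ⟨?_, ?_⟩
    · simp only [Set.mem_Iic]
      omega
    · simp only [e, List.tail_cons]
      have hp := e2_pair hs
      rw [e, List.pairwise_cons] at hp
      refine ⟨hp.2, fun b hb => by have := (hl b hb).1; omega, ?_⟩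
      have h1 := e2_sum_le l fun b hb => (hl b hb).1
      have h2 := val_prod 2 Nat.prime_two l
      rw [← hR] at h2
      have h3 := val_descFactorial_le (n := s.1) (a := a) (by omega) (by omega)
      have h4 : Nat.log 2 s.1 ≤ s.1 := Nat.log_le_self 2 s.1
      omega
  · rintro s ⟨hs, _⟩ s' ⟨hs', _⟩ h
    simp only [Prod.mk.injEq] at h
    exact sol_inj hs hs' h.1 h.2

/-- [HK-E2] a non-increasing list is determined by its part `> B` and the multiplicities of its elements `≤ B`. -/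
theorem list_inj {B : ℕ} {l l' : List ℕ} (hl : l.Pairwise (· ≥ ·)) (hl' : l'.Pairwise (· ≥ ·))
    (h1 : l.filter (fun b => B < b) = l'.filter (fun b => B < b))
    (h2 : ∀ b ≤ B, l.count b = l'.count b) : l = l' := by
  refine List.Perm.eq_of_pairwise (le := (· ≥ ·)) (fun a b _ _ h h' => le_antisymm h' h) hl hl' ?_
  rw [List.perm_iff_count]
  intro b
  rcases le_or_gt b B with hb | hb
  · exact h2 b hb
  · have e1 : (l.filter (fun b => B < b)).count b = l.count b :=
      List.count_filter (by simpa using hb)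
    have e2 : (l'.filter (fun b => B < b)).count b = l'.count b :=
      List.count_filter (by simpa using hb)
    rw [← e1, ← e2, h1]

/-- [HK-E2] PROOF. `s ↦ (s.1 - s.2.headI, s.2.tail.filter (B < ·), b ↦ s.2.tail.count b)` is injective on the set (`sol_inj`, `list_inj`), with values in
`{0..T} × PL K × (Fin (B+1) → Fin (Q+1))` (the elements are `≥ 2`, so a multiplicity is at most the sum of the tail). -/
theorem sol_count {A : Set (ℕ × List ℕ)} (hA : A ⊆ N2e4138ab.S) (B T K Q : ℕ)
    (h : ∀ s ∈ A, s.1 - s.2.headI ≤ T ∧ (s.2.tail.filter (fun b => B < b)).sum ≤ K ∧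
      s.2.tail.sum ≤ Q) :
    A.ncard ≤ (T + 1) * (PL K).ncard * (Q + 1) ^ (B + 1) := by
  have htail : ∀ s ∈ A, s.2.tail.Pairwise (· ≥ ·) ∧ ∀ b ∈ s.2.tail, 1 ≤ b := by
    intro s hs
    refine ⟨(e2_pair (hA hs)).sublist (List.tail_sublist _), fun b hb => ?_⟩
    have := e2_ge_two (hA hs) b (List.mem_of_mem_tail hb)
    omega
  have hcount : ∀ s ∈ A, ∀ b, s.2.tail.count b ≤ Q := by
    intro s hs b
    exact List.count_le_length.trans
      ((List.length_le_sum_of_one_le _ (htail s hs).2).trans (h s hs).2.2)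
  have key : A.ncard ≤ ((Set.Iic T : Set ℕ) ×ˢ ((PL K) ×ˢ
      (Set.univ : Set (Fin (B + 1) → Fin (Q + 1))))).ncard := by
    refine Set.ncard_le_ncard_of_injOn (fun s : ℕ × List ℕ => (s.1 - s.2.headI,
      (s.2.tail.filter (fun b => B < b),
        fun b : Fin (B + 1) => (⟨min (s.2.tail.count (b : ℕ)) Q, by omega⟩ : Fin (Q + 1)))))
      ?_ ?_ ((Set.finite_Iic T).prod ((PL_finite K).prod Set.finite_univ))
    · intro s hs
      refine ⟨(h s hs).1, ⟨?_, ?_, (h s hs).2.1⟩, Set.mem_univ _⟩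
      · exact (htail s hs).1.filter _
      · intro b hb
        exact (htail s hs).2 b (List.mem_of_mem_filter hb)
    · intro s hs s' hs' he
      simp only [Prod.mk.injEq] at he
      obtain ⟨he1, he2, he3⟩ := he
      refine sol_inj (hA hs) (hA hs') he1 ?_
      refine list_inj (B := B) (htail s hs).1 (htail s' hs').1 he2 fun b hb => ?_
      have h3 := congrFun he3 ⟨b, by omega⟩
      simp only [Fin.mk.injEq] at h3
      rwa [min_eq_left (hcount s hs b), min_eq_left (hcount s' hs' b)] at h3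
  refine key.trans (le_of_eq ?_)
  rw [Set.ncard_prod, Set.ncard_prod, Set.ncard_univ]
  have e1 : (Set.Iic T : Set ℕ).ncard = T + 1 := by
    rw [Set.ncard_eq_toFinset_card', Set.toFinset_Iic, Nat.card_Iic]
  have e2 : Nat.card (Fin (B + 1) → Fin (Q + 1)) = (Q + 1) ^ (B + 1) := by
    simp
  rw [e1, e2]
  ring

end HK
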