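import Pool.Agent.HK.D6
import Pool.Agent.HK.E2

set_option autoImplicit false

open scoped Nat

namespace HK

/-- growth: a constant plus a power of a linear function of `L` is at most `exp (ε √L)`. -/
theorem e3_growth (C ε : ℝ) (hC : 0 < C) (hε : 0 < ε) (c m : ℕ) : ∃ Y : ℝ, 1 ≤ Y ∧ ∀ y : ℝ, Y ≤ y →
    (c : ℝ) + (C * y ^ 2 + 1) ^ m ≤ Real.exp (ε * y) := by
  have hD : 0 < (c : ℝ) + (C + 1) ^ m := by positivity
  have h1 := (isLittleO_pow_exp_pos_mul_atTop (2 * m) hε).def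
    (c := 1 / ((c : ℝ) + (C + 1) ^ m)) (by positivity)
  obtain ⟨Y, hY⟩ := Filter.eventually_atTop.1 h1
  refine ⟨max Y 1, le_max_right _ _, fun y hy => ?_⟩
  have hy1 : (1 : ℝ) ≤ y := le_trans (le_max_right _ _) hy
  have h2 := hY y (le_trans (le_max_left _ _) hy)
  rw [Real.norm_of_nonneg (by positivity), Real.norm_of_nonneg (Real.exp_pos _).le] at h2
  have h3 : ((c : ℝ) + (C + 1) ^ m) * y ^ (2 * m) ≤ Real.exp (ε * y) := by
    calc ((c : ℝ) + (C + 1) ^ m) * y ^ (2 * m)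
        ≤ ((c : ℝ) + (C + 1) ^ m) * (1 / ((c : ℝ) + (C + 1) ^ m) * Real.exp (ε * y)) :=
          mul_le_mul_of_nonneg_left h2 hD.le
      _ = Real.exp (ε * y) := by field_simp
  refine le_trans ?_ h3
  have h4 : (1 : ℝ) ≤ y ^ (2 * m) := one_le_pow₀ hy1
  have h5 : C * y ^ 2 + 1 ≤ (C + 1) * y ^ 2 := by
    have : (1 : ℝ) ≤ y ^ 2 := one_le_pow₀ hy1
    nlinarith
  have h6 : (C * y ^ 2 + 1) ^ m ≤ (C + 1) ^ m * y ^ (2 * m) := by
    calc (C * y ^ 2 + 1) ^ m ≤ ((C + 1) * y ^ 2) ^ m := pow_le_pow_left₀ (by positivity) h5 m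
      _ = (C + 1) ^ m * y ^ (2 * m) := by rw [mul_pow, ← pow_mul]
  have h7 : (c : ℝ) ≤ c * y ^ (2 * m) := le_mul_of_one_le_right (Nat.cast_nonneg c) h4
  calc (c : ℝ) + (C * y ^ 2 + 1) ^ m ≤ c * y ^ (2 * m) + (C + 1) ^ m * y ^ (2 * m) := add_le_add h7 h6
    _ = ((c : ℝ) + (C + 1) ^ m) * y ^ (2 * m) := by ring

/-- The number of solutions between `N` and `x`. -/
theorem e3_main (C CE δ ε : ℝ) (hC : 0 < C) (hCE : 0 < CE) (hδ : 0 < δ) (hε : 0 < ε)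
    (hδε : CE * √δ ≤ ε / 2) (B N1 N2 : ℕ)
    (hp : ∀ K : ℕ, ((PL K).ncard : ℝ) ≤ Real.exp (CE * √(K : ℝ)))
    (h1 : ∀ s ∈ N2e4138ab.S, N1 ≤ s.1 →
      ∀ a l, s.2 = a :: l → ((s.1 : ℝ) - a) ≤ C * Real.log (Real.log s.1) ∧
      ((l.sum : ℕ) : ℝ) ≤ C * Real.log s.1)
    (h2 : ∀ s ∈ N2e4138ab.S, N2 ≤ s.1 →
      ∀ a l, s.2 = a :: l → (((l.filter (fun b => B < b)).sum : ℕ) : ℝ) ≤ δ * Real.log s.1)
    (x : ℕ) (hx : 3 ≤ x) :
    (({s ∈ N2e4138ab.S | (max 3 (max N1 N2)) ≤ s.1 ∧ s.1 ≤ x}.ncard : ℕ) : ℝ) ≤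
      (C * Real.log x + 1) ^ (B + 2) * Real.exp (ε / 2 * √(Real.log x)) := by
  have hx1 : (1 : ℝ) < x := by exact_mod_cast (by omega : 1 < x)
  have hL : 0 < Real.log x := Real.log_pos hx1
  have hLL : Real.log (Real.log x) ≤ Real.log x := (Real.log_le_sub_one_of_pos hL).trans (by linarith)
  have hcount := sol_count (A := {s ∈ N2e4138ab.S | (max 3 (max N1 N2)) ≤ s.1 ∧ s.1 ≤ x})
    (fun s hs => hs.1) B ⌊C * Real.log x⌋₊ ⌊δ * Real.log x⌋₊ ⌊C * Real.log x⌋₊ (by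
      rintro s ⟨hsS, hsN, hsx⟩
      obtain ⟨a, l, hal, ha2, -, -, -, -⟩ := S_basic hsS
      have e1 : s.2.headI = a := by rw [hal]; rfl
      have e2 : s.2.tail = l := by rw [hal]; rfl
      rw [e1, e2]
      have hsN1 : N1 ≤ s.1 := le_trans (le_trans (le_max_left _ _) (le_max_right _ _)) hsN
      have hsN2 : N2 ≤ s.1 := le_trans (le_trans (le_max_right _ _) (le_max_right _ _)) hsN
      have hs3 : 3 ≤ s.1 := le_trans (le_max_left _ _) hsN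
      have hs1 : (1 : ℝ) < s.1 := by exact_mod_cast (by omega : 1 < s.1)
      have hsL : 0 < Real.log s.1 := Real.log_pos hs1
      have hsx' : Real.log s.1 ≤ Real.log x :=
        Real.log_le_log (by linarith) (by exact_mod_cast hsx)
      have hsxx : Real.log (Real.log s.1) ≤ Real.log x :=
        (Real.log_le_log hsL hsx').trans hLL
      obtain ⟨g1, g2⟩ := h1 s hsS hsN1 a l hal
      have g3 := h2 s hsS hsN2 a l hal
      refine ⟨Nat.le_floor ?_, Nat.le_floor ?_, Nat.le_floor ?_⟩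
      · rw [Nat.cast_sub (by omega)]
        exact g1.trans (mul_le_mul_of_nonneg_left hsxx hC.le)
      · exact g3.trans (mul_le_mul_of_nonneg_left hsx' hδ.le)
      · exact g2.trans (mul_le_mul_of_nonneg_left hsx' hC.le))
  have hCL : 0 ≤ C * Real.log x := by positivity
  have hfl : ((⌊C * Real.log x⌋₊ : ℕ) : ℝ) + 1 ≤ C * Real.log x + 1 := by
    have := Nat.floor_le hCL
    linarith
  have hPL : ((PL ⌊δ * Real.log x⌋₊).ncard : ℝ) ≤ Real.exp (ε / 2 * √(Real.log x)) := by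
    refine (hp _).trans (Real.exp_le_exp.2 ?_)
    have g4 : √((⌊δ * Real.log x⌋₊ : ℕ) : ℝ) ≤ √δ * √(Real.log x) := by
      rw [← Real.sqrt_mul hδ.le]
      exact Real.sqrt_le_sqrt (Nat.floor_le (by positivity))
    calc CE * √((⌊δ * Real.log x⌋₊ : ℕ) : ℝ) ≤ CE * (√δ * √(Real.log x)) :=
          mul_le_mul_of_nonneg_left g4 hCE.le
      _ = (CE * √δ) * √(Real.log x) := by ring
      _ ≤ ε / 2 * √(Real.log x) := mul_le_mul_of_nonneg_right hδε (Real.sqrt_nonneg _)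
  calc (({s ∈ N2e4138ab.S | (max 3 (max N1 N2)) ≤ s.1 ∧ s.1 ≤ x}.ncard : ℕ) : ℝ)
      ≤ (((⌊C * Real.log x⌋₊ + 1) * (PL ⌊δ * Real.log x⌋₊).ncard *
          (⌊C * Real.log x⌋₊ + 1) ^ (B + 1) : ℕ) : ℝ) := by exact_mod_cast hcount
    _ = (((⌊C * Real.log x⌋₊ : ℕ) : ℝ) + 1) ^ (B + 2) * ((PL ⌊δ * Real.log x⌋₊).ncard : ℝ) := by
        push_cast; ring
    _ ≤ (C * Real.log x + 1) ^ (B + 2) * Real.exp (ε / 2 * √(Real.log x)) :=
        mul_le_mul (pow_le_pow_left₀ (by positivity) hfl _) hPL (by positivity) (by positivity)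

/-- [HK-E3] the number of solutions up to `x` is `exp (o (√ log x))`.
PROOF. `C_E` from `part_bound`, `C` from `erdos_bounds`; `δ` with `C_E √δ ≤ ε/2`; `B` from `large_part δ`. `N` = maximum of the two thresholds. The set is
`{s.1 < N}` (finite, `c` elements) and `A = {N ≤ s.1 ≤ x}`; for `s ∈ A`: `n - a ≤ C log log x`, sum of the large part `≤ δ log x`, sum `≤ C log x`. `sol_count` with
`T = ⌊C log log x⌋`, `K = ⌊δ log x⌋`, `Q = ⌊C log x⌋`: `≤ c + (T+1) exp (C_E √(δ log x)) (Q+1)^(B+1) ≤ exp (ε √ log x)` for large `x`. -/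
theorem count (ε : ℝ) (hε : 0 < ε) : ∃ X : ℕ, ∀ x : ℕ, X ≤ x →
    {s ∈ N2e4138ab.S | s.1 ≤ x}.Finite ∧
    (({s ∈ N2e4138ab.S | s.1 ≤ x}.ncard : ℕ) : ℝ) ≤ Real.exp (ε * √(Real.log x)) := by
  obtain ⟨CE, hCE, hp⟩ := part_bound
  obtain ⟨C, N1, hC, h1⟩ := erdos_bounds
  have hδ : 0 < (ε / (2 * CE)) ^ 2 := by positivity
  have hδε : CE * √((ε / (2 * CE)) ^ 2) ≤ ε / 2 := by
    rw [Real.sqrt_sq (by positivity)]
    exact le_of_eq (by field_simp)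
  obtain ⟨B, N2, h2⟩ := large_part ((ε / (2 * CE)) ^ 2) hδ
  obtain ⟨Y, hY1, hY⟩ := e3_growth C (ε / 2) hC (by positivity)
    ({s ∈ N2e4138ab.S | s.1 ≤ max 3 (max N1 N2)}.ncard) (B + 2)
  have ht : Filter.Tendsto (fun x : ℕ => √(Real.log x)) Filter.atTop Filter.atTop :=
    (Real.tendsto_sqrt_atTop.comp Real.tendsto_log_atTop).comp tendsto_natCast_atTop_atTop
  obtain ⟨X, hX⟩ := Filter.eventually_atTop.1
    ((ht.eventually_ge_atTop Y).and (Filter.eventually_ge_atTop (3 : ℕ)))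
  refine ⟨X, fun x hx => ⟨sol_finite x, ?_⟩⟩
  obtain ⟨hxY, hx3⟩ := hX x hx
  have hx1 : (1 : ℝ) < x := by exact_mod_cast (by omega : 1 < x)
  have hL : 0 < Real.log x := Real.log_pos hx1
  have hmain := e3_main C CE ((ε / (2 * CE)) ^ 2) ε hC hCE hδ hε hδε B N1 N2 hp h1 h2 x hx3
  have hsub : {s ∈ N2e4138ab.S | s.1 ≤ x} ⊆ {s ∈ N2e4138ab.S | s.1 ≤ max 3 (max N1 N2)} ∪
      {s ∈ N2e4138ab.S | (max 3 (max N1 N2)) ≤ s.1 ∧ s.1 ≤ x} := by
    rintro s ⟨hs, hsx⟩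
    rcases le_total s.1 (max 3 (max N1 N2)) with h | h
    · exact Or.inl ⟨hs, h⟩
    · exact Or.inr ⟨hs, h, hsx⟩
  have hfin2 : {s ∈ N2e4138ab.S | (max 3 (max N1 N2)) ≤ s.1 ∧ s.1 ≤ x}.Finite :=
    (sol_finite x).subset (fun s hs => ⟨hs.1, hs.2.2⟩)
  have hcard : {s ∈ N2e4138ab.S | s.1 ≤ x}.ncard ≤
      {s ∈ N2e4138ab.S | s.1 ≤ max 3 (max N1 N2)}.ncard +
      {s ∈ N2e4138ab.S | (max 3 (max N1 N2)) ≤ s.1 ∧ s.1 ≤ x}.ncard :=
    (Set.ncard_le_ncard hsub ((sol_finite _).union hfin2)).trans (Set.ncard_union_le _ _)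
  have hcardR : (({s ∈ N2e4138ab.S | s.1 ≤ x}.ncard : ℕ) : ℝ) ≤
      (({s ∈ N2e4138ab.S | s.1 ≤ max 3 (max N1 N2)}.ncard : ℕ) : ℝ) +
      (({s ∈ N2e4138ab.S | (max 3 (max N1 N2)) ≤ s.1 ∧ s.1 ≤ x}.ncard : ℕ) : ℝ) := by
    exact_mod_cast hcard
  have hg := hY (√(Real.log x)) hxY
  rw [Real.sq_sqrt hL.le] at hg
  have hexp : (1 : ℝ) ≤ Real.exp (ε / 2 * √(Real.log x)) := Real.one_le_exp (by positivity)
  calc (({s ∈ N2e4138ab.S | s.1 ≤ x}.ncard : ℕ) : ℝ)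
      ≤ (({s ∈ N2e4138ab.S | s.1 ≤ max 3 (max N1 N2)}.ncard : ℕ) : ℝ) +
        (C * Real.log x + 1) ^ (B + 2) * Real.exp (ε / 2 * √(Real.log x)) :=
        hcardR.trans (add_le_add le_rfl hmain)
    _ ≤ (({s ∈ N2e4138ab.S | s.1 ≤ max 3 (max N1 N2)}.ncard : ℕ) : ℝ) *
          Real.exp (ε / 2 * √(Real.log x)) +
        (C * Real.log x + 1) ^ (B + 2) * Real.exp (ε / 2 * √(Real.log x)) :=
        add_le_add (le_mul_of_one_le_right (Nat.cast_nonneg _) hexp) le_rfl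
    _ = ((({s ∈ N2e4138ab.S | s.1 ≤ max 3 (max N1 N2)}.ncard : ℕ) : ℝ) +
        (C * Real.log x + 1) ^ (B + 2)) * Real.exp (ε / 2 * √(Real.log x)) := by ring
    _ ≤ Real.exp (ε / 2 * √(Real.log x)) * Real.exp (ε / 2 * √(Real.log x)) :=
        mul_le_mul_of_nonneg_right hg (Real.exp_pos _).le
    _ = Real.exp (ε * √(Real.log x)) := by
        rw [← Real.exp_add]; congr 1; ring

end HK
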